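import Pool.Agent.H11.Cake.Basic

/-!
# A breadth first forest   (JOB PC-FOREST)

PROOF.  Let `H : SimpleGraph G` be the graph `b ~ b'` iff `b ≠ b'` and `∃ k, E k b ∧ E k b'`.  For
every connected component choose a representative `root b` (`ConnectedComponent.out` or
`Quot.out`), so `root b = root b'` if `b, b'` are reachable from each other, and `b` is reachable from
`root b`, `root (root b) = root b`.  `d b = H.dist (root b) b`; if `d b > 0` a shortest walk from
`root b` to `b` has a last edge `c ~ b`, `d c = d b - 1 < d b` (same root), put `p b = c` and let `l b`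
be the agent of this edge.  `d b < card G`: a shortest walk is a path (`SimpleGraph.Walk.IsPath.length_lt`).
If `d b = 0` then `root b = b` (reachable and distance `0`).  For `conn`: `b = b'` or `b ~ b'`.
(Any other construction is fine; e.g. by induction on a finset of processed bundles.)
-/

namespace H11.Cake

/-- Two bundles are adjacent if some agent is adjacent to both. -/
def forestGraph {G : Type} (E : G → G → Prop) : SimpleGraph G where
  Adj b b' := b ≠ b' ∧ ∃ k, E k b ∧ E k b'
  symm := ⟨fun _ _ h => ⟨h.1.symm, h.2.imp fun _ hk => ⟨hk.2, hk.1⟩⟩⟩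
  loopless := ⟨fun _ h => h.1 rfl⟩

theorem exists_forest {G : Type} [Fintype G] (E : G → G → Prop) :
    ∃ (d : G → ℕ) (p l root : G → G), IsForest E d p l root := by
  classical
  let H := forestGraph E
  let root : G → G := fun b => (H.connectedComponentMk b).out
  have hroot : ∀ b, H.connectedComponentMk (root b) = H.connectedComponentMk b :=
    fun b => Quot.out_eq _
  have hreach : ∀ b, H.Reachable (root b) b := fun b =>
    SimpleGraph.ConnectedComponent.exact (hroot b)
  have hadj : ∀ b c, H.Adj b c → root b = root c := by
    intro b c h
    have : H.connectedComponentMk b = H.connectedComponentMk c :=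
      SimpleGraph.ConnectedComponent.sound h.reachable
    show (H.connectedComponentMk b).out = (H.connectedComponentMk c).out
    rw [this]
  let d : G → ℕ := fun b => H.dist (root b) b
  have hstep : ∀ {x r : G} (u : H.Walk x r), 0 < u.length →
      ∃ c, H.Adj x c ∧ ∃ u' : H.Walk c r, u'.length + 1 = u.length := by
    intro x r u hu
    cases u with
    | nil => simp at hu
    | @cons _ c _ h u => exact ⟨c, h, u, rfl⟩
  have hpar : ∀ b, ∃ c l : G, 0 < d b → (d c < d b ∧ E l b ∧ E l c ∧ root c = root b) := by
    intro b
    by_cases hd : 0 < d b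
    · obtain ⟨w, hw⟩ := (hreach b).exists_walk_length_eq_dist
      have hw' : w.reverse.length = d b := by
        rw [SimpleGraph.Walk.length_reverse, hw]
      obtain ⟨c, h, u, hu⟩ := hstep w.reverse (by omega)
      have hc := hadj _ _ h
      obtain ⟨l, hl1, hl2⟩ := h.2
      refine ⟨c, l, fun _ => ⟨?_, hl1, hl2, hc.symm⟩⟩
      have h1 : H.dist (root b) c ≤ u.length := by
        rw [SimpleGraph.dist_comm]
        exact SimpleGraph.dist_le u
      have h2 : d c = H.dist (root b) c := by
        show H.dist (root c) c = _
        rw [← hc]
      omega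
    · exact ⟨b, b, fun h => absurd h hd⟩
  choose p l hpl using hpar
  refine ⟨d, p, l, root, ?_, fun b hb => hpl b hb, ?_, ?_⟩
  · intro b
    obtain ⟨w, hw⟩ := (hreach b).exists_walk_length_eq_dist
    have hp := w.isPath_of_length_eq_dist hw
    have := hp.length_lt
    show H.dist (root b) b < _
    omega
  · intro b hb
    exact ((hreach b).dist_eq_zero_iff).1 hb
  · intro k b b' hb hb'
    by_cases h : b = b'
    · rw [h]
    · exact hadj b b' ⟨h, k, hb, hb'⟩

end H11.Cake
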