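import Pool.Agent.H11.Cake.Basic

/-!
# Windows   (JOB PC-COVER)

`cover`.  PROOF.  Claim, for `A₀, B` nonnegative and the finset `U` of unsatisfied agents
(`k ∈ U ↔ A₀.sum k < t k`), `U` nonempty, `t k ≤ A₀.sum k + B.sum k` for all `k`: from `A₀ + B` one
can force the conclusion in `U.card` splits.  Strong induction on `U.card`.  Take `i ∈ U`; by
`takePart i (t i - A₀.sum i)` for `B` (`0 ≤ ..`, `≤ B.sum i`; frame `A₀`): `B = A' + B'` with
`A'.sum i = t i - A₀.sum i`.  New `A₁ = A₀ + A'`: `A₁.sum i = t i` and `t i > A₀.sum i ≥ 0`.  If all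
agents are satisfied by `A₁` we are done with this `i`.  Otherwise the new unsatisfied set is a
nonempty proper subset of `U` (`A₁.sum k ≥ A₀.sum k`), induction.  (`Force.bind_inv`: the sum of the
position is preserved: `A'.sum + B'.sum = B.sum`.)
Start: `A₀ = 0`; `U = {k | 0 < t k}` is nonempty by `hpos`.  `U.card ≤ card G`.

`under`.  PROOF.  Claim by induction on a finset `S` of agents: in `S.card` splits one can force
`A, B` with `M' = A + B`, `A.sum k ≤ y k` for `k ∈ S`, and (`B = 0` or `A.sum i = y i` for some `i`).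
Step for `insert j S`: from `A + B`; if `A.sum j ≤ y j` nothing to do; otherwise
`takePart j (y j)` for `A` (frame `B`): `A = A₁ + A₂`, `A₁.sum j = y j`; new `A₁` and
`B' = B + A₂`.
-/

namespace H11.Cake

open H85.Cake

variable {G : Type}

private theorem cover_aux [Fintype G] (t : G → ℝ) (n : ℕ) : ∀ (A₀ B : Multiset (G → ℝ)),
    NN A₀ → NN B → (Finset.univ.filter (fun k => A₀.sum k < t k)).card ≤ n →
    (∃ k, A₀.sum k < t k) → (∀ k, t k ≤ A₀.sum k + B.sum k) →
    Force (fun M' => ∃ A B : Multiset (G → ℝ), M' = A + B ∧ (∀ k, t k ≤ A.sum k) ∧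
      ∃ i, 0 < t i ∧ A.sum i = t i) n (A₀ + B) := by
  classical
  induction n with
  | zero =>
    rintro A₀ B - - hc ⟨k, hk⟩ -
    exfalso
    have h0 := Finset.card_eq_zero.1 (Nat.le_zero.1 hc)
    have h1 : k ∈ Finset.univ.filter (fun k => A₀.sum k < t k) :=
      Finset.mem_filter.2 ⟨Finset.mem_univ k, hk⟩
    rw [h0] at h1
    exact absurd h1 (Finset.notMem_empty k)
  | succ n ih =>
    rintro A₀ B hA hB hc ⟨i, hi⟩ ht
    have h1 := ((takePart i (t i - A₀.sum i) hB (by linarith) (by have := ht i; linarith)).inv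
      hB).frame A₀
    have h2 := h1.bind (Q := fun M' => ∃ A B : Multiset (G → ℝ), M' = A + B ∧
      (∀ k, t k ≤ A.sum k) ∧ ∃ i, 0 < t i ∧ A.sum i = t i) (N' := n) (by
        rintro M' ⟨M₁, ⟨⟨A', B', rfl, hA'⟩, hnn, hs⟩, rfl⟩
        obtain ⟨hnA', hnB'⟩ := nn_add.1 hnn
        have hsk : ∀ k, A'.sum k + B'.sum k = B.sum k := by
          intro k
          rw [← sum_add_apply, hs]
        have e : A' + B' + A₀ = (A₀ + A') + B' := by
          rw [add_comm (A' + B'), add_assoc]
        rw [e]
        have hi1 : (A₀ + A').sum i = t i := by rw [sum_add_apply, hA']; ring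
        by_cases hall : ∀ k, t k ≤ (A₀ + A').sum k
        · refine Force.done ⟨A₀ + A', B', rfl, hall, i, ?_, hi1⟩
          exact lt_of_le_of_lt (nonneg hA i) hi
        · push Not at hall
          refine ih (A₀ + A') B' (nn_add.2 ⟨hA, hnA'⟩) hnB' ?_ hall ?_
          · have hss : Finset.univ.filter (fun k => (A₀ + A').sum k < t k) ⊂
                Finset.univ.filter (fun k => A₀.sum k < t k) := by
              rw [Finset.ssubset_iff_of_subset]
              · refine ⟨i, Finset.mem_filter.2 ⟨Finset.mem_univ i, hi⟩, fun h => ?_⟩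
                have := (Finset.mem_filter.1 h).2
                rw [hi1] at this
                exact lt_irrefl _ this
              · intro k hk
                refine Finset.mem_filter.2 ⟨Finset.mem_univ k, ?_⟩
                have h3 := (Finset.mem_filter.1 hk).2
                rw [sum_add_apply] at h3
                have h4 := nonneg hnA' k
                linarith
            have := Finset.card_lt_card hss
            omega
          · intro k
            rw [sum_add_apply]
            have h5 := ht k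
            have h6 := hsk k
            linarith)
    rw [add_comm A₀ B]
    exact h2.mono (by omega) (fun _ h => h)

theorem cover [Fintype G] (t : G → ℝ) {M : Multiset (G → ℝ)} (hM : NN M)
    (ht : ∀ k, t k ≤ M.sum k) (hpos : ∃ k, 0 < t k) :
    Force (fun M' => ∃ A B : Multiset (G → ℝ), M' = A + B ∧ (∀ k, t k ≤ A.sum k) ∧
      ∃ i, 0 < t i ∧ A.sum i = t i) (Fintype.card G) M := by
  have h := cover_aux t (Fintype.card G) 0 M (fun v hv => absurd hv (Multiset.notMem_zero v)) hM
    ((Finset.card_filter_le _ _).trans (le_of_eq Finset.card_univ))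
    (by simpa using hpos) (by simpa using ht)
  rwa [zero_add] at h

private theorem under_aux [Fintype G] (y : G → ℝ) {M : Multiset (G → ℝ)} (hM : NN M)
    (hy : ∀ k, 0 ≤ y k) (S : Finset G) :
    Force (fun M' => ∃ A B : Multiset (G → ℝ), M' = A + B ∧ (∀ k ∈ S, A.sum k ≤ y k) ∧
      (B = 0 ∨ ∃ i, A.sum i = y i)) S.card M := by
  classical
  induction S using Finset.induction_on with
  | empty =>
    exact Force.done ⟨M, 0, (add_zero M).symm, fun k hk => absurd hk (Finset.notMem_empty k),
      Or.inl rfl⟩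
  | insert j S hj ih =>
    rw [Finset.card_insert_of_notMem hj]
    refine ih.bind_inv hM ?_
    rintro M' ⟨A, B, rfl, hA, hB⟩ hnn -
    obtain ⟨hnA, hnB⟩ := nn_add.1 hnn
    by_cases hjA : A.sum j ≤ y j
    · refine Force.done ⟨A, B, rfl, ?_, hB⟩
      intro k hk
      rcases Finset.mem_insert.1 hk with rfl | hk
      · exact hjA
      · exact hA k hk
    · push Not at hjA
      have h1 := ((takePart j (y j) hnA (hy j) hjA.le).inv hnA).frame B
      refine h1.mono le_rfl ?_
      rintro M' ⟨M₁, ⟨⟨A₁, A₂, rfl, hA₁⟩, hn1, hs⟩, rfl⟩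
      obtain ⟨hnA₁, hnA₂⟩ := nn_add.1 hn1
      refine ⟨A₁, A₂ + B, by rw [add_assoc], ?_, Or.inr ⟨j, hA₁⟩⟩
      intro k hk
      rcases Finset.mem_insert.1 hk with rfl | hk
      · exact hA₁.le
      · have h2 := hA k hk
        rw [← hs, sum_add_apply] at h2
        have h3 := nonneg hnA₂ k
        linarith

theorem under [Fintype G] (y : G → ℝ) {M : Multiset (G → ℝ)} (hM : NN M) (hy : ∀ k, 0 ≤ y k) :
    Force (fun M' => ∃ A B : Multiset (G → ℝ), M' = A + B ∧ (∀ k, A.sum k ≤ y k) ∧
      (B = 0 ∨ ∃ i, A.sum i = y i)) (Fintype.card G) M := by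
  have h := under_aux y hM hy Finset.univ
  rw [Finset.card_univ] at h
  exact h.mono le_rfl (fun M' ⟨A, B, h1, h2, h3⟩ => ⟨A, B, h1, fun k => h2 k (Finset.mem_univ k), h3⟩)

end H11.Cake
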