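import Pool.Agent.H11.Cake.Near

/-!
# Several near-exact shares   (JOB PC-SHARES)

PROOF.  `s = card ι`, `δ = 2^{-(L+s)}`.  Claim by induction on a finset `S ⊆ ι`: in
`S.card * nsCost n (L + s)` splits one can force `M' = ∑ i ∈ S, D i + R` with, for all `k`,
`|(D i).sum k - τ i * M.sum k| ≤ S.card * δ * M.sum k` for `i ∈ S` and
`|R.sum k - (1 - ∑ i ∈ S, τ i) * M.sum k| ≤ S.card * δ * M.sum k`.
Step: `ρ = 1 - ∑_{S} τ`.  If `τ i = 0` put `D i = 0` (no split).  Otherwise `ρ ≥ τ i > 0`; apply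
`nearShare (L + s) (τ i / ρ)` to `R` (frame: the rest; invariants `Force.bind_inv`: the sum of `R` is
preserved, everything nonnegative, so `R.sum k ≤ M.sum k`): `R = A + R'`,
`|A - (τ/ρ) R| ≤ δ R ≤ δ M`.  Then `|A - τ M| ≤ δ M + (τ/ρ) |R - ρ M| ≤ (S.card + 1) δ M` and
`R' - (ρ - τ) M = (1 - τ/ρ)(R - ρ M) - (A - (τ/ρ) R)`, so the same bound for `R'`.
At the end `S = univ`: `s * δ ≤ 2^s / 2^(L+s) = 1 / 2^L`.  (`W = R`.)
-/

namespace H11.Cake

open H85.Cake

variable {G : Type}

theorem shares_num (τ ρ R M A R' c δ : ℝ) (hτ : 0 < τ) (hτρ : τ ≤ ρ) (hR : A + R' = R)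
    (h1 : |R - ρ * M| ≤ c * (M * δ)) (h2 : |A - τ / ρ * R| ≤ R * δ) (hδ : 0 ≤ δ)
    (hRM : R ≤ M) :
    |A - τ * M| ≤ (c + 1) * (M * δ) ∧ |R' - (ρ - τ) * M| ≤ (c + 1) * (M * δ) := by
  have hρ : 0 < ρ := lt_of_lt_of_le hτ hτρ
  have hq0 : 0 ≤ τ / ρ := by positivity
  have hq1 : τ / ρ ≤ 1 := by rw [div_le_one hρ]; exact hτρ
  have hRδ : R * δ ≤ M * δ := mul_le_mul_of_nonneg_right hRM hδ
  have hq : τ / ρ * ρ = τ := by field_simp
  have e1 : A - τ * M = (A - τ / ρ * R) + τ / ρ * (R - ρ * M) := by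
    have : τ / ρ * (R - ρ * M) = τ / ρ * R - (τ / ρ * ρ) * M := by ring
    rw [this, hq]; ring
  have e2 : R' - (ρ - τ) * M = (1 - τ / ρ) * (R - ρ * M) - (A - τ / ρ * R) := by
    have : (1 - τ / ρ) * (R - ρ * M) = R - ρ * M - τ / ρ * R + (τ / ρ * ρ) * M := by ring
    rw [this, hq, ← hR]; ring
  have h3 : |τ / ρ * (R - ρ * M)| ≤ c * (M * δ) := by
    rw [abs_mul, abs_of_nonneg hq0]
    exact (mul_le_of_le_one_left (abs_nonneg _) hq1).trans h1
  have h4 : |(1 - τ / ρ) * (R - ρ * M)| ≤ c * (M * δ) := by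
    rw [abs_mul, abs_of_nonneg (by linarith)]
    exact (mul_le_of_le_one_left (abs_nonneg _) (by linarith)).trans h1
  constructor
  · rw [e1]
    refine (abs_add_le _ _).trans ?_
    linarith
  · rw [e2]
    refine (abs_sub _ _).trans ?_
    linarith

theorem shares_aux [Fintype G] {ι : Type} [Fintype ι] [DecidableEq ι] (L : ℕ) (τ : ι → ℝ)
    (h0 : ∀ i, 0 ≤ τ i) (h1 : ∑ i, τ i ≤ 1) {M : Multiset (G → ℝ)} (hM : NN M) (S : Finset ι) :
    Force (fun M' => ∃ (D : ι → Multiset (G → ℝ)) (R : Multiset (G → ℝ)), M' = ∑ i ∈ S, D i + R ∧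
      (∀ i ∈ S, ∀ k, |(D i).sum k - τ i * M.sum k| ≤ S.card * (M.sum k * (1 / 2 ^ L))) ∧
      ∀ k, |R.sum k - (1 - ∑ i ∈ S, τ i) * M.sum k| ≤ S.card * (M.sum k * (1 / 2 ^ L)))
      (S.card * nsCost (Fintype.card G) L) M := by
  induction S using Finset.induction_on with
  | empty =>
    refine .done ⟨fun _ => 0, M, by simp, by simp, fun k => ?_⟩
    simp
  | insert j S hj ih =>
    have hcard : (insert j S).card = S.card + 1 := Finset.card_insert_of_notMem hj
    rw [hcard, Nat.add_mul, Nat.one_mul]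
    refine ih.bind_inv hM ?_
    rintro M' ⟨D, R, rfl, hD, hR⟩ hN hsum
    have hNN := nn_add.1 hN
    have hδ : (0 : ℝ) ≤ 1 / 2 ^ L := by positivity
    have hMk : ∀ k, 0 ≤ M.sum k := nonneg hM
    have hmono : ∀ k, (S.card : ℝ) * (M.sum k * (1 / 2 ^ L)) ≤
        ((S.card + 1 : ℕ) : ℝ) * (M.sum k * (1 / 2 ^ L)) := by
      intro k
      refine mul_le_mul_of_nonneg_right ?_ (mul_nonneg (hMk k) hδ)
      push_cast
      linarith
    have hRM : ∀ k, R.sum k ≤ M.sum k := by
      intro k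
      rw [← hsum, sum_add_apply]
      have := nonneg hNN.1 k
      linarith
    rcases (h0 j).eq_or_lt with hz | hpos
    · refine .done ⟨Function.update D j 0, R, ?_, ?_, ?_⟩
      · rw [Finset.sum_insert hj, Function.update_self, zero_add]
        congr 1
        refine Finset.sum_congr rfl (fun i hi => ?_)
        exact (Function.update_of_ne (fun h : i = j => hj (h ▸ hi)) _ _).symm
      · intro i hi k
        rw [Finset.mem_insert] at hi
        by_cases hij : i = j
        · subst hij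
          rw [Function.update_self, ← hz]
          simp only [Multiset.sum_zero, Pi.zero_apply, zero_mul, sub_zero, abs_zero]
          exact mul_nonneg (Nat.cast_nonneg _) (mul_nonneg (hMk k) hδ)
        · rw [Function.update_of_ne hij]
          exact (hD i (hi.resolve_left hij) k).trans (hmono k)
      · intro k
        rw [Finset.sum_insert hj, ← hz, zero_add]
        exact (hR k).trans (hmono k)
    · have hins : ∑ i ∈ insert j S, τ i ≤ 1 :=
        (Finset.sum_le_sum_of_subset_of_nonneg (Finset.subset_univ _)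
          (fun i _ _ => h0 i)).trans h1
      rw [Finset.sum_insert hj] at hins
      have hτρ : τ j ≤ 1 - ∑ i ∈ S, τ i := by linarith
      have hρ : 0 < 1 - ∑ i ∈ S, τ i := lt_of_lt_of_le hpos hτρ
      rw [add_comm (∑ i ∈ S, D i) R]
      have hfr := (nearShare L (τ j / (1 - ∑ i ∈ S, τ i)) (by positivity)
        (by rw [div_le_one hρ]; exact hτρ) hNN.2).inv hNN.2
      refine (hfr.frame (∑ i ∈ S, D i)).mono le_rfl ?_
      rintro M' ⟨M₁, ⟨⟨A, B, rfl, hAB⟩, -, hs⟩, rfl⟩
      have hABs : ∀ k, A.sum k + B.sum k = R.sum k := by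
        intro k
        rw [← sum_add_apply, hs]
      have hkey := fun k => shares_num (τ j) (1 - ∑ i ∈ S, τ i) (R.sum k) (M.sum k) (A.sum k)
        (B.sum k) S.card (1 / 2 ^ L) hpos hτρ (hABs k) (hR k)
        ((hAB k).trans (by rw [div_eq_mul_one_div])) hδ (hRM k)
      refine ⟨Function.update D j A, B, ?_, ?_, ?_⟩
      · rw [Finset.sum_insert hj, Function.update_self]
        have e : ∑ i ∈ S, Function.update D j A i = ∑ i ∈ S, D i := by
          refine Finset.sum_congr rfl (fun i hi => ?_)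
          exact Function.update_of_ne (fun h : i = j => hj (h ▸ hi)) _ _
        rw [e]
        abel
      · intro i hi k
        rw [Finset.mem_insert] at hi
        by_cases hij : i = j
        · subst hij
          rw [Function.update_self]
          have := (hkey k).1
          push_cast
          exact this
        · rw [Function.update_of_ne hij]
          exact (hD i (hi.resolve_left hij) k).trans (hmono k)
      · intro k
        have := (hkey k).2
        rw [Finset.sum_insert hj]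
        push_cast
        have e : (1 - (τ j + ∑ i ∈ S, τ i)) = (1 - ∑ i ∈ S, τ i) - τ j := by ring
        rw [e]
        exact this

theorem shares [Fintype G] {ι : Type} [Fintype ι] (L : ℕ) (τ : ι → ℝ) (h0 : ∀ i, 0 ≤ τ i)
    (h1 : ∑ i, τ i ≤ 1) {M : Multiset (G → ℝ)} (hM : NN M) :
    Force (fun M' => ∃ (D : ι → Multiset (G → ℝ)) (W : Multiset (G → ℝ)), M' = ∑ i, D i + W ∧
      (∀ i k, |(D i).sum k - τ i * M.sum k| ≤ M.sum k / 2 ^ L) ∧
      ∀ k, |W.sum k - (1 - ∑ i, τ i) * M.sum k| ≤ M.sum k / 2 ^ L)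
      (shCost (Fintype.card G) (Fintype.card ι) L) M := by
  classical
  have h := shares_aux (L + Fintype.card ι) τ h0 h1 hM Finset.univ
  refine h.mono (by rw [Finset.card_univ]; rfl) ?_
  rintro M' ⟨D, W, hM', hD, hW⟩
  have hb : ∀ k, ((Finset.univ : Finset ι).card : ℝ) *
      (M.sum k * (1 / 2 ^ (L + Fintype.card ι))) ≤ M.sum k / 2 ^ L := by
    intro k
    rw [Finset.card_univ, pow_add]
    have h2 := le_two_pow (Fintype.card ι)
    have h3 : (0 : ℝ) < 2 ^ Fintype.card ι := by positivity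
    have h4 : (0 : ℝ) < 2 ^ L := by positivity
    have h5 := nonneg hM k
    have e : (Fintype.card ι : ℝ) * (M.sum k * (1 / (2 ^ L * 2 ^ Fintype.card ι))) =
        (M.sum k / 2 ^ L) * ((Fintype.card ι : ℝ) / 2 ^ Fintype.card ι) := by
      field_simp
    rw [e]
    refine mul_le_of_le_one_right (by positivity) ?_
    rw [div_le_one h3]
    exact h2
  exact ⟨D, W, hM', fun i k => (hD i (Finset.mem_univ i) k).trans (hb k),
    fun k => (hW k).trans (hb k)⟩

end H11.Cake
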