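import Pool.Agent.H11.Cake.Offline
import Pool.Agent.H11.Cake.Cover
import Pool.Agent.H11.Cake.Shares

/-!
# Second half of a level: an edge disappears   (JOB PC-LEVEL2)

`n = card G`.  `Δ k` = the largest `|a b k - a b' k|` with `E k b`, `E k b'` (finite maximum; it is
attained; `Δ k ≥ 0`, every agent is adjacent to something by `hpm`).
PROOF.  `t k = 2^(2n+2) * Δ k ≤ M.sum k` by `hnear`; `0 < t k` for the agent of `hne`.  `cover`:
position `Y + W₁`, `t k ≤ Y.sum k`, `Y.sum i = t i > 0`.  `offline` with `y k = Y.sum k`: `α, τ, E'`.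
Write `θ = th n α`, `θ' = th n (α+1) = (eps n / 16) θ`, `e = 2^{-prec2 n}`; `e ≤ θ'`
(`prec2 n ≥ 3n+5+(3n+12)(α+1)` as `α ≤ n^2`).  Even `16 * e ≤ θ'`.  `shares` of `Y` with `ι = Option G`
(`card = n + 1`), `L = prec2 n`, shares `τ b` for `some b` (part `y b`), `θ / 2` for `none` (part `Z`),
rest `W₂`; the sum of the shares is `≤ 1/4 + 1/2`.  `W = W₁ + W₂`.
`Pol E' (a + y) Z.sum (eps n)`:
* `pm`: `offline`.
* `near`: `E' k b`, `E' k b'`: `|..| ≤ (θ' + 2 e) Y.sum k ≤ 2 θ' Y.sum k` and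
  `Z.sum k ≥ (θ/2 - e) Y.sum k`, `eps n * (θ/2 - e) ≥ 8 θ' - e ≥ 2 θ'`.
* `far`: if `¬ E k b`: `a b k + (y b).sum k + Z.sum k ≤ a b k + M.sum k ≤ a b' k` (`hfar`, `y b + Z` is a
  part of the position with sum `M.sum`).  If `E k b`, `¬ E' k b`, `E' k b'`:
  `(a b' + y b') - (a b + y b) ≥ (θ - θ' - 2 e) Y.sum k ≥ (θ/2 + e) Y.sum k ≥ Z.sum k`.
-/

namespace H11.Cake

open H85.Cake

variable {G : Type}

theorem level2 [Fintype G] [DecidableEq G] {E : G → G → Prop} {a : G → G → ℝ}
    {M : Multiset (G → ℝ)} (hM : NN M) {d : G → ℕ} {p l root : G → G}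
    (hF : IsForest E d p l root) (hpm : ∃ σ : Equiv.Perm G, ∀ k, E k (σ k))
    (hfar : ∀ k b b', ¬ E k b → E k b' → a b k + M.sum k ≤ a b' k)
    (hnear : ∀ k b b', E k b → E k b' →
      |a b k - a b' k| ≤ M.sum k / 2 ^ (2 * Fintype.card G + 2))
    (htie : ∀ b, 0 < d b → a b (l b) = a (p b) (l b))
    (hne : ∃ k b b', E k b ∧ E k b' ∧ a b k ≠ a b' k) :
    Force (fun M' => ∃ (y : G → Multiset (G → ℝ)) (Z W : Multiset (G → ℝ)) (E' : G → G → Prop),
      M' = ∑ b, y b + Z + W ∧ (∀ k b, E' k b → E k b) ∧ (∃ k b, E k b ∧ ¬ E' k b) ∧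
      Pol E' (fun b k => a b k + (y b).sum k) (fun k => Z.sum k) (eps (Fintype.card G)))
      (level2Cost (Fintype.card G)) M := by
  classical
  set n := Fintype.card G with hn
  have hpm0 := hpm
  obtain ⟨σ, hσ⟩ := hpm
  have hDex : ∀ k, ∃ Δ : ℝ, 0 ≤ Δ ∧ (∀ b b', E k b → E k b' → |a b k - a b' k| ≤ Δ) ∧
      ∃ b b', E k b ∧ E k b' ∧ |a b k - a b' k| = Δ := by
    intro k
    let S : Finset (G × G) := Finset.univ.filter (fun x => E k x.1 ∧ E k x.2)
    have hS : S.Nonempty := ⟨(σ k, σ k), by simp [S, hσ k]⟩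
    obtain ⟨x, hx, hmax⟩ := S.exists_max_image (fun x => |a x.1 k - a x.2 k|) hS
    have hx' : E k x.1 ∧ E k x.2 := by simpa [S] using hx
    refine ⟨|a x.1 k - a x.2 k|, abs_nonneg _, ?_, x.1, x.2, hx'.1, hx'.2, rfl⟩
    intro b b' hb hb'
    exact hmax (b, b') (by simp [S, hb, hb'])
  choose Δ hΔ0 hΔ1 hΔ2 using hDex
  have hK : (0 : ℝ) < 2 ^ (2 * n + 2) := by positivity
  have ht : ∀ k, (2 : ℝ) ^ (2 * n + 2) * Δ k ≤ M.sum k := by
    intro k
    obtain ⟨b, b', hb, hb', he⟩ := hΔ2 k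
    have h1 := hnear k b b' hb hb'
    rw [he, le_div_iff₀ hK] at h1
    linarith
  have hpos : ∃ k, 0 < (2 : ℝ) ^ (2 * n + 2) * Δ k := by
    obtain ⟨k, b, b', hb, hb', hnn⟩ := hne
    refine ⟨k, mul_pos hK ?_⟩
    exact lt_of_lt_of_le (abs_pos.2 (sub_ne_zero.2 hnn)) (hΔ1 k b b' hb hb')
  unfold level2Cost
  refine (cover (fun k => (2 : ℝ) ^ (2 * n + 2) * Δ k) hM ht hpos).bind_inv hM ?_
  rintro M' ⟨Y, W₁, rfl, hYt, i, hi0, hi1⟩ hN hsum
  obtain ⟨hYN, hWN⟩ := nn_add.1 hN
  have hnear' : ∀ k b b', E k b → E k b' → |a b k - a b' k| ≤ Y.sum k / 2 ^ (2 * n + 2) := by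
    intro k b b' hb hb'
    rw [le_div_iff₀ hK]
    have h1 := hΔ1 k b b' hb hb'
    have h2 := hYt k
    nlinarith
  have hstar : ∃ i b b', E i b ∧ E i b' ∧ 0 < Y.sum i ∧
      |a b i - a b' i| = Y.sum i / 2 ^ (2 * n + 2) := by
    obtain ⟨b, b', hb, hb', he⟩ := hΔ2 i
    refine ⟨i, b, b', hb, hb', by rw [hi1]; exact hi0, ?_⟩
    rw [he, eq_div_iff hK.ne', hi1]
    ring
  obtain ⟨α, τ, E', hα, hτ0, hτ1, hsub, hlost, hpm', hnear2, hfar2⟩ :=
    offline (y := fun k => Y.sum k) hF (fun k => nonneg hYN k) hpm0 hnear' htie hstar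
  have hθ := th_pos n α
  have hθ' := th_pos n (α + 1)
  have hsucc := th_succ n α
  have heps := eps_pos n
  have heps' := eps_le n
  have hθle : th n α ≤ 1 / 32 := by
    refine (th_anti n (Nat.zero_le α)).trans ?_
    unfold th
    apply one_div_le_one_div_of_le (by norm_num)
    calc (32 : ℝ) = 2 ^ 5 := by norm_num
      _ ≤ 2 ^ (3 * n + 5 + (3 * n + 12) * 0) := pow_le_pow_right₀ (by norm_num) (by omega)
  have he0 : (0 : ℝ) < 1 / 2 ^ prec2 n := by positivity
  have he1 : 16 * (1 / 2 ^ prec2 n : ℝ) ≤ th n (α + 1) := by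
    unfold th
    have h1 : 3 * n + 5 + (3 * n + 12) * (α + 1) + 4 ≤ prec2 n := by
      unfold prec2
      have h2 : (3 * n + 12) * (α + 1) ≤ (3 * n + 12) * (n ^ 2 + 1) :=
        Nat.mul_le_mul_left _ (Nat.succ_le_succ hα)
      have h3 : (3 * n + 12) * (n ^ 2 + 3) = (3 * n + 12) * (n ^ 2 + 1) + 2 * (3 * n + 12) := by
        ring
      omega
    have h4 : (2 : ℝ) ^ (3 * n + 5 + (3 * n + 12) * (α + 1) + 4) ≤ 2 ^ prec2 n :=
      pow_le_pow_right₀ (by norm_num) h1
    rw [pow_add _ _ 4] at h4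
    have h5 : (0 : ℝ) < 2 ^ (3 * n + 5 + (3 * n + 12) * (α + 1)) := by positivity
    rw [mul_one_div, div_le_div_iff₀ (by positivity) h5]
    linarith
  set e : ℝ := 1 / 2 ^ prec2 n with he
  set sh : Option G → ℝ := fun o => o.elim (th n α / 2) τ with hsh
  have hsh0 : ∀ o, 0 ≤ sh o := by
    intro o
    cases o with
    | none => simp only [hsh, Option.elim_none]; linarith
    | some b => simpa [hsh] using hτ0 b
  have hsh1 : ∑ o, sh o ≤ 1 := by
    rw [Fintype.sum_option]
    have h1 : ∑ b, sh (some b) = ∑ b, τ b := rfl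
    have h2 : sh none = th n α / 2 := rfl
    rw [h1, h2]
    linarith
  have hcost : shCost n (n + 1) (prec2 n) = shCost (Fintype.card G) (Fintype.card (Option G))
      (prec2 n) := by
    rw [Fintype.card_option, ← hn]
  rw [hcost]
  refine ((shares (prec2 n) sh hsh0 hsh1 hYN).frame W₁).mono_inv hN le_rfl ?_
  rintro M'' ⟨M₁, ⟨D, W₂, rfl, hD, -⟩, rfl⟩ hN2 hsum2
  have hN3 : NN (∑ o, D o) := (nn_add.1 (nn_add.1 hN2).1).1
  have hND : ∀ o, NN (D o) := fun o => nn_sum hN3 o
  have hW2 : NN W₂ := (nn_add.1 (nn_add.1 hN2).1).2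
  have hbd : ∀ o k, |(D o).sum k - sh o * Y.sum k| ≤ e * Y.sum k := by
    intro o k
    have h1 := hD o k
    rw [he]
    calc _ ≤ _ := h1
      _ = _ := by ring
  have hY0 : ∀ k, 0 ≤ Y.sum k := fun k => nonneg hYN k
  refine ⟨fun b => D (some b), D none, W₂ + W₁, E', ?_, hsub, hlost, ?_⟩
  · rw [Fintype.sum_option]
    abel
  · refine ⟨hpm', ?_, ?_⟩
    · intro k b b' hb hb'
      have h1 := abs_le.1 (hbd (some b) k)
      have h2 := abs_le.1 (hbd (some b') k)
      have h3 := abs_le.1 (hbd none k)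
      have hs1 : sh (some b) = τ b := rfl
      have hs2 : sh (some b') = τ b' := rfl
      have hs3 : sh none = th n α / 2 := rfl
      rw [hs1] at h1
      rw [hs2] at h2
      rw [hs3] at h3
      by_cases hE : E k b
      · have h4 := hfar2 k b b' hE hb hb'
        have h5 : (3 * e + th n (α + 1) - th n α / 2) * Y.sum k ≤ 0 := by
          apply mul_nonpos_of_nonpos_of_nonneg _ (hY0 k)
          nlinarith
        show a b k + (D (some b)).sum k + (D none).sum k ≤ a b' k + (D (some b')).sum k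
        nlinarith
      · have h4 := hfar k b b' hE (hsub k b' hb')
        have h5 : (D (some b)).sum k + (D none).sum k ≤ M.sum k := by
          have h6 : (∑ o, D o + W₂ + W₁).sum k = M.sum k := by
            rw [hsum2, hsum]
          rw [sum_add_apply, sum_add_apply, sum_sum_apply, Fintype.sum_option] at h6
          have h7 : (D (some b)).sum k ≤ ∑ b, (D (some b)).sum k :=
            Finset.single_le_sum (f := fun b => (D (some b)).sum k)
              (fun j _ => nonneg (hND (some j)) k) (Finset.mem_univ b)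
          have h8 := nonneg hW2 k
          have h9 := nonneg hWN k
          linarith
        have h6 := nonneg (hND (some b')) k
        show a b k + (D (some b)).sum k + (D none).sum k ≤ a b' k + (D (some b')).sum k
        linarith
    · intro k b b' hb hb'
      have h1 := abs_le.1 (hbd (some b) k)
      have h2 := abs_le.1 (hbd (some b') k)
      have h3 := abs_le.1 (hbd none k)
      have hs1 : sh (some b) = τ b := rfl
      have hs2 : sh (some b') = τ b' := rfl
      have hs3 : sh none = th n α / 2 := rfl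
      rw [hs1] at h1
      rw [hs2] at h2
      rw [hs3] at h3
      have h4 := abs_le.1 (hnear2 k b b' hb hb')
      have h5 : (th n (α + 1) + 2 * e) * Y.sum k ≤ eps n * (D none).sum k := by
        have h6 : eps n * ((th n α / 2 - e) * Y.sum k) ≤ eps n * (D none).sum k := by
          apply mul_le_mul_of_nonneg_left _ heps.le
          nlinarith
        have h7 : (th n (α + 1) + 2 * e) ≤ eps n * (th n α / 2 - e) := by
          nlinarith
        have h8 := mul_le_mul_of_nonneg_right h7 (hY0 k)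
        linarith
      show |(a b k + (D (some b)).sum k) - (a b' k + (D (some b')).sum k)| ≤
        eps n * (D none).sum k
      rw [abs_le]
      constructor <;> nlinarith

end H11.Cake
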