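import Pool.Agent.H11.Cake.Level1
import Pool.Agent.H11.Cake.Level2
import Pool.Agent.H11.Cake.Forest

/-!
# The polishing theorem   (JOB PC-POLISH)

`polish_aux`: induction on `m`, for all `E a M` with at most `m` edges, cost
`m * (level1Cost n + level2Cost n)`.  `m = 0`: impossible (`h.pm` gives an edge, `G` is nonempty).
Step: `exists_forest E`, `level1`: position `∑ y₁ b + Z₁ + W₁`; put `a₁ b k = a b k + (y₁ b).sum k`.
If `a₁ b k = a₁ b' k` for all `E k b`, `E k b'` we are done: `y = y₁`, `R = Z₁ + W₁`, `μ = σ` from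
`h.pm`: for `E k b` equality, for `¬ E k b` the first property of `level1`
(`Z₁.sum k ≥ 0` by the invariants, `Force.bind_inv`).
Otherwise `level2` for `M := Z₁`, `a := a₁` (frame `∑ y₁ b + W₁`), then the induction hypothesis
(`E'` has fewer edges) for `M := Z₂`, `a := a₁ + y₂` (frame: the rest).  At the end
`y b = y₁ b + y₂ b + y₃ b`, `R = R₃ + W₂ + W₁`, `E' k (μ k) → E k (μ k)`.
`polish`: `m = n^2` (`#edges ≤ card (G × G)`).

`polishX`: `polish` for `a b k = (x b).sum k`, `M := Z` (frame `∑ x b + W`), then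
`x' k = x (μ k) + y (μ k)`, `R' = R + W` (reindex `∑ b, (x b + y b)` by `μ`); `(y b).sum k ≤ Z.sum k` and
`R.sum k ≤ Z.sum k` by the invariants.

`coreOut_of`: from `polishX` with `l0 = μ⁻¹ j`: `μ k0 ≠ j` since `E k0 (μ k0)`, so `k0 ≠ l0`;
`(x' k0).sum k0 ≥ (x (μ k0)).sum k0`, `(x' l0).sum k0 ≤ (x j).sum k0 + Z.sum k0`.
-/

namespace H11.Cake

open H85.Cake

variable {G : Type}

/-- the result of the polishing procedure -/
def PolPost [Fintype G] (E : G → G → Prop) (a : G → G → ℝ) (M' : Multiset (G → ℝ)) : Prop :=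
  ∃ (y : G → Multiset (G → ℝ)) (R : Multiset (G → ℝ)) (μ : Equiv.Perm G),
      M' = ∑ b, y b + R ∧ (∀ k, E k (μ k)) ∧
      ∀ k b, a b k + (y b).sum k ≤ a (μ k) k + (y (μ k)).sum k

open Classical in
theorem polish_aux [Fintype G] [DecidableEq G] [Nonempty G] (m : ℕ) :
    ∀ (E : G → G → Prop) (a : G → G → ℝ) (M : Multiset (G → ℝ)), NN M →
      Pol E a (fun k => M.sum k) (eps (Fintype.card G)) →
      (Finset.univ.filter (fun q : G × G => E q.1 q.2)).card ≤ m →
      Force (PolPost E a) (m * (level1Cost (Fintype.card G) + level2Cost (Fintype.card G))) M := by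
  induction m with
  | zero =>
    intro E a M hM h hc
    obtain ⟨σ, hσ⟩ := h.pm
    obtain ⟨k⟩ := (inferInstance : Nonempty G)
    have h1 : (k, σ k) ∈ Finset.univ.filter (fun q : G × G => E q.1 q.2) := by
      simp [hσ k]
    have h2 := Finset.card_pos.mpr ⟨_, h1⟩
    omega
  | succ m ih =>
    intro E a M hM h hc
    obtain ⟨d, p, l, root, hF⟩ := exists_forest E
    have hl1 := level1 hM h hF
    have hcost : (m + 1) * (level1Cost (Fintype.card G) + level2Cost (Fintype.card G)) =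
        level1Cost (Fintype.card G) + (level2Cost (Fintype.card G) +
          m * (level1Cost (Fintype.card G) + level2Cost (Fintype.card G))) := by ring
    rw [hcost]
    refine hl1.bind_inv hM ?_
    rintro M' ⟨y₁, Z₁, W₁, rfl, hfar, hnear, htie⟩ hN _
    have hN1 := nn_add.1 hN
    have hN2 := nn_add.1 hN1.1
    have hZ₁ : NN Z₁ := hN2.2
    by_cases hne : ∃ k b b', E k b ∧ E k b' ∧ a b k + (y₁ b).sum k ≠ a b' k + (y₁ b').sum k
    · have hl2 := level2 (a := fun b k => a b k + (y₁ b).sum k) hZ₁ hF h.pm hfar hnear htie hne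
      have e1 : ∑ b, y₁ b + Z₁ + W₁ = Z₁ + (∑ b, y₁ b + W₁) := by
        rw [add_comm (∑ b, y₁ b) Z₁, add_assoc]
      rw [e1] at hN ⊢
      refine (hl2.frame (∑ b, y₁ b + W₁)).bind_inv hN ?_
      rintro M'' ⟨_, ⟨y₂, Z₂, W₂, E', rfl, hE', ⟨k0, b0, hk1, hk2⟩, hPol⟩, rfl⟩ hN' _
      have hZ₂ : NN Z₂ := (nn_add.1 (nn_add.1 (nn_add.1 hN').1).1).2
      have hlt : (Finset.univ.filter (fun q : G × G => E' q.1 q.2)).card ≤ m := by
        have h1 : (Finset.univ.filter (fun q : G × G => E' q.1 q.2)) ⊂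
            Finset.univ.filter (fun q : G × G => E q.1 q.2) := by
          rw [Finset.ssubset_iff_of_subset]
          · exact ⟨(k0, b0), by simp [hk1], by simp [hk2]⟩
          · intro q hq
            simp only [Finset.mem_filter, Finset.mem_univ, true_and] at hq ⊢
            exact hE' _ _ hq
        have h2 := Finset.card_lt_card h1
        omega
      have h3 := ih E' (fun b k => a b k + (y₁ b).sum k + (y₂ b).sum k) Z₂ hZ₂ hPol hlt
      have e2 : ∑ b, y₂ b + Z₂ + W₂ + (∑ b, y₁ b + W₁) =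
          Z₂ + (∑ b, y₂ b + W₂ + (∑ b, y₁ b + W₁)) := by
        rw [add_comm (∑ b, y₂ b) Z₂, add_assoc, add_assoc, add_assoc]
      rw [e2]
      refine (h3.frame (∑ b, y₂ b + W₂ + (∑ b, y₁ b + W₁))).mono le_rfl ?_
      rintro _ ⟨_, ⟨y₃, R₃, μ, rfl, hμ, hle⟩, rfl⟩
      refine ⟨fun b => y₁ b + y₂ b + y₃ b, R₃ + W₂ + W₁, μ, ?_, fun k => hE' _ _ (hμ k), ?_⟩
      · rw [Finset.sum_add_distrib, Finset.sum_add_distrib]
        abel
      · intro k b
        have h4 := hle k b
        simp only [sum_add_apply]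
        linarith
    · push Not at hne
      obtain ⟨σ, hσ⟩ := h.pm
      refine .done ⟨y₁, Z₁ + W₁, σ, by rw [add_assoc], hσ, fun k b => ?_⟩
      by_cases hb : E k b
      · exact (hne k b (σ k) hb (hσ k)).le
      · have h1 := hfar k b (σ k) hb (hσ k)
        have h2 := nonneg hZ₁ k
        linarith

theorem polish [Fintype G] [DecidableEq G] [Nonempty G] {E : G → G → Prop} {a : G → G → ℝ}
    {M : Multiset (G → ℝ)} (hM : NN M)
    (h : Pol E a (fun k => M.sum k) (eps (Fintype.card G))) :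
    Force (fun M' => ∃ (y : G → Multiset (G → ℝ)) (R : Multiset (G → ℝ)) (μ : Equiv.Perm G),
      M' = ∑ b, y b + R ∧ (∀ k, E k (μ k)) ∧
      ∀ k b, a b k + (y b).sum k ≤ a (μ k) k + (y (μ k)).sum k)
      (polishCost (Fintype.card G)) M := by
  classical
  refine polish_aux (Fintype.card G ^ 2) E a M hM h ?_
  refine (Finset.card_filter_le _ _).trans ?_
  rw [Finset.card_univ, Fintype.card_prod, sq]

theorem polishX [Fintype G] [DecidableEq G] [Nonempty G] {E : G → G → Prop}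
    (x : G → Multiset (G → ℝ)) (Z W : Multiset (G → ℝ)) (hN : NN (∑ b, x b + Z + W))
    (h : Pol E (fun b k => (x b).sum k) (fun k => Z.sum k) (eps (Fintype.card G))) :
    Force (fun M' => ∃ (x' : G → Multiset (G → ℝ)) (R' : Multiset (G → ℝ)) (μ : Equiv.Perm G),
      M' = ∑ k, x' k + R' ∧ (∀ k l, (x' l).sum k ≤ (x' k).sum k) ∧ (∀ k, E k (μ k)) ∧
      (∀ k l, (x (μ l)).sum k ≤ (x' l).sum k ∧
        (x' l).sum k ≤ (x (μ l)).sum k + Z.sum k) ∧
      ∀ k, R'.sum k ≤ Z.sum k + W.sum k)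
      (polishCost (Fintype.card G)) (∑ b, x b + Z + W) := by
  obtain ⟨hN1, hNW⟩ := nn_add.1 hN
  obtain ⟨hNx, hNZ⟩ := nn_add.1 hN1
  have h1 := ((polish hNZ h).inv hNZ).frame (∑ b, x b + W)
  have h2 : Z + (∑ b, x b + W) = ∑ b, x b + Z + W := by abel
  rw [h2] at h1
  refine h1.mono le_rfl ?_
  rintro M' ⟨M₁, ⟨⟨y, R, μ, rfl, hμ, hy⟩, hNN, hsum⟩, rfl⟩
  obtain ⟨hNy, hNR⟩ := nn_add.1 hNN
  have hle : ∀ k, (∑ b, y b).sum k + R.sum k = Z.sum k := by
    intro k
    rw [← sum_add_apply, hsum]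
  refine ⟨fun k => x (μ k) + y (μ k), R + W, μ, ?_, ?_, hμ, ?_, ?_⟩
  · rw [Equiv.sum_comp μ (fun b => x b + y b), Finset.sum_add_distrib]
    abel
  · intro k l
    have h3 := hy k (μ l)
    simpa only [sum_add_apply] using h3
  · intro k l
    have h3 := nonneg (nn_sum hNy (μ l)) k
    have h4 := le_sum_apply hNy (μ l) k
    have h5 := nonneg hNR k
    have h6 := hle k
    simp only [sum_add_apply]
    constructor <;> linarith
  · intro k
    have h3 := nonneg hNy k
    have h6 := hle k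
    simp only [sum_add_apply]
    linarith

theorem coreOut_of [Fintype G] [DecidableEq G] [Nonempty G] {E : G → G → Prop}
    (x : G → Multiset (G → ℝ)) (Z W : Multiset (G → ℝ)) (hN : NN (∑ b, x b + Z + W))
    (h : Pol E (fun b k => (x b).sum k) (fun k => Z.sum k) (eps (Fintype.card G)))
    (k0 j : G) (hj : ¬ E k0 j)
    (hadv : ∀ b, E k0 b → (Z.sum k0 + W.sum k0) / 2 ^ coreQ (Fintype.card G) ≤
      (x b).sum k0 - (x j).sum k0 - Z.sum k0) :
    Force CoreOut (polishCost (Fintype.card G)) (∑ b, x b + Z + W) := by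
  refine (polishX x Z W hN h).mono le_rfl ?_
  rintro M' ⟨x', R', μ, hM', hef, hμ, hb, hR⟩
  refine ⟨x', R', k0, μ.symm j, hM', hef, ?_, ?_⟩
  · intro he
    apply hj
    have h1 := hμ k0
    rw [he] at h1 ⊢
    simpa using h1
  · have h1 := (hb k0 k0).1
    have h2 := (hb k0 (μ.symm j)).2
    rw [Equiv.apply_symm_apply] at h2
    have h3 := hadv (μ k0) (hμ k0)
    have h4 : R'.sum k0 / 2 ^ coreQ (Fintype.card G) ≤
        (Z.sum k0 + W.sum k0) / 2 ^ coreQ (Fintype.card G) :=
      div_le_div_of_nonneg_right (hR k0) (by positivity)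
    linarith

end H11.Cake
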