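import Pool.Agent.H25.Cake2.Iface
import Pool.Agent.H11.Cake.Polish

/-!
# The interfaces of `H25/Cake2/Iface.lean`   (JOB PC-ADAPT)

`fracsS`: this is `shares`.  `polishS`: `polish` (if `G` is empty: `Force.done` with `Y b = 0`,
`R = Z`, any permutation).  `|F b k - F b' k| ≤ ..` follows from the hypothesis for `(b, b')` and
`(b', b)`.

`shrinkS`.  PROOF.  (`G` empty: `Force.done`, `x = 0`, `R' = M`.)  `n = card G`.  `shares` of `M` with
`ι = Option G`, `L = t + 3 n + 20`: `some b`: share `(1 - ζ) / n` (part `P b`), `none`: share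
`ζ = 2^{-(t+2)}` (part `Z`), rest `W` (`W.sum k ≤ M.sum k / 2^L`, the shares sum to `1`).  `polishX` with
`E = all` (`fun _ _ => True`), `x = P`: `pm` trivial, `far` vacuous, `near`:
`|P b - P b'| ≤ 2 * 2^{-L} M.sum k ≤ eps n * (ζ - 2^{-L}) M.sum k ≤ eps n * Z.sum k`
(`eps n = 2^{-(3n+8)}`).  Residual `≤ Z.sum k + W.sum k ≤ (ζ + 2^{-L} + 2^{-L}) M.sum k ≤ M.sum k / 2^t`.
-/

namespace H11.Cake

open H85.Cake H25.Cake

theorem fracsS : FracsS (fun e s n => shCost n s e) := by
  intro G _ _ ι _ _ e x h0 h1 M hM
  exact shares e x h0 h1 hM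

theorem polishS : PolishS (fun n => 3 * n + 8) polishCost := by
  intro G _ _ E σ hσ F Z hZ hfar hnear
  rcases isEmpty_or_nonempty G with hG | hG
  · refine .done ⟨1, fun _ => 0, Z, by simp, fun k => isEmptyElim k, fun k => isEmptyElim k⟩
  · have hpol : Pol E F (fun k => Z.sum k) (eps (Fintype.card G)) :=
      { pm := ⟨σ, hσ⟩
        far := hfar
        near := by
          intro k b b' h1 h2
          have e1 : eps (Fintype.card G) * Z.sum k = Z.sum k / 2 ^ (3 * Fintype.card G + 8) := by
            unfold eps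
            ring
          rw [e1, abs_le]
          have h3 := hnear k b b' h1 h2
          have h4 := hnear k b' b h2 h1
          constructor <;> linarith }
    refine (polish hZ hpol).mono le_rfl ?_
    rintro M' ⟨y, R, μ, h1, h2, h3⟩
    exact ⟨μ, y, R, h1, h2, h3⟩

theorem shrinkS : ShrinkS (fun t n => shrinkPCost n t) := by
  intro G _ _ t M hM
  rcases isEmpty_or_nonempty G with hG | hG
  · refine .done ⟨fun _ => 0, M, by simp, fun k => isEmptyElim k, fun k => isEmptyElim k⟩
  · have hn : 0 < Fintype.card G := Fintype.card_pos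
    have hn' : (0 : ℝ) < Fintype.card G := by exact_mod_cast hn
    -- numbers
    set u : ℝ := 1 / 2 ^ t with hu
    set v : ℝ := 1 / 2 ^ (3 * Fintype.card G) with hv
    have hu0 : 0 < u := by rw [hu]; positivity
    have hu1 : u ≤ 1 := by
      rw [hu, div_le_one (by positivity)]
      exact one_le_pow₀ (by norm_num)
    have hv0 : 0 < v := by rw [hv]; positivity
    have hv1 : v ≤ 1 := by
      rw [hv, div_le_one (by positivity)]
      exact one_le_pow₀ (by norm_num)
    have hL : ∀ m : ℝ, m / 2 ^ (t + 3 * Fintype.card G + 20) = u * v / 2 ^ 20 * m := by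
      intro m
      rw [hu, hv, pow_add, pow_add]
      field_simp
    have heps : eps (Fintype.card G) = v / 2 ^ 8 := by
      unfold eps
      rw [hv, pow_add]
      field_simp
    set τ : Option G → ℝ := fun o => o.elim (u / 4) (fun _ => (1 - u / 4) / Fintype.card G) with hτ
    have hτ0 : ∀ o, 0 ≤ τ o := by
      intro o
      cases o with
      | none => show 0 ≤ u / 4; positivity
      | some b =>
        show 0 ≤ (1 - u / 4) / Fintype.card G
        exact div_nonneg (by linarith) hn'.le
    have hτ1 : ∑ o, τ o = 1 := by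
      rw [Fintype.sum_option]
      show u / 4 + ∑ _b : G, (1 - u / 4) / (Fintype.card G : ℝ) = 1
      rw [Finset.sum_const, Finset.card_univ, nsmul_eq_mul, mul_div_cancel₀ _ hn'.ne']
      ring
    have hsh := shares (t + 3 * Fintype.card G + 20) τ hτ0 hτ1.le hM
    rw [Fintype.card_option] at hsh
    refine hsh.bind_inv hM ?_
    rintro M' ⟨D, W, rfl, hD, hW⟩ hNN hsum
    rw [Fintype.sum_option, add_comm (D none)] at hNN ⊢
    have hNZ : NN (D none) := (nn_add.1 (nn_add.1 hNN).1).2
    have hNW : NN W := (nn_add.1 hNN).2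
    have hm : ∀ k, 0 ≤ M.sum k := nonneg hM
    have hZl : ∀ k, u / 8 * M.sum k ≤ (D none).sum k := by
      intro k
      have h1 := (abs_le.1 (hD none k)).1
      rw [hL] at h1
      have h2 : τ none = u / 4 := rfl
      rw [h2] at h1
      have h3 : u * v ≤ u := mul_le_of_le_one_right hu0.le hv1
      have h4 : u * v / 2 ^ 20 * M.sum k ≤ u / 8 * M.sum k := by
        refine mul_le_mul_of_nonneg_right ?_ (hm k)
        norm_num
        linarith
      linarith
    have hZu : ∀ k, (D none).sum k ≤ (u / 4 + u / 2 ^ 20) * M.sum k := by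
      intro k
      have h1 := (abs_le.1 (hD none k)).2
      rw [hL] at h1
      have h2 : τ none = u / 4 := rfl
      rw [h2] at h1
      have h3 : u * v ≤ u := mul_le_of_le_one_right hu0.le hv1
      have h4 : u * v / 2 ^ 20 * M.sum k ≤ u / 2 ^ 20 * M.sum k := by
        refine mul_le_mul_of_nonneg_right ?_ (hm k)
        exact div_le_div_of_nonneg_right h3 (by positivity)
      linarith
    have hWu : ∀ k, W.sum k ≤ u / 2 ^ 20 * M.sum k := by
      intro k
      have h1 := (abs_le.1 (hW k)).2
      rw [hL, hτ1] at h1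
      have h3 : u * v ≤ u := mul_le_of_le_one_right hu0.le hv1
      have h4 : u * v / 2 ^ 20 * M.sum k ≤ u / 2 ^ 20 * M.sum k := by
        refine mul_le_mul_of_nonneg_right ?_ (hm k)
        exact div_le_div_of_nonneg_right h3 (by positivity)
      linarith
    have hpol : Pol (fun _ _ => True) (fun b k => (D (some b)).sum k) (fun k => (D none).sum k)
        (eps (Fintype.card G)) :=
      { pm := ⟨1, fun _ => trivial⟩
        far := fun _ _ _ h _ => absurd trivial h
        near := by
          intro k b b' _ _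
          have h1 := abs_le.1 (hD (some b) k)
          have h2 := abs_le.1 (hD (some b') k)
          rw [hL] at h1 h2
          have h3 : τ (some b) = τ (some b') := rfl
          rw [h3] at h1
          have h4 : |(D (some b)).sum k - (D (some b')).sum k| ≤ 2 * (u * v / 2 ^ 20 * M.sum k) := by
            rw [abs_le]
            constructor <;> linarith [h1.1, h1.2, h2.1, h2.2]
          refine h4.trans ?_
          rw [heps]
          have h5 : v / 2 ^ 8 * (u / 8 * M.sum k) ≤ v / 2 ^ 8 * (D none).sum k :=
            mul_le_mul_of_nonneg_left (hZl k) (by positivity)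
          refine le_trans ?_ h5
          have h6 : 0 ≤ u * v * M.sum k := mul_nonneg (mul_nonneg hu0.le hv0.le) (hm k)
          have e1 : 2 * (u * v / 2 ^ 20 * M.sum k) = (u * v * M.sum k) * (2 / 2 ^ 20) := by ring
          have e2 : v / 2 ^ 8 * (u / 8 * M.sum k) = (u * v * M.sum k) * (1 / 2 ^ 11) := by ring
          rw [e1, e2]
          exact mul_le_mul_of_nonneg_left (by norm_num) h6 }
    refine (polishX (fun b => D (some b)) (D none) W hNN hpol).mono le_rfl ?_
    rintro M'' ⟨x', R', μ, h1, h2, -, -, h3⟩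
    refine ⟨x', R', h1, h2, fun k => ?_⟩
    have h4 := h3 k
    have h5 := hZu k
    have h6 := hWu k
    have e1 : M.sum k / 2 ^ t = u * M.sum k := by
      rw [hu]
      ring
    rw [e1]
    have h7 : 0 ≤ u * M.sum k := mul_nonneg hu0.le (hm k)
    have e2 : (u / 4 + u / 2 ^ 20) * M.sum k + u / 2 ^ 20 * M.sum k =
        (u * M.sum k) * (1 / 4 + 2 / 2 ^ 20) := by ring
    have h8 : (u * M.sum k) * (1 / 4 + 2 / 2 ^ 20) ≤ u * M.sum k := by
      have : (u * M.sum k) * (1 / 4 + 2 / 2 ^ 20) ≤ (u * M.sum k) * 1 :=
        mul_le_mul_of_nonneg_left (by norm_num) h7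
      linarith
    linarith

end H11.Cake
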