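import Pool.Agent.H11.Cake.Defs

/-!
# Small lemmas used everywhere
-/

namespace H11.Cake

open H85.Cake

variable {G : Type}

theorem nn_add {A B : Multiset (G → ℝ)} : NN (A + B) ↔ NN A ∧ NN B := by
  unfold NN
  constructor
  · intro h
    exact ⟨fun v hv => h v (Multiset.mem_add.2 (Or.inl hv)),
      fun v hv => h v (Multiset.mem_add.2 (Or.inr hv))⟩
  · rintro ⟨h1, h2⟩ v hv
    rcases Multiset.mem_add.1 hv with h | h
    · exact h1 v h
    · exact h2 v h

theorem nn_sum {ι : Type} [Fintype ι] {x : ι → Multiset (G → ℝ)} (h : NN (∑ k, x k)) (k : ι) :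
    NN (x k) := by
  classical
  rw [← Finset.add_sum_erase _ _ (Finset.mem_univ k)] at h
  exact (nn_add.1 h).1

theorem nn_sum_iff {ι : Type} [Fintype ι] {x : ι → Multiset (G → ℝ)} :
    NN (∑ k, x k) ↔ ∀ k, NN (x k) := by
  refine ⟨nn_sum, fun h v hv => ?_⟩
  rw [Multiset.mem_sum] at hv
  obtain ⟨k, -, hk⟩ := hv
  exact h k v hk

theorem nonneg {A : Multiset (G → ℝ)} (h : NN A) (k : G) : 0 ≤ A.sum k :=
  (Multiset.sum_nonneg h : (0 : G → ℝ) ≤ A.sum) k

theorem sum_add_apply (A B : Multiset (G → ℝ)) (k : G) : (A + B).sum k = A.sum k + B.sum k := by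
  rw [Multiset.sum_add, Pi.add_apply]

theorem sum_sum_apply {ι : Type} [Fintype ι] (x : ι → Multiset (G → ℝ)) (k : G) :
    (∑ i, x i).sum k = ∑ i, (x i).sum k := by
  have h := map_sum (Multiset.sumAddMonoidHom (M := G → ℝ)) x Finset.univ
  have h' : (∑ i, x i).sum = ∑ i, (x i).sum := h
  rw [h', Finset.sum_apply]

theorem le_sum_apply {ι : Type} [Fintype ι] {x : ι → Multiset (G → ℝ)} (h : NN (∑ i, x i))
    (i : ι) (k : G) : (x i).sum k ≤ (∑ i, x i).sum k := by
  rw [sum_sum_apply]
  exact Finset.single_le_sum (f := fun i => (x i).sum k) (fun j _ => nonneg (nn_sum h j) k)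
    (Finset.mem_univ i)

theorem le_two_pow (n : ℕ) : (n : ℝ) ≤ 2 ^ n := by
  exact_mod_cast (Nat.lt_two_pow_self (n := n)).le

theorem eps_pos (n : ℕ) : 0 < eps n := by unfold eps; positivity
theorem th_pos (n a : ℕ) : 0 < th n a := by unfold th; positivity
theorem lam_pos (n a : ℕ) : 0 < lam n a := by unfold lam; positivity
theorem xi_pos (n a : ℕ) : 0 < xi n a := by unfold xi; positivity
theorem zetP_pos (n a : ℕ) : 0 < zetP n a := by unfold zetP; positivity

theorem eps_le (n : ℕ) : eps n ≤ 1 / 256 := by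
  unfold eps
  apply one_div_le_one_div_of_le (by norm_num)
  calc (256 : ℝ) = 2 ^ 8 := by norm_num
    _ ≤ 2 ^ (3 * n + 8) := pow_le_pow_right₀ (by norm_num) (by omega)

theorem th_succ (n a : ℕ) : th n (a + 1) = eps n / 16 * th n a := by
  unfold th eps
  have h : 3 * n + 5 + (3 * n + 12) * (a + 1) = (3 * n + 8) + 4 + (3 * n + 5 + (3 * n + 12) * a) := by
    ring
  rw [h, pow_add, pow_add]
  field_simp
  norm_num

theorem th_anti (n : ℕ) {a b : ℕ} (h : a ≤ b) : th n b ≤ th n a := by
  unfold th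
  apply one_div_le_one_div_of_le (by positivity)
  apply pow_le_pow_right₀ (by norm_num)
  exact Nat.add_le_add_left (Nat.mul_le_mul_left _ h) _

theorem lam_succ (n b : ℕ) : lam n (b + 1) = eps n ^ 2 / 2 ^ (n + 10) * lam n b := by
  unfold lam eps
  have h : 2 + (7 * n + 26) * (b + 1) = (3 * n + 8) + (3 * n + 8) + (n + 10) +
      (2 + (7 * n + 26) * b) := by ring
  rw [h, pow_add, pow_add, pow_add]
  field_simp

theorem lam_anti (n : ℕ) {a b : ℕ} (h : a ≤ b) : lam n b ≤ lam n a := by
  unfold lam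
  apply one_div_le_one_div_of_le (by positivity)
  apply pow_le_pow_right₀ (by norm_num)
  exact Nat.add_le_add_left (Nat.mul_le_mul_left _ h) _

theorem lam_m1 (n : ℕ) : lam n (n ^ 2 + 2) = 1 / 2 ^ m1 n := rfl

theorem xi_succ (n a : ℕ) : xi n (a + 1) = eps n / 16 * xi n a := by
  unfold xi eps
  have h : m1 n + n + 7 + (3 * n + 12) * (a + 1) =
      (3 * n + 8) + 4 + (m1 n + n + 7 + (3 * n + 12) * a) := by ring
  rw [h, pow_add, pow_add]
  field_simp
  norm_num

theorem xi_anti (n : ℕ) {a b : ℕ} (h : a ≤ b) : xi n b ≤ xi n a := by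
  unfold xi
  apply one_div_le_one_div_of_le (by positivity)
  apply pow_le_pow_right₀ (by norm_num)
  exact Nat.add_le_add_left (Nat.mul_le_mul_left _ h) _

theorem zetP_succ (n i : ℕ) : zetP n (i + 1) = eps n / 16 * zetP n i := by
  unfold zetP eps
  have h : coreQ n + (3 * n + 12) * (i + 1) =
      (3 * n + 8) + 4 + (coreQ n + (3 * n + 12) * i) := by ring
  rw [h, pow_add, pow_add]
  field_simp
  norm_num

theorem zetP_anti (n : ℕ) {a b : ℕ} (h : a ≤ b) : zetP n b ≤ zetP n a := by
  unfold zetP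
  apply one_div_le_one_div_of_le (by positivity)
  apply pow_le_pow_right₀ (by norm_num)
  exact Nat.add_le_add_left (Nat.mul_le_mul_left _ h) _

/-- Along a forest, a function which changes by at most `θ` from a bundle to its parent differs
by at most `n θ` from its value at the root. -/
theorem IsForest.dist_root [Fintype G] {E : G → G → Prop} {d : G → ℕ} {p l root : G → G}
    (h : IsForest E d p l root) {τ : G → ℝ} {θ : ℝ} (hθ : 0 ≤ θ)
    (hτ : ∀ b, 0 < d b → |τ b - τ (p b)| ≤ θ) (b : G) :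
    |τ b - τ (root b)| ≤ Fintype.card G * θ := by
  have key : ∀ m b, d b ≤ m → |τ b - τ (root b)| ≤ m * θ := by
    intro m
    induction m with
    | zero =>
      intro b hb
      rw [h.rt b (by omega)]
      simp
    | succ m ih =>
      intro b hb
      rcases Nat.eq_zero_or_pos (d b) with h0 | h0
      · rw [h.rt b h0, sub_self, abs_zero]
        positivity
      · obtain ⟨h1, -, -, h2⟩ := h.par b h0
        have h3 := ih (p b) (by omega)
        have h4 := hτ b h0
        rw [h2] at h3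
        have h5 := abs_sub_le (τ b) (τ (p b)) (τ (root b))
        push_cast
        linarith
  refine (key (d b) b le_rfl).trans ?_
  have h1 : (d b : ℝ) ≤ Fintype.card G := by exact_mod_cast (h.lt b).le
  exact mul_le_mul_of_nonneg_right h1 hθ

/-- pigeonhole: a gap in a decreasing scale of thresholds -/
theorem gap {ι : Type} [Fintype ι] (s : ι → ℝ) (θ : ℕ → ℝ) (hθ : ∀ a b, a ≤ b → θ b ≤ θ a) :
    ∃ a ≤ Fintype.card ι, ∀ i, s i ≤ θ (a + 1) ∨ θ a < s i := by
  classical
  by_contra hcon
  push Not at hcon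
  have hch : ∀ a : Fin (Fintype.card ι + 1), ∃ i, θ (a + 1) < s i ∧ s i ≤ θ a := by
    intro a
    exact hcon a (Nat.lt_succ_iff.1 a.2)
  choose f hf1 hf2 using hch
  have hinj : Function.Injective f := by
    have key : ∀ a b : Fin (Fintype.card ι + 1), a < b → f a ≠ f b := by
      intro a b hab he
      have h1 := hf1 a
      have h2 := hf2 b
      rw [← he] at h2
      have h3 := hθ (a + 1) b (Nat.succ_le_of_lt hab)
      linarith
    intro a b he
    rcases lt_trichotomy a b with h | h | h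
    · exact absurd he (key a b h)
    · exact h
    · exact absurd he.symm (key b a h)
  have h4 := Fintype.card_le_of_injective f hinj
  rw [Fintype.card_fin] at h4
  omega

/-- a permutation which maps `B` into a set of the same size -/
theorem perm_of_card [Fintype G] [DecidableEq G] (B I : Finset G) (h : B.card = I.card) :
    ∃ σ : Equiv.Perm G, ∀ k, k ∈ B ↔ σ k ∈ I := by
  classical
  have e1 : Nonempty ({x // x ∈ B} ≃ {x // x ∈ I}) := by
    refine Fintype.card_eq.1 ?_
    simpa using h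
  have e2 : Nonempty ({x // ¬ x ∈ B} ≃ {x // ¬ x ∈ I}) := by
    refine Fintype.card_eq.1 ?_
    rw [Fintype.card_subtype_compl, Fintype.card_subtype_compl]
    simp [h]
  obtain ⟨e1⟩ := e1
  obtain ⟨e2⟩ := e2
  refine ⟨(Equiv.sumCompl (fun x => x ∈ B)).symm.trans ((Equiv.sumCongr e1 e2).trans
    (Equiv.sumCompl (fun x => x ∈ I))), fun k => ?_⟩
  by_cases hk : k ∈ B
  · simp only [hk, true_iff, Equiv.trans_apply, Equiv.sumCompl_symm_apply_of_pos hk,
      Equiv.sumCongr_apply, Sum.map_inl, Equiv.sumCompl_apply_inl]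
    exact (e1 ⟨k, hk⟩).2
  · simp only [hk, false_iff, Equiv.trans_apply, Equiv.sumCompl_symm_apply_of_neg hk,
      Equiv.sumCongr_apply, Sum.map_inr, Equiv.sumCompl_apply_inr]
    exact (e2 ⟨k, hk⟩).2

end H11.Cake
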