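import Pool.Agent.H11.Cake.Defs

/-!
# The number of queries is `O(n^13)`

`dB d f`: `f n ≤ C * n ^ d` for all `n ≥ 1`.  `polishCost n = O(n^9)`, so `phasePCost n = O(n^9)`,
`costP n = O(n^12)` and the number of queries is `O(n^13)`.
-/

namespace H11.Cake

open H85.Cake

/-- Functions bounded by `C * n ^ d`. -/
def dB (d : ℕ) (f : ℕ → ℕ) : Prop := ∃ C : ℕ, ∀ n : ℕ, 1 ≤ n → f n ≤ C * n ^ d

theorem dB_mono {d d' : ℕ} {f : ℕ → ℕ} (h : d ≤ d') (hf : dB d f) : dB d' f := by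
  obtain ⟨C, hC⟩ := hf
  exact ⟨C, fun n hn => (hC n hn).trans (Nat.mul_le_mul_left _ (Nat.pow_le_pow_right hn h))⟩

theorem dB_add {d : ℕ} {f g : ℕ → ℕ} (hf : dB d f) (hg : dB d g) :
    dB d (fun n => f n + g n) := by
  obtain ⟨C, hC⟩ := hf
  obtain ⟨D, hD⟩ := hg
  refine ⟨C + D, fun n hn => ?_⟩
  rw [add_mul]
  exact Nat.add_le_add (hC n hn) (hD n hn)

theorem dB_mul {a b : ℕ} {f g : ℕ → ℕ} (hf : dB a f) (hg : dB b g) :
    dB (a + b) (fun n => f n * g n) := by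
  obtain ⟨C, hC⟩ := hf
  obtain ⟨D, hD⟩ := hg
  refine ⟨C * D, fun n hn => ?_⟩
  calc f n * g n ≤ (C * n ^ a) * (D * n ^ b) := Nat.mul_le_mul (hC n hn) (hD n hn)
    _ = C * D * n ^ (a + b) := by rw [pow_add]; ring

theorem dB_const (c : ℕ) : dB 0 (fun _ => c) := ⟨c, fun n _ => by simp⟩

theorem dB_id : dB 1 (fun n => n) := ⟨1, fun n _ => by simp⟩

theorem dB_pow (k : ℕ) : dB k (fun n => n ^ k) := ⟨1, fun n _ => by simp⟩

theorem dB_cmul (c : ℕ) {d : ℕ} {f : ℕ → ℕ} (hf : dB d f) : dB d (fun n => c * f n) := by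
  have h := dB_mul (dB_const c) hf
  rwa [zero_add] at h

theorem dB_lin (a b : ℕ) : dB 1 (fun n => a * n + b) :=
  dB_add (dB_cmul a dB_id) (dB_mono (Nat.zero_le _) (dB_const b))

theorem dB_ns {d : ℕ} {L : ℕ → ℕ} (hL : dB d L) : dB (d + 3) (fun n => nsCost n (L n)) := by
  unfold nsCost
  exact dB_mul hL (dB_cmul 2 (dB_pow 3))

theorem dB_sh {a d : ℕ} {s L : ℕ → ℕ} (hs : dB a s) (hL : dB d L) (had : a ≤ d) :
    dB (a + (d + 3)) (fun n => shCost n (s n) (L n)) := by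
  unfold shCost
  exact dB_mul hs (dB_ns (dB_add hL (dB_mono had hs)))

theorem dB_c (d c : ℕ) : dB d (fun _ => c) := dB_mono (Nat.zero_le _) (dB_const c)

theorem dB_succ : dB 1 (fun n => n + 1) := dB_add dB_id (dB_c 1 1)

theorem dB_m1 : dB 3 m1 := by
  unfold m1
  exact dB_add (dB_c 3 2) (dB_mul (dB_lin 7 26) (dB_add (dB_pow 2) (dB_c 2 2)))

theorem dB_coreQ : dB 3 coreQ := by
  unfold coreQ
  exact dB_add (dB_add dB_m1 (dB_mono (by norm_num) dB_id)) (dB_c 3 10)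

theorem dB_emaxP : dB 3 emaxP := by
  unfold emaxP
  exact dB_add dB_coreQ (dB_mul (dB_lin 3 12) (dB_add (dB_pow 2) (dB_c 2 1)))

theorem dB_polish : dB 9 polishCost := by
  unfold polishCost
  refine dB_mul (a := 2) (b := 7) (dB_pow 2) (dB_add ?_ ?_)
  · unfold level1Cost
    exact dB_mono (by norm_num) (dB_add (dB_sh (dB_lin 2 1) (dB_lin 3 10) le_rfl)
      (dB_mono (d := 1) (by norm_num) dB_id))
  · unfold level2Cost
    refine dB_add (dB_mono (d := 1) (by norm_num) dB_id)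
      (dB_sh (a := 1) (d := 3) dB_succ ?_ (by norm_num))
    unfold prec2
    exact dB_mul (dB_lin 3 12) (dB_add (dB_pow 2) (dB_c 2 3))

theorem dB_phase : dB 9 phasePCost := by
  unfold phasePCost
  have hlin : ∀ a : ℕ, dB 3 (fun n => a * n) := fun a => dB_cmul a (dB_mono (by norm_num) dB_id)
  have hid : dB 3 (fun n => n) := dB_mono (by norm_num) dB_id
  refine dB_add ?_ (dB_add ?_ ?_)
  · unfold coreCost
    refine dB_add ?_ (dB_add (dB_mono (d := 1) (by norm_num) dB_id)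
      (dB_add (dB_mono (d := 2) (by norm_num) (dB_mul dB_id dB_id)) (dB_add (dB_add ?_ ?_) ?_)))
    · unfold corePartCost prec0
      exact dB_add (dB_mono (by norm_num) (dB_sh (dB_cmul 2 dB_id)
        (dB_add (dB_add dB_m1 (hlin 3)) (dB_c 3 10)) (by norm_num)))
        (dB_mono (d := 1) (by norm_num) dB_id)
    · unfold coreZCost
      exact dB_add (dB_mono (by norm_num) (dB_sh dB_succ (dB_lin 4 20) le_rfl)) dB_polish
    · unfold coreACost
      exact dB_add (dB_mono (by norm_num) (dB_sh dB_succ dB_m1 (by norm_num)))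
        (dB_add (dB_mono (by norm_num) (dB_sh (dB_const 2) dB_m1 (by norm_num))) dB_polish)
    · unfold coreBCost precB
      refine dB_add (dB_mono (by norm_num) (dB_mul dB_id (dB_ns (dB_add (dB_add dB_m1 hid)
        (dB_c 3 9))))) (dB_add (dB_mono (by norm_num) (dB_sh dB_succ ?_ (by norm_num : 1 ≤ 3)))
          dB_polish)
      exact dB_add (dB_add (dB_add dB_m1 hid) (dB_c 3 7))
        (dB_mul (dB_lin 3 12) (dB_add (dB_pow 2) (dB_c 2 1)))
  · unfold fixPCost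
    exact dB_add (dB_mono (by norm_num) (dB_ns (dB_add dB_emaxP (dB_c 3 4)))) dB_polish
  · unfold shrinkPCost
    exact dB_add (dB_mono (by norm_num) (dB_sh dB_succ (dB_add (dB_add dB_emaxP (hlin 3))
      (dB_c 3 20)) (by norm_num : 1 ≤ 3))) dB_polish

theorem costP_le {C : ℕ} (hC : ∀ n, 1 ≤ n → phasePCost n ≤ C * n ^ 9) (n : ℕ) :
    costP n ≤ n * (n ^ 2 * (C * n ^ 9)) := by
  induction n with
  | zero => simp [costP]
  | succ n ih =>
    have h1 := hC (n + 1) (by omega)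
    have h2 : C * n ^ 9 ≤ C * (n + 1) ^ 9 :=
      Nat.mul_le_mul_left _ (Nat.pow_le_pow_left (by omega) 9)
    have h3 : n ^ 2 ≤ (n + 1) ^ 2 := Nat.pow_le_pow_left (by omega) 2
    calc costP (n + 1) = (n + 1) ^ 2 * phasePCost (n + 1) + costP n := rfl
      _ ≤ (n + 1) ^ 2 * (C * (n + 1) ^ 9) + n * ((n + 1) ^ 2 * (C * (n + 1) ^ 9)) :=
          Nat.add_le_add (Nat.mul_le_mul_left _ h1)
            (ih.trans (Nat.mul_le_mul_left _ (Nat.mul_le_mul h3 h2)))
      _ = (n + 1) * ((n + 1) ^ 2 * (C * (n + 1) ^ 9)) := by ring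

theorem costP_bound : ∃ C : ℕ, ∀ n : ℕ, 1 ≤ n → n + (n + 1) * costP n ≤ C * n ^ 13 := by
  obtain ⟨C, hC⟩ := dB_phase
  have hc : dB 12 costP := ⟨C, fun n _ => (costP_le hC n).trans (le_of_eq (by ring))⟩
  exact dB_add (dB_mono (d := 1) (by norm_num) dB_id) (dB_mul (a := 1) (b := 12) dB_succ hc)

end H11.Cake
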