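import Pool.Agent.H85.Cake.Halve
import Pool.Agent.H85.Cake.CutEq

/-!
# Polynomial envy-free cake cutting: constants and definitions

`n` is always the number of agents.  Everything takes place in the split game `Force` of
`Pool/Agent/H85/Cake/Force.lean`: positions are multisets of atoms (vectors of values).
-/

namespace H11.Cake

open H85.Cake

/-- The tolerance of the polishing theorem. -/
noncomputable def eps (n : ℕ) : ℝ := 1 / 2 ^ (3 * n + 8)

/-- Thresholds for the slacks in one level of the polishing procedure: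
`th n (a+1) = (eps n / 16) * th n a`. -/
noncomputable def th (n a : ℕ) : ℝ := 1 / 2 ^ (3 * n + 5 + (3 * n + 12) * a)

/-- Thresholds for the sizes of the windows in the core. -/
noncomputable def lam (n b : ℕ) : ℝ := 1 / 2 ^ (2 + (7 * n + 26) * b)

/-- `2 ^ m1 n` is the factor between the windows and the differences in the core;
`1 / 2 ^ m1 n = lam n (n^2+2)`. -/
def m1 (n : ℕ) : ℕ := 2 + (7 * n + 26) * (n ^ 2 + 2)

/-- Thresholds for the slacks in the core. -/
noncomputable def xi (n a : ℕ) : ℝ := 1 / 2 ^ (m1 n + n + 7 + (3 * n + 12) * a)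

/-- The core creates an advantage of `2 ^ (-coreQ n)` times the residual. -/
def coreQ (n : ℕ) : ℕ := m1 n + n + 10

/-- Thresholds for the phases. -/
noncomputable def zetP (n i : ℕ) : ℝ := 1 / 2 ^ (coreQ n + (3 * n + 12) * i)

/-- The largest exponent used in a phase. -/
def emaxP (n : ℕ) : ℕ := coreQ n + (3 * n + 12) * (n ^ 2 + 1)

/-! ## Costs -/

/-- one near-exact share with error `2^-L` -/
def nsCost (n L : ℕ) : ℕ := L * (2 * n ^ 3)

/-- `s` near-exact shares with error `2^-L` -/
def shCost (n s L : ℕ) : ℕ := s * nsCost n (L + s)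

/-- precision of the second division of a level -/
def prec2 (n : ℕ) : ℕ := (3 * n + 12) * (n ^ 2 + 3)

def level1Cost (n : ℕ) : ℕ := shCost n (2 * n + 1) (3 * n + 10) + n

def level2Cost (n : ℕ) : ℕ := n + shCost n (n + 1) (prec2 n)

def polishCost (n : ℕ) : ℕ := n ^ 2 * (level1Cost n + level2Cost n)

def shrinkPCost (n t : ℕ) : ℕ := shCost n (n + 1) (t + 3 * n + 20) + polishCost n

def fixPCost (n : ℕ) : ℕ := nsCost n (emaxP n + 4) + polishCost n

/-- precision of the first division of the core -/
def prec0 (n : ℕ) : ℕ := m1 n + 3 * n + 10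

def corePartCost (n : ℕ) : ℕ := shCost n (2 * n) (prec0 n) + n

def coreZCost (n : ℕ) : ℕ := shCost n (n + 1) (4 * n + 20) + polishCost n

def coreACost (n : ℕ) : ℕ :=
  shCost n (n + 1) (m1 n) + (shCost n 2 (m1 n) + polishCost n)

/-- precision of the last division in case B of the core -/
def precB (n : ℕ) : ℕ := m1 n + n + 7 + (3 * n + 12) * (n ^ 2 + 1)

def coreBCost (n : ℕ) : ℕ :=
  n * nsCost n (m1 n + n + 9) + (shCost n (n + 1) (precB n) + polishCost n)

def coreCost (n : ℕ) : ℕ :=
  corePartCost n + (n + (n * n + (coreZCost n + coreACost n + coreBCost n)))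

def phasePCost (n : ℕ) : ℕ := coreCost n + (fixPCost n + shrinkPCost n (emaxP n))

/-- Total cost. -/
def costP : ℕ → ℕ
  | 0 => 0
  | n + 1 => (n + 1) ^ 2 * phasePCost (n + 1) + costP n

/-! ## Forests -/

variable {G : Type}

/-- A rooted forest on the bundles for the relation `E` (agent, bundle): `d` is the depth, `p` the
parent, `l` an agent adjacent to a bundle and its parent, `root` the root of the component; two
bundles adjacent to the same agent have the same root. -/
structure IsForest [Fintype G] (E : G → G → Prop) (d : G → ℕ) (p l root : G → G) : Prop where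
  lt : ∀ b, d b < Fintype.card G
  par : ∀ b, 0 < d b → d (p b) < d b ∧ E (l b) b ∧ E (l b) (p b) ∧ root (p b) = root b
  rt : ∀ b, d b = 0 → root b = b
  conn : ∀ k b b', E k b → E k b' → root b = root b'

/-! ## The hypotheses of the polishing theorem -/

/-- `a b k` is the value of the bundle `b` for agent `k`, `z k` the value of the reserve, `E k b`
the relation of near-ties. -/
structure Pol (E : G → G → Prop) (a : G → G → ℝ) (z : G → ℝ) (ε : ℝ) : Prop where
  pm : ∃ σ : Equiv.Perm G, ∀ k, E k (σ k)
  far : ∀ k b b', ¬ E k b → E k b' → a b k + z k ≤ a b' k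
  near : ∀ k b b', E k b → E k b' → |a b k - a b' k| ≤ ε * z k

/-- The result of the core step: envy-free parts `x k`, residual `R`, and a pair `k0 ≠ l0` with a
significant advantage. -/
def CoreOut [Fintype G] (M' : Multiset (G → ℝ)) : Prop :=
  ∃ (x : G → Multiset (G → ℝ)) (R : Multiset (G → ℝ)) (k0 l0 : G),
    M' = ∑ k, x k + R ∧ (∀ k l, (x l).sum k ≤ (x k).sum k) ∧ k0 ≠ l0 ∧
    R.sum k0 / 2 ^ coreQ (Fintype.card G) ≤ (x k0).sum k0 - (x l0).sum k0

end H11.Cake
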