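import Pool.Agent.H11.Cake.Pot

/-!
# The offline market   (JOB PC-DUAL)

PROOF.  Among the (finitely many, at least one) permutations `μ` with `E k (μ k)` for all `k` take one
with maximal weight `∑ k, W k (μ k)`.  Apply `potential` with `V = G`, `R k l := E k (μ l)`,
`c k l := W k (μ k) - W k (μ l)`: `R k k`, `c k k = 0`, `|c k l| ≤ D` by `hW`; for a permutation `π` with
`E k (μ (π k))` for all `k`, `∑ c k (π k) = ∑ W k (μ k) - ∑ W k (μ (π k)) ≥ 0` by maximality
(`μ * π`).  Let `σ` be the potential; `τ b = σ (μ⁻¹ b) + card G * D`, `F k = W k (μ k) + τ (μ k)`.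
For `E k b`, `b = μ l`: `σ l ≤ σ k + W k (μ k) - W k b`.
-/

namespace H11.Cake

theorem dual {G : Type} [Fintype G] [DecidableEq G] (E : G → G → Prop) (W : G → G → ℝ) (D : ℝ)
    (hE : ∃ σ : Equiv.Perm G, ∀ k, E k (σ k))
    (hW : ∀ k b b', E k b → E k b' → |W k b - W k b'| ≤ D) :
    ∃ (μ : Equiv.Perm G) (τ F : G → ℝ), (∀ k, E k (μ k)) ∧
      (∀ b, 0 ≤ τ b ∧ τ b ≤ Fintype.card G * D) ∧
      (∀ k b, E k b → W k b + τ b ≤ F k) ∧ ∀ k, W k (μ k) + τ (μ k) = F k := by
  classical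
  obtain ⟨σ₀, hσ₀⟩ := hE
  let S : Finset (Equiv.Perm G) := Finset.univ.filter fun μ => ∀ k, E k (μ k)
  have hS : S.Nonempty := ⟨σ₀, by simp [S, hσ₀]⟩
  obtain ⟨μ, hμS, hmax⟩ := S.exists_max_image (fun μ => ∑ k, W k (μ k)) hS
  have hμ : ∀ k, E k (μ k) := by
    have := (Finset.mem_filter.1 hμS).2
    exact this
  obtain ⟨σ, hσ1, hσ2⟩ := potential (fun k l => E k (μ l)) (fun k l => W k (μ k) - W k (μ l)) D
    hμ (fun k => sub_self _) (fun k l h => hW k _ _ (hμ k) h) (by
      intro π hπ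
      have h1 : (μ * π) ∈ S := by
        simp only [S, Finset.mem_filter, Finset.mem_univ, true_and]
        intro k
        exact hπ k
      have h2 := hmax (μ * π) h1
      have h3 : ∑ k, W k ((μ * π) k) = ∑ k, W k (μ (π k)) := rfl
      rw [Finset.sum_sub_distrib]
      linarith)
  refine ⟨μ, fun b => σ (μ.symm b) + Fintype.card G * D,
    fun k => W k (μ k) + (σ k + Fintype.card G * D), hμ, fun b => ?_, fun k b hb => ?_,
    fun k => ?_⟩
  · have h := hσ1 (μ.symm b)
    constructor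
    · linarith [h.1]
    · linarith [h.2]
  · have h := hσ2 k (μ.symm b) (by simpa using hb)
    simp only [Equiv.apply_symm_apply] at h
    linarith
  · simp

end H11.Cake
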