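import Pool.Agent.H11.Cake.Loop
import Pool.Agent.H11.Cake.Bound
import Pool.Agent.H85.Cake.Realize

/-!
# Envy-free cake cutting with polynomially many queries
-/

namespace H11.Cake

open H85.Cake

theorem finalP (hC : CoreHyp) : ∃ C : ℕ, ∀ n : ℕ, 1 ≤ n →
    ∃ P : Proto n, P.EnvyFree ∧ P.Within (C * n ^ 13) := by
  obtain ⟨C, hc⟩ := costP_bound
  refine ⟨C, fun n hn => ?_⟩
  haveI : Nonempty (Fin n) := ⟨⟨0, hn⟩⟩
  obtain ⟨P, hP, hP'⟩ := realize hn (costP n) (fun v hv =>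
    mainP hC n (Fin n) (Fintype.card_fin n) {v} (by
      intro w hw
      rw [Multiset.mem_singleton] at hw
      rwa [hw]))
  exact ⟨P, hP, hP'.mono (hc n hn)⟩

end H11.Cake
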