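import Pool.Agent.H11.Cake.Round

/-!
# One near-exact share with exponentially small error   (JOB PC-NEAR)

`crumbleF`.  PROOF.  Induction on `F` (`Multiset.induction_on`).  For `q ::ₘ F`: the position is
`{q.1} + F.map fst`.  By `crumble` (file `H85/Cake/Halve.lean`) with `m = 2 * card G` for the
multiset `{q.1}` (`({q.1}).sum = q.1`; `NN`) one gets `M₁` with `v k ≤ q.1 k / (2 n)` for `v ∈ M₁`, and
`M₁.sum = q.1` by `Force.inv`; use `F'_1 = M₁.map (fun v => (v, q.2))`, for which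
`(F'_1.map (fun p => p.2 • p.1)).sum = q.2 • q.1` (`Multiset.sum_map_smul`/induction).  Frame rule and
the induction hypothesis for `F` (`Force.bind_inv` or `Force.bind`).  Cost of one crumble:
`card G * (2 * card G) = 2 * card G ^ 2`.

`nearStep`: `crumbleF` for the fractional atoms (frame: `A + C`), then `round_ms`.
Cost `F.card * (2 n^2) ≤ 2 n^3`.

`nearShare`.  PROOF.  `n = card G`, `T = τ • M.sum`.  State `RS T B M'` (below).
Start: `round_ms` for `F = M.map (fun v => (v, τ))` (no cost) gives `RS T M.sum M`: the atoms of `F'`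
are atoms of `M`, so `≤ M.sum` in every coordinate (`halve_le_sum`).  `L` steps `nearStep` give
`RS T (fun k => M.sum k / (2 n)^L)`.  At the end take `A := A` and `B := C + F.map fst`:
`|A.sum k - τ M.sum k| = (F.map (p.2 • p.1)).sum k ≤ card F * M.sum k / (2n)^L ≤ n * M.sum k/(2n)^L
≤ M.sum k / 2^L` for `L ≥ 1` (`n^L ≥ n`, `n ≥ 1`).  For `L = 0` take `A = 0` directly
(`τ * M.sum k ≤ M.sum k`).  If `G` is empty everything is trivial (`Force.done`, `A = M`, `B = 0`).
-/

namespace H11.Cake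

open H85.Cake

variable {G : Type}

/-- State of the rounding procedure: `A` taken, `C` refused, `F` the fractional atoms. -/
def RS [Fintype G] (T B : G → ℝ) (M' : Multiset (G → ℝ)) : Prop :=
  ∃ (A C : Multiset (G → ℝ)) (F : Multiset ((G → ℝ) × ℝ)),
    M' = A + C + F.map Prod.fst ∧ F.card ≤ Fintype.card G ∧
    (∀ p ∈ F, 0 ≤ p.2 ∧ p.2 ≤ 1 ∧ ∀ k, p.1 k ≤ B k) ∧
    A.sum + (F.map (fun p => p.2 • p.1)).sum = T

theorem crumbleF [Fintype G] (hG : 1 ≤ Fintype.card G) (B : G → ℝ) (F : Multiset ((G → ℝ) × ℝ))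
    (hN : NN (F.map Prod.fst)) (hF : ∀ p ∈ F, 0 ≤ p.2 ∧ p.2 ≤ 1 ∧ ∀ k, p.1 k ≤ B k) :
    Force (fun M' => ∃ F' : Multiset ((G → ℝ) × ℝ), M' = F'.map Prod.fst ∧
      (∀ p ∈ F', 0 ≤ p.2 ∧ p.2 ≤ 1 ∧ ∀ k, p.1 k ≤ B k / (2 * Fintype.card G)) ∧
      (F'.map (fun p => p.2 • p.1)).sum = (F.map (fun p => p.2 • p.1)).sum)
      (F.card * (2 * Fintype.card G ^ 2)) (F.map Prod.fst) := by
  induction F using Multiset.induction_on with
  | empty => exact .done ⟨0, by simp, by simp, by simp⟩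
  | cons q F ih =>
    have hq := hF q (Multiset.mem_cons_self _ _)
    have ih' := ih (fun v hv => hN v (by
      rw [Multiset.map_cons]
      exact Multiset.mem_cons_of_mem hv)) (fun p hp => hF p (Multiset.mem_cons_of_mem hp))
    have hNq : NN ({q.1} : Multiset (G → ℝ)) := by
      intro v hv
      rw [Multiset.mem_singleton] at hv
      rw [hv]
      exact hN _ (by rw [Multiset.map_cons]; exact Multiset.mem_cons_self _ _)
    have h1 := ((crumble (2 * Fintype.card G) (by omega) hNq).inv hNq).frame (F.map Prod.fst)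
    have e1 : ({q.1} : Multiset (G → ℝ)) + F.map Prod.fst = (q ::ₘ F).map Prod.fst := by
      rw [Multiset.map_cons, Multiset.singleton_add]
    rw [e1] at h1
    have hcost : (q ::ₘ F).card * (2 * Fintype.card G ^ 2) =
        Fintype.card G * (2 * Fintype.card G) + F.card * (2 * Fintype.card G ^ 2) := by
      rw [Multiset.card_cons]
      ring
    rw [hcost]
    refine h1.bind ?_
    rintro M' ⟨M₁, ⟨hM₁, hNN₁, hs₁⟩, rfl⟩
    have h2 := ih'.frame M₁
    rw [add_comm (F.map Prod.fst)] at h2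
    refine h2.mono le_rfl ?_
    rintro M'' ⟨M₂, ⟨F', rfl, hF', hsF'⟩, rfl⟩
    refine ⟨F' + M₁.map (fun v => (v, q.2)), ?_, ?_, ?_⟩
    · rw [Multiset.map_add, Multiset.map_map]
      simp
    · intro p hp
      rcases Multiset.mem_add.1 hp with h | h
      · exact hF' p h
      · obtain ⟨v, hv, rfl⟩ := Multiset.mem_map.1 h
        refine ⟨hq.1, hq.2.1, fun k => ?_⟩
        have h3 := hM₁ v hv k
        rw [Multiset.sum_singleton] at h3
        push_cast at h3
        refine h3.trans ?_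
        exact div_le_div_of_nonneg_right (hq.2.2 k) (by positivity)
    · rw [Multiset.map_add, Multiset.sum_add, hsF', Multiset.map_map, Multiset.map_cons,
        Multiset.sum_cons, add_comm]
      congr 1
      have h3 : (fun p : (G → ℝ) × ℝ => p.2 • p.1) ∘ (fun v => (v, q.2)) = fun v => q.2 • v := rfl
      rw [h3, ← Multiset.smul_sum, hs₁, Multiset.sum_singleton]

theorem nearStep [Fintype G] (hG : 1 ≤ Fintype.card G) (T B : G → ℝ) {M : Multiset (G → ℝ)}
    (hM : NN M) (h : RS T B M) :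
    Force (RS T (fun k => B k / (2 * Fintype.card G))) (2 * Fintype.card G ^ 3) M := by
  obtain ⟨A, C, F, rfl, hcard, hF, hT⟩ := h
  have hNF : NN (F.map Prod.fst) := (nn_add.1 hM).2
  have h1 := (crumbleF hG B F hNF hF).frame (A + C)
  rw [add_comm (F.map Prod.fst)] at h1
  refine h1.mono ?_ ?_
  · calc F.card * (2 * Fintype.card G ^ 2) ≤ Fintype.card G * (2 * Fintype.card G ^ 2) :=
          Nat.mul_le_mul_right _ hcard
      _ = 2 * Fintype.card G ^ 3 := by ring
  · rintro M' ⟨M₁, ⟨F', rfl, hF', hs⟩, rfl⟩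
    obtain ⟨A2, C2, F2, h2, h3, h4, h5⟩ :=
      round_ms F' (fun p hp => ⟨(hF' p hp).1, (hF' p hp).2.1⟩)
    refine ⟨A + A2, C + C2, F2, ?_, h3, ?_, ?_⟩
    · rw [h2]
      abel
    · intro p hp
      obtain ⟨a, b, c⟩ := h4 p hp
      refine ⟨a, b, ?_⟩
      obtain ⟨q, hq, hqe⟩ := Multiset.mem_map.1 c
      rw [← hqe]
      exact (hF' q hq).2.2
    · rw [Multiset.sum_add, add_assoc, h5, hs, hT]

private theorem near_bound (k : G) (b : ℝ) (F : Multiset ((G → ℝ) × ℝ))
    (hF : ∀ p ∈ F, 0 ≤ p.2 ∧ p.2 ≤ 1 ∧ 0 ≤ p.1 k ∧ p.1 k ≤ b) :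
    0 ≤ (F.map (fun p => p.2 • p.1)).sum k ∧ (F.map (fun p => p.2 • p.1)).sum k ≤ F.card * b := by
  induction F using Multiset.induction_on with
  | empty => simp
  | cons q F ih =>
    obtain ⟨h1, h2⟩ := ih (fun p hp => hF p (Multiset.mem_cons_of_mem hp))
    obtain ⟨a1, a2, a3, a4⟩ := hF q (Multiset.mem_cons_self _ _)
    rw [Multiset.map_cons, Multiset.sum_cons, Pi.add_apply, Multiset.card_cons, Pi.smul_apply,
      smul_eq_mul]
    have h3 : 0 ≤ q.2 * q.1 k := mul_nonneg a1 a3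
    have h4 : q.2 * q.1 k ≤ 1 * q.1 k := mul_le_mul_of_nonneg_right a2 a3
    push_cast
    constructor
    · linarith
    · linarith

theorem nearShare [Fintype G] (L : ℕ) (τ : ℝ) (h0 : 0 ≤ τ) (h1 : τ ≤ 1) {M : Multiset (G → ℝ)}
    (hM : NN M) :
    Force (fun M' => ∃ A B : Multiset (G → ℝ), M' = A + B ∧
      ∀ k, |A.sum k - τ * M.sum k| ≤ M.sum k / 2 ^ L) (nsCost (Fintype.card G) L) M := by
  rcases isEmpty_or_nonempty G with hG | hG
  · exact .done ⟨M, 0, by simp, fun k => (hG.false k).elim⟩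
  have hn1 : 1 ≤ Fintype.card G := Fintype.card_pos
  have hn : (1:ℝ) ≤ Fintype.card G := by exact_mod_cast hn1
  rcases Nat.eq_zero_or_pos L with hL | hL
  · subst hL
    refine .done ⟨0, M, by simp, fun k => ?_⟩
    have h2 : 0 ≤ M.sum k := nonneg hM k
    rw [Multiset.sum_zero, Pi.zero_apply, zero_sub, abs_neg, abs_of_nonneg (mul_nonneg h0 h2),
      pow_zero, div_one]
    calc τ * M.sum k ≤ 1 * M.sum k := mul_le_mul_of_nonneg_right h1 h2
      _ = _ := one_mul _
  have hstart : RS (τ • M.sum) M.sum M := by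
    obtain ⟨A, C, F, h2, h3, h4, h5⟩ := round_ms (M.map (fun v => (v, τ))) (by
      intro p hp
      obtain ⟨v, hv, rfl⟩ := Multiset.mem_map.1 hp
      exact ⟨h0, h1⟩)
    have e1 : (M.map (fun v => (v, τ))).map Prod.fst = M := by
      rw [Multiset.map_map]
      simp
    rw [e1] at h2
    refine ⟨A, C, F, h2, h3, ?_, ?_⟩
    · intro p hp
      obtain ⟨a, b, c⟩ := h4 p hp
      refine ⟨a, b, fun k => ?_⟩
      rw [e1] at c
      exact halve_le_sum hM c k
    · rw [h5, Multiset.map_map]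
      have h6 : (fun p : (G → ℝ) × ℝ => p.2 • p.1) ∘ (fun v => (v, τ)) = fun v => τ • v := rfl
      rw [h6, ← Multiset.smul_sum]
  have key : ∀ L : ℕ, Force (RS (τ • M.sum)
      (fun k => M.sum k / (2 * Fintype.card G) ^ L)) (L * (2 * Fintype.card G ^ 3)) M := by
    intro L
    induction L with
    | zero =>
      refine .done ?_
      simpa using hstart
    | succ L ih =>
      rw [Nat.succ_mul]
      refine ih.bind_inv hM ?_
      intro M' hM' hNN _
      refine (nearStep hn1 _ _ hNN hM').mono le_rfl ?_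
      intro M'' h
      have e : (fun k => M.sum k / (2 * (Fintype.card G : ℝ)) ^ L / (2 * Fintype.card G)) =
          (fun k => M.sum k / (2 * (Fintype.card G : ℝ)) ^ (L + 1)) := by
        funext k
        rw [div_div, pow_succ]
      rw [← e]
      exact h
  refine (key L).mono_inv hM le_rfl ?_
  rintro M' ⟨A, C, F, rfl, hcard, hF, hT⟩ hNN hsum
  refine ⟨A, C + F.map Prod.fst, by rw [add_assoc], fun k => ?_⟩
  have hNF : NN (F.map Prod.fst) := (nn_add.1 hNN).2
  have hMk : 0 ≤ M.sum k := nonneg hM k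
  have h2 := congrFun hT k
  rw [Pi.add_apply, Pi.smul_apply, smul_eq_mul] at h2
  obtain ⟨h3, h4⟩ := near_bound k (M.sum k / (2 * Fintype.card G) ^ L) F (fun p hp => by
    obtain ⟨a, b, c⟩ := hF p hp
    exact ⟨a, b, hNF p.1 (Multiset.mem_map_of_mem _ hp) k, c k⟩)
  have h5 : A.sum k - τ * M.sum k = -(F.map (fun p => p.2 • p.1)).sum k := by linarith
  rw [h5, abs_neg, abs_of_nonneg h3]
  refine h4.trans ?_
  have h6 : (F.card : ℝ) ≤ Fintype.card G := by exact_mod_cast hcard
  have h7 : (0:ℝ) < 2 ^ L := by positivity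
  have h8 : (Fintype.card G : ℝ) ≤ (Fintype.card G : ℝ) ^ L := by
    calc (Fintype.card G : ℝ) = (Fintype.card G : ℝ) ^ 1 := (pow_one _).symm
      _ ≤ _ := pow_le_pow_right₀ hn hL
  have h9 : (0:ℝ) < (Fintype.card G : ℝ) ^ L := by positivity
  calc (F.card : ℝ) * (M.sum k / (2 * Fintype.card G) ^ L)
      ≤ (Fintype.card G : ℝ) ^ L * (M.sum k / (2 * Fintype.card G) ^ L) :=
        mul_le_mul_of_nonneg_right (h6.trans h8) (by positivity)
    _ = M.sum k / 2 ^ L := by
        rw [mul_pow]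
        field_simp

end H11.Cake
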