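import Pool.Agent.H11.Cake.Polish
import Pool.Agent.H11.Cake.Near

/-!
# Repairing small envies with polynomially many cuts

`n = card G`, `hi = 2^{-e}`, `lo = (eps n / 16) * hi`.  `β' b k` = value of the bundle `b` for agent
`k`, `U k` = value agent `k` wants, `gap k b = U k - β' b k ≥ 0`.  Own gap `< lo * r k`
(`r = R.sum`), every gap is `< 2 lo r k` or `≥ hi r k`.

PROOF.  `nearShare` of `R` with `τ = hi / 4`, `L = e + 4`: `Z`, rest `W`;
`3/16 hi r k ≤ Z.sum k ≤ 5/16 hi r k`.  `polish` for the relation `E k b : gap k b < 2 lo r k`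
(perfect matching: identity), `a b k = β' b k`.
-/

namespace H11.Cake

open H85.Cake

variable {G : Type}

theorem zetP_le (n i : ℕ) : zetP n i ≤ 1 / 2 ^ coreQ n := by
  unfold zetP
  apply one_div_le_one_div_of_le (by positivity)
  exact pow_le_pow_right₀ (by norm_num) (Nat.le_add_right _ _)

theorem zetP_le_one (n i : ℕ) : zetP n i ≤ 1 := by
  unfold zetP
  rw [div_le_one (by positivity)]
  exact one_le_pow₀ (by norm_num)

theorem eps_le_one (n : ℕ) : eps n ≤ 1 := by
  unfold eps
  rw [div_le_one (by positivity)]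
  exact one_le_pow₀ (by norm_num)

theorem fixP [Fintype G] [DecidableEq G] [Nonempty G] {β' : G → G → ℝ} {U : G → ℝ}
    {R : Multiset (G → ℝ)} (hR : NN R) (hr : ∀ k, 0 < R.sum k) (e : ℕ)
    (he : e ≤ emaxP (Fintype.card G)) {lo hi : ℝ}
    (hhi : hi = 1 / 2 ^ e) (hlo : lo = eps (Fintype.card G) / 16 * hi)
    (hU : ∀ k b, β' b k ≤ U k) (hown : ∀ k, U k - β' k k < lo * R.sum k)
    (hgap : ∀ k b, U k - β' b k < 2 * lo * R.sum k ∨ hi * R.sum k ≤ U k - β' b k) :
    Force (fun M' => ∃ (μ : Equiv.Perm G) (y : G → Multiset (G → ℝ)) (R' : Multiset (G → ℝ)),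
      M' = ∑ b, y b + R' ∧
      (∀ k b, β' b k + (y b).sum k ≤ β' (μ k) k + (y (μ k)).sum k) ∧
      (∀ k b, hi * R.sum k ≤ U k - β' b k →
        hi / 2 * R.sum k ≤ (β' (μ k) k + (y (μ k)).sum k) - (β' b k + (y b).sum k)))
      (fixPCost (Fintype.card G)) R := by
  have hhi0 : 0 < hi := by rw [hhi]; positivity
  have hhi1 : hi ≤ 1 := by
    rw [hhi, div_le_one (by positivity)]
    exact one_le_pow₀ (by norm_num)
  have hep := eps_pos (Fintype.card G)
  have hep1 := eps_le_one (Fintype.card G)
  have hlo0 : 0 < lo := by rw [hlo]; positivity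
  have hlohi : 16 * lo ≤ hi := by
    rw [hlo]
    have : eps (Fintype.card G) * hi ≤ 1 * hi := mul_le_mul_of_nonneg_right hep1 hhi0.le
    linarith
  have hcost : nsCost (Fintype.card G) (e + 4) + polishCost (Fintype.card G) ≤
      fixPCost (Fintype.card G) := by
    unfold fixPCost nsCost
    gcongr
  refine Force.mono ?_ hcost (fun _ h => h)
  refine (nearShare (G := G) (e + 4) (hi / 4) (by positivity) (by linarith) hR).bind_inv hR ?_
  rintro M' ⟨Z, W, rfl, hZ⟩ hNN -
  obtain ⟨hNZ, -⟩ := nn_add.1 hNN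
  have herr : ∀ k, R.sum k / 2 ^ (e + 4) = hi / 16 * R.sum k := by
    intro k
    rw [hhi, pow_add]
    field_simp
    norm_num
  have hZl : ∀ k, 3 / 16 * hi * R.sum k ≤ Z.sum k := by
    intro k
    have h1 := (abs_le.1 (hZ k)).1
    rw [herr] at h1
    linarith
  have hZu : ∀ k, Z.sum k ≤ 5 / 16 * hi * R.sum k := by
    intro k
    have h1 := (abs_le.1 (hZ k)).2
    rw [herr] at h1
    linarith
  have hlr : ∀ k, 16 * (lo * R.sum k) ≤ hi * R.sum k := by
    intro k
    have := mul_le_mul_of_nonneg_right hlohi (hr k).le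
    linarith
  have hlr0 : ∀ k, 0 < lo * R.sum k := fun k => mul_pos hlo0 (hr k)
  have hpol : Pol (fun k b => U k - β' b k < 2 * lo * R.sum k) β' (fun k => Z.sum k)
      (eps (Fintype.card G)) :=
    { pm := ⟨1, fun k => by
        have h1 := hown k
        have h2 := hlr0 k
        simp only [Equiv.Perm.coe_one, id_eq]
        linarith⟩
      far := by
        intro k b b' hb hb'
        have h1 : hi * R.sum k ≤ U k - β' b k := by
          rcases hgap k b with h | h
          · exact absurd h hb
          · exact h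
        have h2 := hZu k
        have h3 := hlr k
        have h4 := hlr0 k
        show β' b k + Z.sum k ≤ β' b' k
        linarith
      near := by
        intro k b b' hb hb'
        have h1 := hU k b
        have h2 := hU k b'
        have h3 : 2 * lo * R.sum k ≤ eps (Fintype.card G) * Z.sum k := by
          have h4 := mul_le_mul_of_nonneg_left (hZl k) hep.le
          have h5 : 0 ≤ eps (Fintype.card G) * hi * R.sum k :=
            mul_nonneg (mul_nonneg hep.le hhi0.le) (hr k).le
          have h6 : 2 * lo * R.sum k = 2 / 16 * (eps (Fintype.card G) * hi * R.sum k) := by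
            rw [hlo]; ring
          rw [h6]
          linarith
        show |β' b k - β' b' k| ≤ eps (Fintype.card G) * Z.sum k
        rw [abs_le]
        constructor <;> linarith }
  have h1 := ((polish hNZ hpol).inv hNZ).frame W
  refine h1.mono le_rfl ?_
  rintro M' ⟨M₁, ⟨⟨y, R', μ, rfl, hμ, hy⟩, hNN', hsum⟩, rfl⟩
  obtain ⟨hNy, hNR⟩ := nn_add.1 hNN'
  refine ⟨μ, y, R' + W, by rw [add_assoc], hy, ?_⟩
  intro k b hkb
  have h2 : (y b).sum k ≤ Z.sum k := by
    have h3 := le_sum_apply hNy b k
    have h4 := nonneg hNR k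
    have h5 : (∑ b, y b).sum k + R'.sum k = Z.sum k := by rw [← sum_add_apply, hsum]
    linarith
  have h3 := nonneg (nn_sum hNy (μ k)) k
  have h4 := hμ k
  have h5 := hZu k
  have h6 := hlr k
  have h7 := hlr0 k
  linarith

end H11.Cake
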