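import Pool.Agent.H11.Cake.Ties
import Pool.Agent.H11.Cake.Shares

/-!
# First half of a level: exact ties   (JOB PC-LEVEL1)

`n = card G`, `q = 2^{-(3n+6)}`, `e = 2^{-(3n+10)} = q/16`, `ε = eps n = q/4`, `z = M.sum`.
PROOF.  `shares` with `ι = (G ⊕ G) ⊕ Unit`, `L = 3 n + 10` and the shares
`o b = (n - d b) q` for `inl (inl b)` (part `O b`), `2 (d b) q` for `inl (inr b)` (part `B b`), `1/2`
for `inr ()` (part `Z`), rest `W₀`.  The sum of the shares is `≤ 2 n^2 q + 1/2 ≤ 1` (`n ≤ 2^n`,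
`d b < n`).  Then `ties` for `∑ b, B b` (frame: the rest) with the values
`a₁ b k = a b k + (O b).sum k`.  Its hypotheses for `b` with `0 < d b`, `ℓ = l b`, `E ℓ b`,
`E ℓ (p b)`, `d (p b) + 1 ≤ d b`:
* `hlo`: `(O (p b) - O b)(ℓ) ≥ ((d b - d (p b)) q - 2 e) z ≥ (q - 2 e) z ≥ ε z ≥ (a b - a (p b))(ℓ)`.
* `hhi`: `a₁ (p b) + B (p b) - a₁ b - B b ≤ (ε + 2e + (d b - d (p b)) q + 2 e + 2 d (p b) q - 2 d b q) z
  = (ε + 4 e - (d b - d (p b)) q) z ≤ (ε + 4e - q) z = - q/2 .. ≤ 0`.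
At the end `y b = O b + T b`, `Z = Z`, `W = ∑ W b + W₀`.
* first property: `(a b + y b) k + Z k ≤ a b k + M.sum k ≤ a b' k ≤ (a b' + y b') k` (`y b + Z` is a
  part of the position, whose sum is `M.sum`; `h.far`).
* second: `|(a b + y b) - (a b' + y b')| ≤ (ε + (n q + 2 e) + (2 n q + e)) z ≤ 4 n q z`
  (`o b ∈ [0, n q]`, `0 ≤ T b ≤ B b ≤ (2 n q + e) z`), and `Z.sum ≥ (1/2 - e) z ≥ z/4`; so
  `≤ 16 n q Z.sum ≤ Z.sum / 2^(2n+2)` since `16 n q ≤ 2^(4+n-3n-6)`.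
* third: `ties`.
Costs: `card ι = 2 n + 1`.
-/

namespace H11.Cake

open H85.Cake

variable {G : Type}

private theorem l1_lo {q z n d d' a a' O O' : ℝ} (hz : 0 ≤ z) (hq : 0 ≤ q) (hd : d' + 1 ≤ d)
    (h1 : |a - a'| ≤ q / 4 * z) (h2 : |O - (n - d) * q * z| ≤ q / 16 * z)
    (h3 : |O' - (n - d') * q * z| ≤ q / 16 * z) : a + O ≤ a' + O' := by
  have h4 : 0 ≤ (d - d' - 1) * (q * z) := mul_nonneg (by linarith) (mul_nonneg hq hz)
  have h5 : 0 ≤ q * z := mul_nonneg hq hz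
  rw [abs_le] at h1 h2 h3
  obtain ⟨a1, a2⟩ := h1
  obtain ⟨b1, b2⟩ := h2
  obtain ⟨c1, c2⟩ := h3
  nlinarith

private theorem l1_hi {q z n d d' a a' O O' B B' : ℝ} (hz : 0 ≤ z) (hq : 0 ≤ q)
    (hd : d' + 1 ≤ d) (h1 : |a - a'| ≤ q / 4 * z) (h2 : |O - (n - d) * q * z| ≤ q / 16 * z)
    (h3 : |O' - (n - d') * q * z| ≤ q / 16 * z) (h4 : |B - 2 * d * q * z| ≤ q / 16 * z)
    (h5 : |B' - 2 * d' * q * z| ≤ q / 16 * z) : (a' + O') + B' ≤ (a + O) + B := by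
  have h6 : 0 ≤ (d - d' - 1) * (q * z) := mul_nonneg (by linarith) (mul_nonneg hq hz)
  have h7 : 0 ≤ q * z := mul_nonneg hq hz
  rw [abs_le] at h1 h2 h3 h4 h5
  obtain ⟨a1, a2⟩ := h1
  obtain ⟨b1, b2⟩ := h2
  obtain ⟨c1, c2⟩ := h3
  obtain ⟨d1, d2⟩ := h4
  obtain ⟨e1, e2⟩ := h5
  nlinarith

private theorem l1_near {q z n d d' a a' O O' B B' T T' Z : ℝ} (hz : 0 ≤ z) (hq : 0 ≤ q)
    (hq1 : q ≤ 1) (hn : 1 ≤ n) (hd0 : 0 ≤ d) (hd0' : 0 ≤ d') (hdn : d ≤ n) (hdn' : d' ≤ n)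
    (h1 : |a - a'| ≤ q / 4 * z) (h2 : |O - (n - d) * q * z| ≤ q / 16 * z)
    (h3 : |O' - (n - d') * q * z| ≤ q / 16 * z) (h4 : |B - 2 * d * q * z| ≤ q / 16 * z)
    (h5 : |B' - 2 * d' * q * z| ≤ q / 16 * z) (hO : 0 ≤ O) (hO' : 0 ≤ O') (hT : 0 ≤ T)
    (hT' : 0 ≤ T') (hTB : T ≤ B) (hTB' : T' ≤ B') (hZ : |Z - 1 / 2 * z| ≤ q / 16 * z) :
    |(a + (O + T)) - (a' + (O' + T'))| ≤ 16 * n * q * Z := by
  have h7 : 0 ≤ q * z := mul_nonneg hq hz
  have h8 : 0 ≤ (n - 1) * (q * z) := mul_nonneg (by linarith) h7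
  have h9 : 0 ≤ d * (q * z) := mul_nonneg hd0 h7
  have h10 : 0 ≤ d' * (q * z) := mul_nonneg hd0' h7
  have h11 : 0 ≤ (n - d) * (q * z) := mul_nonneg (by linarith) h7
  have h12 : 0 ≤ (n - d') * (q * z) := mul_nonneg (by linarith) h7
  have h13 : q * z ≤ 1 * z := mul_le_mul_of_nonneg_right hq1 hz
  rw [abs_le] at h1 h2 h3 h4 h5 hZ
  obtain ⟨a1, a2⟩ := h1
  obtain ⟨b1, b2⟩ := h2
  obtain ⟨c1, c2⟩ := h3
  obtain ⟨d1, d2⟩ := h4
  obtain ⟨e1, e2⟩ := h5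
  have h14 : z / 4 ≤ Z := by linarith [hZ.1]
  have h15 : n * q * (z / 4) ≤ n * q * Z :=
    mul_le_mul_of_nonneg_left h14 (mul_nonneg (by linarith) hq)
  have h16 : |(a + (O + T)) - (a' + (O' + T'))| ≤ 4 * (n * q * z) := by
    rw [abs_le]
    constructor
    · linarith
    · linarith
  linarith

private theorem l1_q2 (n : ℕ) : 16 * (n : ℝ) * (1 / 2 ^ (3 * n + 6)) ≤ 1 / 2 ^ (2 * n + 2) := by
  have h1 := le_two_pow n
  have h2 : (2:ℝ) ^ (3 * n + 6) = 16 * 2 ^ n * 2 ^ (2 * n + 2) := by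
    have : 3 * n + 6 = 4 + n + (2 * n + 2) := by ring
    rw [this, pow_add, pow_add]
    norm_num
  rw [h2]
  have h3 : (0:ℝ) < 2 ^ n := by positivity
  have h4 : (0:ℝ) < 2 ^ (2 * n + 2) := by positivity
  rw [mul_one_div, div_le_div_iff₀ (by positivity) h4]
  nlinarith

private theorem l1_sum (n : ℕ) : 2 * (n : ℝ) ^ 2 * (1 / 2 ^ (3 * n + 6)) ≤ 1 / 2 := by
  have h1 := le_two_pow n
  have h0 : (0:ℝ) ≤ n := Nat.cast_nonneg n
  have h5 : (n : ℝ) ^ 2 ≤ (2 ^ n) ^ 2 := pow_le_pow_left₀ h0 h1 2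
  have h6 : (1:ℝ) ≤ 2 ^ n := one_le_pow₀ (by norm_num)
  have h2 : (2:ℝ) ^ (3 * n + 6) = 64 * (2 ^ n * (2 ^ n) ^ 2) := by
    have : 3 * n + 6 = 6 + (n + n * 2) := by ring
    rw [this, pow_add, pow_add, pow_mul]
    norm_num
  rw [h2]
  have h3 : (0:ℝ) < 2 ^ n := by positivity
  rw [mul_one_div, div_le_div_iff₀ (by positivity) (by norm_num)]
  nlinarith [mul_nonneg (sub_nonneg.2 h6) (sq_nonneg ((2:ℝ) ^ n))]

theorem level1 [Fintype G] [DecidableEq G] {E : G → G → Prop} {a : G → G → ℝ}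
    {M : Multiset (G → ℝ)} (hM : NN M)
    (h : Pol E a (fun k => M.sum k) (eps (Fintype.card G)))
    {d : G → ℕ} {p l root : G → G} (hF : IsForest E d p l root) :
    Force (fun M' => ∃ (y : G → Multiset (G → ℝ)) (Z W : Multiset (G → ℝ)),
      M' = ∑ b, y b + Z + W ∧
      (∀ k b b', ¬ E k b → E k b' →
        (a b k + (y b).sum k) + Z.sum k ≤ a b' k + (y b').sum k) ∧
      (∀ k b b', E k b → E k b' →
        |(a b k + (y b).sum k) - (a b' k + (y b').sum k)| ≤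
          Z.sum k / 2 ^ (2 * Fintype.card G + 2)) ∧
      (∀ b, 0 < d b →
        a b (l b) + (y b).sum (l b) = a (p b) (l b) + (y (p b)).sum (l b)))
      (level1Cost (Fintype.card G)) M := by
  set n := Fintype.card G with hn
  set q : ℝ := 1 / 2 ^ (3 * n + 6) with hq
  have hq0 : 0 ≤ q := by positivity
  have hq1 : q ≤ 1 := by
    rw [hq, div_le_one (by positivity)]
    exact one_le_pow₀ (by norm_num)
  have he : ∀ x : ℝ, x / 2 ^ (3 * n + 10) = q / 16 * x := by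
    intro x
    have : 3 * n + 10 = (3 * n + 6) + 4 := by ring
    rw [this, pow_add, hq]
    field_simp
    norm_num
  have hε : eps n = q / 4 := by
    have : 3 * n + 8 = (3 * n + 6) + 2 := by ring
    unfold eps
    rw [this, pow_add, hq]
    field_simp
    norm_num
  have hdn : ∀ b, (d b : ℝ) ≤ n := fun b => by exact_mod_cast (hF.lt b).le
  have hd0 : ∀ b, (0:ℝ) ≤ d b := fun b => Nat.cast_nonneg _
  have hdp : ∀ b, 0 < d b → (d (p b) : ℝ) + 1 ≤ d b := fun b hb => by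
    exact_mod_cast (hF.par b hb).1
  have hz : ∀ k, 0 ≤ M.sum k := nonneg hM
  -- the shares
  set sh : (G ⊕ G) ⊕ Unit → ℝ := Sum.elim (Sum.elim (fun b => ((n:ℝ) - d b) * q)
    (fun b => 2 * (d b : ℝ) * q)) (fun _ => 1 / 2) with hsh
  have hsh0 : ∀ i, 0 ≤ sh i := by
    rintro ((b | b) | u)
    · exact mul_nonneg (by linarith [hdn b]) hq0
    · exact mul_nonneg (by linarith [hd0 b]) hq0
    · simp [hsh]
  have hsh1 : ∑ i, sh i ≤ 1 := by
    rw [Fintype.sum_sum_type, Fintype.sum_sum_type]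
    simp only [hsh, Sum.elim_inl, Sum.elim_inr, Finset.univ_unique, Finset.sum_singleton]
    rw [← Finset.sum_add_distrib]
    have h1 : ∀ b ∈ (Finset.univ : Finset G), ((n:ℝ) - d b) * q + 2 * (d b : ℝ) * q ≤ 2 * n * q := by
      intro b _
      have := mul_le_mul_of_nonneg_right (hdn b) hq0
      linarith
    have h2 := Finset.sum_le_sum h1
    rw [Finset.sum_const, Finset.card_univ, ← hn, nsmul_eq_mul] at h2
    have h3 := l1_sum n
    rw [← hq] at h3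
    linarith
  have h1 := shares (3 * n + 10) sh hsh0 hsh1 hM
  have hcard : Fintype.card ((G ⊕ G) ⊕ Unit) = 2 * n + 1 := by
    rw [Fintype.card_sum, Fintype.card_sum, Fintype.card_unit, ← hn]
    ring
  rw [hcard] at h1
  unfold level1Cost
  refine h1.bind_inv hM ?_
  rintro M' ⟨D, W₀, rfl, hD, -⟩ hNN hsum
  have hNND : ∀ i, NN (D i) := nn_sum (nn_add.1 hNN).1
  have hO : ∀ b k, |(D (Sum.inl (Sum.inl b))).sum k - ((n:ℝ) - d b) * q * M.sum k| ≤
      q / 16 * M.sum k := fun b k => by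
    rw [← he]; exact hD (Sum.inl (Sum.inl b)) k
  have hB : ∀ b k, |(D (Sum.inl (Sum.inr b))).sum k - 2 * (d b : ℝ) * q * M.sum k| ≤
      q / 16 * M.sum k := fun b k => by
    rw [← he]; exact hD (Sum.inl (Sum.inr b)) k
  have hZ : ∀ k, |(D (Sum.inr ())).sum k - 1 / 2 * M.sum k| ≤ q / 16 * M.sum k := fun k => by
    rw [← he]; exact hD (Sum.inr ()) k
  have hnear : ∀ k b b', E k b → E k b' → |a b k - a b' k| ≤ q / 4 * M.sum k := by
    intro k b b' hb hb'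
    rw [← hε]
    exact h.near k b b' hb hb'
  have h2 := (ties (fun b k => a b k + (D (Sum.inl (Sum.inl b))).sum k)
    (fun b => D (Sum.inl (Sum.inr b))) (fun b => hNND _) d p l (fun b hb => (hF.par b hb).1)
    (by
      intro b hb
      obtain ⟨-, e1, e2, -⟩ := hF.par b hb
      exact l1_lo (hz _) hq0 (hdp b hb) (hnear _ _ _ e1 e2) (hO b _) (hO (p b) _))
    (by
      intro b hb
      obtain ⟨-, e1, e2, -⟩ := hF.par b hb
      exact l1_hi (hz _) hq0 (hdp b hb) (hnear _ _ _ e1 e2) (hO b _) (hO (p b) _) (hB b _)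
        (hB (p b) _))).frame
      (∑ b, D (Sum.inl (Sum.inl b)) + D (Sum.inr ()) + W₀)
  have e1 : ∑ b, D (Sum.inl (Sum.inr b)) + (∑ b, D (Sum.inl (Sum.inl b)) + D (Sum.inr ()) + W₀) =
      ∑ i, D i + W₀ := by
    rw [Fintype.sum_sum_type, Fintype.sum_sum_type]
    simp only [Finset.univ_unique, Finset.sum_singleton]
    rw [show (default : Unit) = () from rfl]
    abel
  rw [e1] at h2
  refine h2.mono_inv hNN le_rfl ?_
  rintro M'' ⟨M₁, ⟨T, W, rfl, hTW, htie⟩, rfl⟩ hNN2 hsum2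
  have hNTW : ∀ b, NN (T b) ∧ NN (W b) := fun b => nn_add.1 (nn_sum (nn_add.1 hNN2).1 b)
  have hTk : ∀ b k, 0 ≤ (T b).sum k := fun b k => nonneg (hNTW b).1 k
  have hWk : ∀ b k, 0 ≤ (W b).sum k := fun b k => nonneg (hNTW b).2 k
  have hTB : ∀ b k, (T b).sum k ≤ (D (Sum.inl (Sum.inr b))).sum k := fun b k => by
    have h3 := congrFun (hTW b) k
    rw [Pi.add_apply] at h3
    have := hWk b k
    linarith
  have hy : ∀ b k, (D (Sum.inl (Sum.inl b)) + T b).sum k =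
      (D (Sum.inl (Sum.inl b))).sum k + (T b).sum k := fun b k => sum_add_apply _ _ k
  have eM : ∑ b, (T b + W b) + (∑ b, D (Sum.inl (Sum.inl b)) + D (Sum.inr ()) + W₀) =
      ∑ b, (D (Sum.inl (Sum.inl b)) + T b) + D (Sum.inr ()) + (∑ b, W b + W₀) := by
    rw [Finset.sum_add_distrib, Finset.sum_add_distrib]
    abel
  rw [eM] at hNN2 hsum2
  refine ⟨fun b => D (Sum.inl (Sum.inl b)) + T b, D (Sum.inr ()), ∑ b, W b + W₀, eM, ?_, ?_, ?_⟩
  · intro k b b' hb hb'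
    have h3 := h.far k b b' hb hb'
    have hA := (nn_add.1 hNN2)
    have hA1 := (nn_add.1 hA.1)
    have h4 := le_sum_apply hA1.1 b k
    have h5 : 0 ≤ (∑ b, W b + W₀).sum k := nonneg hA.2 k
    have h6 := congrFun (hsum2.trans hsum) k
    rw [Multiset.sum_add, Multiset.sum_add, Pi.add_apply, Pi.add_apply] at h6
    have h7 : 0 ≤ (D (Sum.inl (Sum.inl b')) + T b').sum k := nonneg (nn_sum hA1.1 b') k
    simp only at h3 ⊢
    linarith
  · intro k b b' hb hb'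
    simp only
    rw [hy, hy]
    have hn1 : (1:ℝ) ≤ n := by
      have : 1 ≤ n := by
        rw [hn]
        exact Fintype.card_pos_iff.2 ⟨k⟩
      exact_mod_cast this
    have h3 := l1_near (hz k) hq0 hq1 hn1 (hd0 b) (hd0 b') (hdn b) (hdn b') (hnear k b b' hb hb')
      (hO b k) (hO b' k) (hB b k) (hB b' k) (nonneg (hNND _) k) (nonneg (hNND _) k) (hTk b k)
      (hTk b' k) (hTB b k) (hTB b' k) (hZ k)
    refine h3.trans ?_
    have h4 := l1_q2 n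
    rw [← hq] at h4
    have h5 : 0 ≤ (D (Sum.inr ())).sum k := nonneg (hNND _) k
    calc 16 * (n:ℝ) * q * (D (Sum.inr ())).sum k ≤ 1 / 2 ^ (2 * n + 2) * (D (Sum.inr ())).sum k :=
          mul_le_mul_of_nonneg_right h4 h5
      _ = _ := by ring
  · intro b hb
    have h3 := htie b hb
    simp only
    rw [hy, hy]
    linarith

end H11.Cake
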