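import Pool.Agent.H11.Cake.PhC
import Pool.Agent.H85.Cake.Loop

/-!
# The main loop (polynomial version)

As `H85/Cake/Loop.lean`.
-/

namespace H11.Cake

open H85.Cake

theorem costP_mono {a b : ℕ} (h : a ≤ b) : costP a ≤ costP b := by
  induction h with
  | refl => exact le_rfl
  | step h ih => exact ih.trans (by simp [costP])

theorem loopP (hC : CoreHyp) {G : Type} [Fintype G] [DecidableEq G] [Nonempty G]
    (h2 : 2 ≤ Fintype.card G) (C' : ℕ)
    (ih : ∀ S : Finset G, S.Nonempty → S ≠ Finset.univ → ∀ M : Multiset ({x // x ∈ S} → ℝ),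
      NN M → Force EFdiv C' M) (m : ℕ) : ∀ (β : G → G → ℝ) (R : Multiset (G → ℝ)),
      (∀ k b, β b k ≤ β k k) → NN R →
      Fintype.card G ^ 2 ≤ (Dset β (fun k => R.sum k)).card + m →
      Force (Compl β) (m * phasePCost (Fintype.card G) + C') R := by
  induction m with
  | zero =>
    intro β R _ _ h
    have := Dset_card_lt β (fun k => R.sum k)
    omega
  | succ m ihm =>
    intro β R hef hR hcard
    by_cases hA : ∃ S : Finset G, S.Nonempty ∧ S ≠ Finset.univ ∧
        ∀ k, k ∉ S → ∀ l ∈ S, R.sum k ≤ β k k - β l k
    · obtain ⟨S, hS1, hS2, hS3⟩ := hA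
      have h1 := EFdiv.compl_of_dominance hR hef S
        (fun k hk b hb => by linarith [hS3 k hk b hb])
        (ih S hS1 hS2 (R.map (fun v => v ∘ (Subtype.val : {x // x ∈ S} → G))) (by
          intro v hv
          obtain ⟨u, hu, rfl⟩ := Multiset.mem_map.1 hv
          exact fun a => hR u hu a.1))
      exact h1.mono (by omega) (fun _ h => h)
    · push Not at hA
      have hph := phaseP hC h2 hef hR hA
      have h3 := hph.bind_inv (N' := m * phasePCost (Fintype.card G) + C')
        (Q := Compl β) hR (by
        rintro M' ⟨τ, y, R', rfl, hy, hD⟩ hNN -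
        have hR' : NN R' := fun v hv => hNN v (Multiset.mem_add.2 (Or.inr hv))
        have h4 := ihm (fun k a => β (τ k) a + (y k).sum a) R' (fun k b => hy k b) hR' (by omega)
        have h5 := h4.frame (∑ k, y k)
        rw [add_comm R'] at h5
        refine h5.mono le_rfl ?_
        rintro M'' ⟨M₁, hM₁, rfl⟩
        rw [add_comm]
        exact hM₁.transfer τ y fun k a => rfl)
      refine h3.mono ?_ (fun _ h => h)
      have : (m + 1) * phasePCost (Fintype.card G) =
        m * phasePCost (Fintype.card G) + phasePCost (Fintype.card G) := by ring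
      omega

theorem mainP (hC : CoreHyp) (n : ℕ) :
    ∀ (G : Type) [Fintype G] [DecidableEq G] [Nonempty G], Fintype.card G = n →
      ∀ M : Multiset (G → ℝ), NN M → Force EFdiv (costP n) M := by
  induction n using Nat.strong_induction_on with
  | _ n ih =>
    intro G _ _ _ hn M hM
    rcases Nat.lt_or_ge n 2 with h | h
    · have hpos : 0 < Fintype.card G := Fintype.card_pos
      have h1 : Fintype.card G = 1 := by omega
      have hsub : Subsingleton G := Fintype.card_le_one_iff_subsingleton.1 h1.le
      refine .done ⟨fun _ => M, ?_, fun k l => le_rfl⟩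
      rw [Finset.sum_const, Finset.card_univ, h1, one_nsmul]
    · obtain ⟨n', rfl⟩ : ∃ n', n = n' + 1 := ⟨n - 1, by omega⟩
      have h3 := loopP hC (G := G) (by omega) (costP n') (by
        intro S hS1 hS2 M' hM'
        have : Nonempty {x // x ∈ S} := ⟨⟨hS1.choose, hS1.choose_spec⟩⟩
        have hc : Fintype.card {x // x ∈ S} < n' + 1 := by
          rw [← hn, Fintype.card_coe]
          exact Finset.card_lt_univ_of_notMem (s := S)
            (x := (Finset.exists_mem_notMem_of_card_lt_card (s := S) (t := Finset.univ) (by
              have := Finset.card_lt_card (Finset.ssubset_univ_iff.2 hS2)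
              exact this)).choose)
            (Finset.exists_mem_notMem_of_card_lt_card (s := S) (t := Finset.univ) (by
              have := Finset.card_lt_card (Finset.ssubset_univ_iff.2 hS2)
              exact this)).choose_spec.2
        exact (ih _ hc {x // x ∈ S} rfl M' hM').mono (costP_mono (by omega)) (fun _ h => h))
        ((n' + 1) ^ 2) (fun _ _ => 0) M (fun _ _ => le_rfl) hM (by rw [hn]; omega)
      rw [hn] at h3
      exact h3.mono le_rfl (fun _ h => h.efdiv)

end H11.Cake
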