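import Pool.Agent.H11.Cake.Dual
import Pool.Agent.H11.Cake.Basic

/-!
# The offline step of a level   (JOB PC-OFFLINE)

`n = card G`, `D = 1 / 2^(2n+2)`.
PROOF.  `W k b = a b k / y k` if `y k ≠ 0`, `W k b = 0` if `y k = 0`.  By `hnear`
`|W k b - W k b'| ≤ D` on `E`.  `dual` gives `μ, τ, F` with `0 ≤ τ b ≤ n D`; `∑ τ b ≤ n^2 D ≤ 1/4`
(`n ≤ 2^n`).  Slack `s k b = F k - W k b - τ b ≥ 0` on `E`, `= 0` for `b = μ k`.  `gap` for
`ι = G × G` (`card = n^2`) applied to `s` (all pairs) and `th n` gives `α ≤ n^2` with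
`s k b ≤ th n (α+1)` or `th n α < s k b`.  `E' k b := E k b ∧ s k b ≤ th n (α+1)`.
* `E' k (μ k)` (`s = 0`), so `μ` is a perfect matching for `E'`.
* near: for `y k > 0`: the difference is `(s k b' - s k b) * y k`, both slacks in
  `[0, th n (α+1)]`; for `y k = 0`: `a b k = a b' k` by `hnear`.
* far: for `y k > 0`: the difference is `(s k b - s k b') * y k ≥ (th n α - th n (α+1)) * y k`; for
  `y k = 0`: `a b k = a b' k` by `hnear`.
* `E' ≠ E`: otherwise `s k b ≤ θ := th n (α+1)` for all `E k b`.  For `0 < d b`, `ℓ = l b`: `E ℓ b`,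
  `E ℓ (p b)`, `a b ℓ = a (p b) ℓ` so `W ℓ b = W ℓ (p b)` and
  `|τ b - τ (p b)| = |s ℓ (p b) - s ℓ b| ≤ θ`.  `IsForest.dist_root`: `|τ b - τ (root b)| ≤ n θ`.
  For `i, b, b'` from `hstar`: `root b = root b'`, so `|τ b - τ b'| ≤ 2 n θ` and
  `D = |W i b - W i b'| = |(τ b' + s i b') - (τ b + s i b)| ≤ (2 n + 1) θ`, but
  `(2n+1) θ ≤ (2n+1) 2^{-(3n+5)-(3n+12)} < D`: contradiction.
-/

namespace H11.Cake

variable {G : Type}

/-- quotient of the values -/
noncomputable def offW (a : G → G → ℝ) (y : G → ℝ) (k b : G) : ℝ :=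
  if y k = 0 then 0 else a b k / y k

theorem offW_mul {a : G → G → ℝ} {y : G → ℝ} {k : G} (h : y k ≠ 0) (b : G) :
    offW a y k b * y k = a b k := by
  unfold offW
  rw [if_neg h, div_mul_cancel₀ _ h]

theorem offW_congr {a : G → G → ℝ} {y : G → ℝ} {k b b' : G} (h : a b k = a b' k) :
    offW a y k b = offW a y k b' := by
  unfold offW
  rw [h]

theorem off_small (n α : ℕ) : (2 * (n : ℝ) + 1) * th n (α + 1) < 1 / 2 ^ (2 * n + 2) := by
  have h1 : th n (α + 1) ≤ th n 1 := th_anti n (by omega)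
  have h2 : (2 * (n : ℝ) + 1) ≤ 3 * 2 ^ n := by
    have := le_two_pow n
    have h3 : (1 : ℝ) ≤ 2 ^ n := one_le_pow₀ (by norm_num)
    linarith
  have h4 : (2 * (n : ℝ) + 1) * th n (α + 1) ≤ 3 * 2 ^ n * th n 1 :=
    mul_le_mul h2 h1 (th_pos _ _).le (by positivity)
  refine h4.trans_lt ?_
  unfold th
  rw [mul_one_div, div_lt_div_iff₀ (by positivity) (by positivity)]
  have h5 : (3 : ℝ) * 2 ^ n * 2 ^ (2 * n + 2) < 2 ^ (3 * n + 4) := by
    have h6 : (2 : ℝ) ^ (3 * n + 4) = 2 ^ n * 2 ^ (2 * n + 2) * 4 := by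
      rw [show 3 * n + 4 = n + (2 * n + 2) + 2 by ring, pow_add, pow_add]
      norm_num
    rw [h6]
    have h7 : (0 : ℝ) < 2 ^ n * 2 ^ (2 * n + 2) := by positivity
    nlinarith
  have h8 : (2 : ℝ) ^ (3 * n + 4) ≤ 1 * 2 ^ (3 * n + 5 + (3 * n + 12) * 1) := by
    rw [one_mul]
    exact pow_le_pow_right₀ (by norm_num) (by omega)
  linarith

theorem off_sum (n : ℕ) : (n : ℝ) * (n * (1 / 2 ^ (2 * n + 2))) ≤ 1 / 4 := by
  have h1 := le_two_pow n
  have h2 : (n : ℝ) * n ≤ 2 ^ n * 2 ^ n := mul_le_mul h1 h1 (by positivity) (by positivity)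
  have h3 : (2 : ℝ) ^ (2 * n + 2) = 2 ^ n * 2 ^ n * 4 := by
    rw [show 2 * n + 2 = n + n + 2 by ring, pow_add, pow_add]
    norm_num
  rw [← mul_assoc, mul_one_div, h3, div_le_div_iff₀ (by positivity) (by norm_num)]
  linarith

theorem offline [Fintype G] [DecidableEq G] {E : G → G → Prop} {a : G → G → ℝ} {y : G → ℝ}
    {d : G → ℕ} {p l root : G → G} (hF : IsForest E d p l root) (hy : ∀ k, 0 ≤ y k)
    (hpm : ∃ σ : Equiv.Perm G, ∀ k, E k (σ k))
    (hnear : ∀ k b b', E k b → E k b' → |a b k - a b' k| ≤ y k / 2 ^ (2 * Fintype.card G + 2))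
    (htie : ∀ b, 0 < d b → a b (l b) = a (p b) (l b))
    (hstar : ∃ i b b', E i b ∧ E i b' ∧ 0 < y i ∧
      |a b i - a b' i| = y i / 2 ^ (2 * Fintype.card G + 2)) :
    ∃ (α : ℕ) (τ : G → ℝ) (E' : G → G → Prop), α ≤ Fintype.card G ^ 2 ∧ (∀ b, 0 ≤ τ b) ∧
      ∑ b, τ b ≤ 1 / 4 ∧ (∀ k b, E' k b → E k b) ∧ (∃ k b, E k b ∧ ¬ E' k b) ∧
      (∃ σ : Equiv.Perm G, ∀ k, E' k (σ k)) ∧
      (∀ k b b', E' k b → E' k b' → |(a b k + τ b * y k) - (a b' k + τ b' * y k)| ≤
        th (Fintype.card G) (α + 1) * y k) ∧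
      (∀ k b b', E k b → ¬ E' k b → E' k b' →
        a b k + τ b * y k + (th (Fintype.card G) α - th (Fintype.card G) (α + 1)) * y k ≤
          a b' k + τ b' * y k) := by
  set n := Fintype.card G with hn
  have hD0 : (0 : ℝ) < 1 / 2 ^ (2 * n + 2) := by positivity
  have hW : ∀ k b b', E k b → E k b' → |offW a y k b - offW a y k b'| ≤ 1 / 2 ^ (2 * n + 2) := by
    intro k b b' h1 h2
    by_cases h0 : y k = 0
    · unfold offW
      rw [if_pos h0, if_pos h0, sub_self, abs_zero]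
      exact hD0.le
    · have hpos : 0 < y k := lt_of_le_of_ne (hy k) (Ne.symm h0)
      have h3 := hnear k b b' h1 h2
      rw [← offW_mul (a := a) h0 b, ← offW_mul (a := a) h0 b', ← sub_mul, abs_mul, abs_of_pos hpos] at h3
      have h4 : |offW a y k b - offW a y k b'| * y k ≤ 1 / 2 ^ (2 * n + 2) * y k := by
        refine h3.trans (le_of_eq ?_)
        ring
      exact le_of_mul_le_mul_right h4 hpos
  obtain ⟨μ, τ, F, hμ, hτ, hFE, hFμ⟩ := dual E (offW a y) (1 / 2 ^ (2 * n + 2)) hpm hW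
  -- the slacks
  obtain ⟨s, hs⟩ : ∃ s : G → G → ℝ, ∀ k b, s k b = F k - offW a y k b - τ b :=
    ⟨fun k b => F k - offW a y k b - τ b, fun _ _ => rfl⟩
  have hs0 : ∀ k b, E k b → 0 ≤ s k b := by
    intro k b h
    rw [hs]
    linarith [hFE k b h]
  have hsμ : ∀ k, s k (μ k) = 0 := by
    intro k
    rw [hs]
    linarith [hFμ k]
  have hval : ∀ k b, y k ≠ 0 → a b k + τ b * y k = (F k - s k b) * y k := by
    intro k b h
    rw [hs, ← offW_mul (a := a) h b]
    ring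
  have heq : ∀ k b b', y k = 0 → E k b → E k b' → a b k = a b' k := by
    intro k b b' h0 h1 h2
    have h3 := hnear k b b' h1 h2
    rw [h0, zero_div] at h3
    exact sub_eq_zero.1 (abs_eq_zero.1 (le_antisymm h3 (abs_nonneg _)))
  obtain ⟨α, hα, hgap⟩ := gap (ι := G × G) (fun q => s q.1 q.2) (th n) (fun a b h => th_anti n h)
  refine ⟨α, τ, fun k b => E k b ∧ s k b ≤ th n (α + 1), ?_, fun b => (hτ b).1, ?_,
    fun k b h => h.1, ?_, ⟨μ, fun k => ⟨hμ k, ?_⟩⟩, ?_, ?_⟩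
  · rw [Fintype.card_prod] at hα
    rw [pow_two]
    exact hα
  · calc ∑ b, τ b ≤ ∑ _b : G, (n : ℝ) * (1 / 2 ^ (2 * n + 2)) :=
          Finset.sum_le_sum fun b _ => (hτ b).2
      _ = (n : ℝ) * (n * (1 / 2 ^ (2 * n + 2))) := by
          rw [Finset.sum_const, Finset.card_univ, nsmul_eq_mul]
      _ ≤ 1 / 4 := off_sum n
  · by_contra hcon
    have hsθ : ∀ k b, E k b → s k b ≤ th n (α + 1) := by
      intro k b h
      by_contra h2
      exact hcon ⟨k, b, h, fun h3 => h2 h3.2⟩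
    have hθ := (th_pos n (α + 1)).le
    have hstep : ∀ c, 0 < d c → |τ c - τ (p c)| ≤ th n (α + 1) := by
      intro c hc
      obtain ⟨-, h1, h2, -⟩ := hF.par c hc
      have h3 : offW a y (l c) c = offW a y (l c) (p c) := offW_congr (htie c hc)
      have h4 := hs (l c) c
      have h5 := hs (l c) (p c)
      have h6 := hs0 _ _ h1
      have h7 := hs0 _ _ h2
      have h8 := hsθ _ _ h1
      have h9 := hsθ _ _ h2
      rw [abs_le]
      constructor <;> linarith
    have hroot := hF.dist_root hθ hstep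
    obtain ⟨i, b, b', h1, h2, hyi, h3⟩ := hstar
    have h4 : root b = root b' := hF.conn i b b' h1 h2
    have h5 := hroot b
    have h6 := hroot b'
    rw [h4] at h5
    have h7 : |offW a y i b - offW a y i b'| = 1 / 2 ^ (2 * n + 2) := by
      rw [← offW_mul (a := a) hyi.ne' b, ← offW_mul (a := a) hyi.ne' b', ← sub_mul, abs_mul, abs_of_pos hyi] at h3
      have h8 : |offW a y i b - offW a y i b'| * y i = 1 / 2 ^ (2 * n + 2) * y i := by
        rw [h3]
        ring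
      exact mul_right_cancel₀ hyi.ne' h8
    have h8 := hs i b
    have h9 := hs i b'
    have h10 := hs0 _ _ h1
    have h11 := hs0 _ _ h2
    have h12 := hsθ _ _ h1
    have h13 := hsθ _ _ h2
    have h14 : |offW a y i b - offW a y i b'| ≤ (2 * (n : ℝ) + 1) * th n (α + 1) := by
      rw [abs_le] at h5 h6 ⊢
      constructor <;> nlinarith
    rw [h7] at h14
    exact absurd h14 (not_le.2 (off_small n α))
  · rw [hsμ]
    exact (th_pos _ _).le
  · rintro k b b' ⟨h1, h2⟩ ⟨h3, h4⟩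
    by_cases h0 : y k = 0
    · rw [heq k b b' h0 h1 h3, h0]
      simp
    · have hpos : 0 < y k := lt_of_le_of_ne (hy k) (Ne.symm h0)
      rw [hval k b h0, hval k b' h0, ← sub_mul, abs_mul, abs_of_pos hpos]
      refine mul_le_mul_of_nonneg_right ?_ hpos.le
      have h5 := hs0 _ _ h1
      have h6 := hs0 _ _ h3
      rw [abs_le]
      constructor <;> linarith
  · rintro k b b' h1 h2 ⟨h3, h4⟩
    by_cases h0 : y k = 0
    · rw [heq k b b' h0 h1 h3, h0]
      simp
    · have hpos : 0 < y k := lt_of_le_of_ne (hy k) (Ne.symm h0)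
      rw [hval k b h0, hval k b' h0, ← add_mul]
      refine mul_le_mul_of_nonneg_right ?_ hpos.le
      have h5 : th n α < s k b := by
        rcases hgap (k, b) with h6 | h6
        · exact absurd ⟨h1, h6⟩ h2
        · exact h6
      linarith

end H11.Cake
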