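import Pool.Agent.H11.Cake.Adapt
import Pool.Agent.H85.Cake.PhaseB

/-!
# First case of a phase (polynomial version)
-/

namespace H11.Cake

open H85.Cake

variable {G : Type}

theorem phaseAP [Fintype G] [DecidableEq G] [Nonempty G]
    {β : G → G → ℝ} (hef : ∀ k b, β b k ≤ β k k) {r : G → ℝ} {x : G → Multiset (G → ℝ)}
    {R1 : Multiset (G → ℝ)} (hR1 : NN R1) (hx : ∀ k l, (x l).sum k ≤ (x k).sum k)
    (hr : ∀ k, R1.sum k ≤ r k) {k0 l0 : G} (hne : k0 ≠ l0) (hnd : β k0 k0 - β l0 k0 < r k0)
    (hgap : 1 / 2 ^ emaxP (Fintype.card G) * R1.sum k0 ≤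
      (β k0 k0 - β l0 k0) + ((x k0).sum k0 - (x l0).sum k0)) :
    Force (fun M' => PhaseOut β r (∑ k, x k + M')) (shrinkPCost (Fintype.card G) (emaxP (Fintype.card G))) R1 := by
  classical
  refine (shrinkS G (emaxP (Fintype.card G)) R1 hR1).mono_inv hR1 le_rfl ?_
  rintro M' ⟨x', R', rfl, hx', hR'⟩ hN hS
  have hNR : NN R' := (nn_add.1 hN).2
  have hle : ∀ k, R'.sum k ≤ R1.sum k := by
    intro k
    have h1 := nonneg (nn_add.1 hN).1 k
    rw [← hS, Multiset.sum_add, Pi.add_apply]
    linarith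
  have hsum : ∀ k a, (x k + x' k).sum a = (x k).sum a + (x' k).sum a := fun k a => by
    rw [Multiset.sum_add, Pi.add_apply]
  refine ⟨1, fun k => x k + x' k, R', ?_, ?_, ?_⟩
  · rw [Finset.sum_add_distrib, add_assoc]
  · intro k l
    simp only [Equiv.Perm.coe_one, id_eq, hsum]
    have h1 := hef k l
    have h2 := hx k l
    have h3 := hx' k l
    linarith
  · have hnot : (k0, l0) ∉ Dset β r := by
      intro h
      have h1 := (phaseB_mem.1 h).2
      simp only at h1
      linarith
    rw [← Finset.card_insert_of_notMem hnot]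
    refine Finset.card_le_card ?_
    intro p hp
    refine phaseB_mem.2 ?_
    simp only [Equiv.Perm.coe_one, id_eq, hsum]
    rcases Finset.mem_insert.1 hp with rfl | hp
    · refine ⟨hne, ?_⟩
      have h1 := hR' k0
      have h2 := hx' k0 l0
      have h3 : R1.sum k0 / 2 ^ emaxP (Fintype.card G) =
        1 / 2 ^ emaxP (Fintype.card G) * R1.sum k0 := by ring
      rw [h3] at h1
      dsimp only
      linarith
    · obtain ⟨h1, h2⟩ := phaseB_mem.1 hp
      refine ⟨h1, ?_⟩
      have h3 := hx p.1 p.2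
      have h4 := hx' p.1 p.2
      have h5 := hle p.1
      have h6 := hr p.1
      linarith

end H11.Cake
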