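import Pool.Agent.H11.Cake.Fix
import Pool.Agent.H85.Cake.Select

/-!
# Choosing the rotation (thresholds `zetP`)

As `H85/Cake/Select.lean`; the agent `c` and the bundle `js ≠ c` are given by the core step.
-/

namespace H11.Cake

open H85.Cake

/-- pigeonhole: a gap in the scale of thresholds -/
theorem selectP_gap {G : Type} [Fintype G] (δ : G → G → ℝ) (r' : G → ℝ) (hr' : ∀ k, 0 < r' k) :
    ∃ i : ℕ, i ≤ Fintype.card G ^ 2 ∧ ∀ k l, δ k l < zetP (Fintype.card G) (i + 1) * r' k ∨
      zetP (Fintype.card G) i * r' k ≤ δ k l := by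
  classical
  by_contra hcon
  push Not at hcon
  set N := Fintype.card G with hN
  have hch : ∀ i : Fin (N ^ 2 + 1), ∃ p : G × G, zetP N (i + 1) * r' p.1 ≤ δ p.1 p.2 ∧
      δ p.1 p.2 < zetP N i * r' p.1 := by
    intro i
    obtain ⟨k, l, h1, h2⟩ := hcon i (Nat.lt_succ_iff.1 i.2)
    exact ⟨(k, l), h1, h2⟩
  choose p hp1 hp2 using hch
  have hinj : Function.Injective p := by
    have key : ∀ i j : Fin (N ^ 2 + 1), i < j → p i ≠ p j := by
      intro i j hij he
      have h1 := hp1 i
      have h2 := hp2 j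
      rw [← he] at h2
      have h3 : zetP N j * r' (p i).1 ≤ zetP N (i + 1) * r' (p i).1 :=
        mul_le_mul_of_nonneg_right (zetP_anti N (Nat.succ_le_of_lt hij)) (hr' _).le
      linarith
    intro i j he
    rcases lt_trichotomy i j with h | h | h
    · exact absurd he (key i j h)
    · exact h
    · exact absurd he.symm (key j i h)
  have h4 := Fintype.card_le_of_injective p hinj
  rw [Fintype.card_fin, Fintype.card_prod, ← hN, sq] at h4
  omega

theorem selectP {G : Type} [Fintype G] [DecidableEq G]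
    (A δ : G → G → ℝ) (r r' : G → ℝ) (c js : G) (hcne : c ≠ js)
    (hA0 : ∀ k, A k k = 0) (hA : ∀ k l, 0 ≤ A k l)
    (hδ0 : ∀ k, δ k k = 0) (hδ : ∀ k l, 0 ≤ δ k l)
    (hr : ∀ k, r' k ≤ r k) (hr' : ∀ k, 0 < r' k)
    (hc : r' c / 2 ^ coreQ (Fintype.card G) ≤ δ c js)
    (hND : ∀ S : Finset G, S.Nonempty → S ≠ Finset.univ → ∃ k, k ∉ S ∧ ∃ l ∈ S, A k l < r k)
    (hsmall : ∀ k l, k ≠ l → A k l < r k →
      A k l + δ k l < zetP (Fintype.card G) (Fintype.card G ^ 2 + 1) * r' k) :
    ∃ (i : ℕ) (π : Equiv.Perm G) (w l : G), i ≤ Fintype.card G ^ 2 ∧ w ≠ l ∧ A w l < r w ∧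
      zetP (Fintype.card G) i * r' w ≤ A w l + δ w (π l) ∧
      (∀ k, δ k (π k) < zetP (Fintype.card G) (i + 1) * r' k) ∧
      (∀ k b, A k b + δ k (π b) < 2 * zetP (Fintype.card G) (i + 1) * r' k ∨
        zetP (Fintype.card G) i * r' k ≤ A k b + δ k (π b)) ∧
      (∀ k b, k ≠ b → r k ≤ A k b → zetP (Fintype.card G) i * r' k ≤ A k b + δ k (π b)) := by
  obtain ⟨i, hi, hgap⟩ := selectP_gap δ r' hr'
  set N := Fintype.card G with hN
  have hlo : 0 < zetP N (i + 1) := zetP_pos _ _
  have hhi : 0 < zetP N i := zetP_pos _ _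
  have hlohi : zetP N (i + 1) ≤ zetP N i := zetP_anti N (Nat.le_succ i)
  have hzN : zetP N (N ^ 2 + 1) ≤ zetP N (i + 1) := zetP_anti N (by omega)
  have hhi1 : zetP N i ≤ 1 := zetP_le_one N i
  have hcjs : zetP N i * r' c ≤ δ c js := by
    refine le_trans ?_ hc
    have h1 := mul_le_mul_of_nonneg_right (zetP_le N i) (hr' c).le
    refine h1.trans (le_of_eq ?_)
    ring
  classical
  set S : Finset G := insert js (Finset.univ.filter (fun k => δ k js < zetP N (i + 1) * r' k))
    with hS
  have hmemS : ∀ k, k ∈ S ↔ k = js ∨ δ k js < zetP N (i + 1) * r' k := by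
    intro k
    simp [hS]
  have hcS : c ∉ S := by
    rw [hmemS]
    rintro (h | h)
    · exact hcne h
    · have := mul_le_mul_of_nonneg_right hlohi (hr' c).le
      linarith
  obtain ⟨w, hwS, l, hlS, hwl⟩ := hND S ⟨js, by simp [hS]⟩
    (fun h => hcS (h ▸ Finset.mem_univ c))
  have hwnl : w ≠ l := by
    rintro rfl
    exact hwS hlS
  rw [hmemS, not_or, not_lt] at hwS
  have hwhi : zetP N i * r' w ≤ δ w js := by
    rcases hgap w js with h | h
    · exact absurd h (not_lt.2 hwS.2)
    · exact h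
  have hle : ∀ k, zetP N (N ^ 2 + 1) * r' k ≤ zetP N (i + 1) * r' k := fun k =>
    mul_le_mul_of_nonneg_right hzN (hr' k).le
  have hljs : l ≠ js := by
    rintro rfl
    have h1 := hsmall w l hwnl hwl
    have h3 := hle w
    have h4 := hA w l
    linarith [hwS.2]
  have hllo : δ l js < zetP N (i + 1) * r' l := by
    rcases (hmemS l).1 hlS with h | h
    · exact absurd h hljs
    · exact h
  obtain ⟨π, hπl, hπ⟩ := select_perm (fun k b => k ≠ b ∧ A k b < r k) l js hljs (by
    intro S' hS1 hS2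
    obtain ⟨k, hk, b, hb, hkb⟩ := hND S' hS1 hS2
    exact ⟨k, hk, b, hb, fun h => hk (h ▸ hb), hkb⟩)
  refine ⟨i, π, w, l, hi, hwnl, hwl, ?_, ?_, ?_, ?_⟩
  · rw [hπl]
    linarith [hA w l]
  · intro k
    by_cases hkl : k = l
    · subst hkl
      rw [hπl]
      exact hllo
    · rcases hπ k hkl with h | h
      · rw [h, hδ0]
        exact mul_pos hlo (hr' k)
      · have h1 := hsmall k (π k) h.1 h.2
        have h3 := hA k (π k)
        have h4 := hle k
        linarith
  · intro k b
    rcases lt_or_ge (A k b) (r k) with hk | hk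
    · have hAlo : A k b < zetP N (i + 1) * r' k := by
        by_cases hkb : k = b
        · subst hkb
          rw [hA0]
          exact mul_pos hlo (hr' k)
        · have h1 := hsmall k b hkb hk
          have h3 := hδ k b
          have h4 := hle k
          linarith
      rcases hgap k (π b) with h | h
      · left
        linarith
      · right
        linarith [hA k b]
    · right
      have h1 := hr k
      have h3 := hδ k (π b)
      have h4 : zetP N i * r' k ≤ 1 * r' k := mul_le_mul_of_nonneg_right hhi1 (hr' k).le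
      linarith
  · intro k b _ hk
    have h1 := hr k
    have h3 := hδ k (π b)
    have h4 : zetP N i * r' k ≤ 1 * r' k := mul_le_mul_of_nonneg_right hhi1 (hr' k).le
    linarith

end H11.Cake
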