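import Pool.Agent.H11.Cake.PhA
import Pool.Agent.H11.Cake.Sel

/-!
# Second case of a phase (polynomial version)

As `H85/Cake/PhaseB.lean`, with `selectP`, `fixP` and `shrinkS`.
-/

namespace H11.Cake

open H85.Cake

variable {G : Type}

/-- numerics: the exponent -/
theorem phaseBP_num {n i : ℕ} (hi : i ≤ n ^ 2) : coreQ n + (3 * n + 12) * i ≤ emaxP n := by
  unfold emaxP
  have h1 : (3 * n + 12) * i ≤ (3 * n + 12) * (n ^ 2 + 1) := Nat.mul_le_mul_left _ (by omega)
  omega

theorem phaseBP_num2 {n i : ℕ} (hi : i ≤ n ^ 2) : (1:ℝ) / 2 ^ emaxP n ≤ zetP n i / 2 := by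
  unfold zetP
  have h1 : coreQ n + (3 * n + 12) * i + 1 ≤ emaxP n := by
    unfold emaxP
    have h2 : (3 * n + 12) * (i + 1) ≤ (3 * n + 12) * (n ^ 2 + 1) := Nat.mul_le_mul_left _ (by omega)
    rw [mul_add (3 * n + 12) i 1] at h2
    omega
  have h3 : (1:ℝ) / 2 ^ emaxP n ≤ 1 / 2 ^ (coreQ n + (3 * n + 12) * i + 1) := by
    apply one_div_le_one_div_of_le (by positivity)
    exact pow_le_pow_right₀ (by norm_num) h1
  refine h3.trans (le_of_eq ?_)
  rw [pow_succ]
  field_simp

theorem phaseBP [Fintype G] [DecidableEq G] [Nonempty G] {β : G → G → ℝ} (hef : ∀ k b, β b k ≤ β k k) {r : G → ℝ}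
    {x : G → Multiset (G → ℝ)} {R1 : Multiset (G → ℝ)} (hR1 : NN R1)
    (hx : ∀ k l, (x l).sum k ≤ (x k).sum k) (hr : ∀ k, R1.sum k ≤ r k)
    (hr1 : ∀ k, 0 < R1.sum k) (c js : G) (hcjs : c ≠ js)
    (hc : R1.sum c / 2 ^ coreQ (Fintype.card G) ≤ (x c).sum c - (x js).sum c)
    (hND : ∀ S : Finset G, S.Nonempty → S ≠ Finset.univ →
      ∃ k, k ∉ S ∧ ∃ l ∈ S, β k k - β l k < r k)
    (hsmall : ∀ k l, k ≠ l → β k k - β l k < r k →
      (β k k - β l k) + ((x k).sum k - (x l).sum k) <
        zetP (Fintype.card G) (Fintype.card G ^ 2 + 1) * R1.sum k) :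
    Force (fun M' => PhaseOut β r (∑ k, x k + M'))
      (fixPCost (Fintype.card G) + shrinkPCost (Fintype.card G) (emaxP (Fintype.card G))) R1 := by
  classical
  obtain ⟨i, π, w, l, hi, hwl, hAw, hnew, hown, hgap, hdom⟩ :=
    selectP (fun k b => β k k - β b k) (fun k b => (x k).sum k - (x b).sum k) r
      (fun k => R1.sum k) c js hcjs (fun k => sub_self _) (fun k b => sub_nonneg.2 (hef k b))
      (fun k => sub_self _) (fun k b => sub_nonneg.2 (hx k b)) hr hr1 hc hND hsmall
  have hfix2 := fixP (β' := fun b a => β b a + (x (π b)).sum a)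
    (U := fun k => β k k + (x k).sum k) hR1 hr1 _ (phaseBP_num hi)
    (hi := zetP (Fintype.card G) i) rfl (zetP_succ (Fintype.card G) i)
    (fun k b => add_le_add (hef k b) (hx k (π b)))
    (fun k => by
      have := hown k
      linarith)
    (fun k b => by
      rcases hgap k b with h | h
      · left; linarith
      · right; linarith)
  refine hfix2.bind_inv hR1 ?_
  rintro M' ⟨μ, y, R', hM', hEF, hD⟩ hNN hsum
  have hNNR' : NN R' := fun v hv => hNN v (by rw [hM']; exact Multiset.mem_add.2 (Or.inr hv))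
  have hNNy : ∀ b, NN (y b) := fun b v hv => hNN v (by
    rw [hM']
    refine Multiset.mem_add.2 (Or.inl ?_)
    rw [Multiset.mem_sum]
    exact ⟨b, Finset.mem_univ b, hv⟩)
  have hR'le : ∀ k, R'.sum k ≤ R1.sum k := by
    intro k
    have h1 : M'.sum k = R1.sum k := by rw [hsum]
    rw [hM', Multiset.sum_add, Pi.add_apply] at h1
    have h3 : 0 ≤ (∑ b, y b).sum k := by
      apply phaseB_nonneg
      intro v hv
      rw [Multiset.mem_sum] at hv
      obtain ⟨b, -, hb⟩ := hv
      exact hNNy b v hb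
    linarith
  have hsh := (shrinkS G (emaxP (Fintype.card G)) R' hNNR').frame (∑ b, y b)
  have hMeq : R' + ∑ b, y b = M' := by rw [hM', add_comm]
  rw [hMeq] at hsh
  refine hsh.mono le_rfl ?_
  rintro M'' ⟨M₁, ⟨x', R'', hM₁, hEF', hR''⟩, hM''⟩
  refine ⟨μ, fun k => x (π (μ k)) + y (μ k) + x' k, R'', ?_, ?_, ?_⟩
  · rw [hM'', hM₁, Finset.sum_add_distrib, Finset.sum_add_distrib,
      Equiv.sum_comp μ (fun k => x (π k)), Equiv.sum_comp π x, Equiv.sum_comp μ y]
    abel
  · intro k l'
    have h1 := hEF k (μ l')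
    have h3 := hEF' k l'
    simp only [Multiset.sum_add, Pi.add_apply] at h1 h3 ⊢
    linarith
  · -- dominations
    set E : Finset (G × G) := Finset.univ.filter
      (fun z => zetP (Fintype.card G) i * R1.sum z.1 ≤
        (β z.1 z.1 + (x z.1).sum z.1) - (β z.2 z.1 + (x (π z.2)).sum z.1)) with hE
    have hcard : (Dset β r).card + 1 ≤ E.card := by
      have hnot : (w, l) ∉ Dset β r := by
        intro hcon
        rw [phaseB_mem] at hcon
        have := hcon.2
        simp only at this
        linarith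
      rw [← Finset.card_insert_of_notMem hnot]
      apply Finset.card_le_card
      intro z hz
      rw [Finset.mem_insert] at hz
      rw [hE, Finset.mem_filter]
      refine ⟨Finset.mem_univ _, ?_⟩
      rcases hz with rfl | hz
      · simp only
        linarith
      · rw [phaseB_mem] at hz
        have := hdom z.1 z.2 hz.1 hz.2
        linarith
    refine hcard.trans ?_
    apply Finset.card_le_card_of_injOn (fun z => (z.1, μ.symm z.2))
    · intro z hz
      rw [hE, Finset.mem_coe, Finset.mem_filter] at hz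
      rw [Finset.mem_coe, phaseB_mem]
      have h1 := hD z.1 z.2 hz.2
      have hpos : 0 < zetP (Fintype.card G) i / 2 * R1.sum z.1 :=
        mul_pos (half_pos (zetP_pos _ _)) (hr1 z.1)
      have h3 : R''.sum z.1 ≤ zetP (Fintype.card G) i / 2 * R1.sum z.1 := by
        have h4 : R''.sum z.1 ≤ 1 / 2 ^ emaxP (Fintype.card G) * R'.sum z.1 := by
          have h5 := hR'' z.1
          rw [div_mul_eq_mul_div, one_mul]
          exact h5
        have h6 : 0 ≤ R'.sum z.1 := phaseB_nonneg hNNR' z.1
        have h7 : (1:ℝ) / 2 ^ emaxP (Fintype.card G) * R'.sum z.1 ≤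
            zetP (Fintype.card G) i / 2 * R1.sum z.1 :=
          mul_le_mul (phaseBP_num2 hi) (hR'le z.1) h6 (half_pos (zetP_pos _ _)).le
        exact h4.trans h7
      constructor
      · intro hcon
        simp only at hcon
        have h4 : μ z.1 = z.2 := by rw [hcon, Equiv.apply_symm_apply]
        rw [h4] at h1
        linarith
      · simp only [Equiv.apply_symm_apply, Multiset.sum_add, Pi.add_apply]
        have h4 := hEF' z.1 (μ.symm z.2)
        linarith
    · intro z _ z' _ h
      simp only [Prod.mk.injEq, EmbeddingLike.apply_eq_iff_eq] at h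
      exact Prod.ext h.1 h.2

end H11.Cake
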