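import Pool.Agent.H11.Cake.PhB
import Pool.Agent.H85.Cake.PhaseC

/-!
# A phase (polynomial version)

As `H85/Cake/PhaseC.lean`; the core step is a hypothesis `CoreHyp` (proved in `H25/Cake2`).
-/

namespace H11.Cake

open H85.Cake

/-- The core step. -/
def CoreHyp : Prop := ∀ (G : Type) [Fintype G] [DecidableEq G] [Nonempty G], 2 ≤ Fintype.card G →
  ∀ M : Multiset (G → ℝ), NN M → Force CoreOut (coreCost (Fintype.card G)) M

variable {G : Type}

theorem phaseP (hC : CoreHyp) [Fintype G] [DecidableEq G] [Nonempty G]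
    (h2 : 2 ≤ Fintype.card G) {β : G → G → ℝ} (hef : ∀ k b, β b k ≤ β k k)
    {R : Multiset (G → ℝ)} (hR : NN R)
    (hND : ∀ S : Finset G, S.Nonempty → S ≠ Finset.univ →
      ∃ k, k ∉ S ∧ ∃ l ∈ S, β k k - β l k < R.sum k) :
    Force (PhaseOut β (fun k => R.sum k)) (phasePCost (Fintype.card G)) R := by
  refine (hC G h2 R hR).bind_inv hR ?_
  rintro M' ⟨x, R1, c, js, rfl, hx, hcjs, hc⟩ hNN hsum
  have hNx : ∀ l, NN (x l) := nn_sum (nn_add.1 hNN).1
  have hN1 : NN R1 := (nn_add.1 hNN).2
  have htot : ∀ k, ∑ l, (x l).sum k + R1.sum k = R.sum k := by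
    intro k
    rw [← sum_fin_apply, hsum]
  have hr : ∀ k, R1.sum k ≤ R.sum k := by
    intro k
    have h1 := htot k
    have h3 : 0 ≤ ∑ l, (x l).sum k := Finset.sum_nonneg (fun l _ => nonneg (hNx l) k)
    linarith
  have hz : zetP (Fintype.card G) (Fintype.card G ^ 2 + 1) = 1 / 2 ^ emaxP (Fintype.card G) := rfl
  -- the frame
  have key : Force (fun M' => PhaseOut β (fun k => R.sum k) (∑ k, x k + M'))
      (fixPCost (Fintype.card G) + shrinkPCost (Fintype.card G) (emaxP (Fintype.card G))) R1 := by
    by_cases hcase : ∃ k0 l0, k0 ≠ l0 ∧ β k0 k0 - β l0 k0 < R.sum k0 ∧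
        zetP (Fintype.card G) (Fintype.card G ^ 2 + 1) * R1.sum k0 ≤
          (β k0 k0 - β l0 k0) + ((x k0).sum k0 - (x l0).sum k0)
    · obtain ⟨k0, l0, hne, hnd, hgap⟩ := hcase
      refine (phaseAP hef (r := fun k => R.sum k) hN1 hx hr hne hnd ?_).mono
        (Nat.le_add_left _ _) (fun _ h => h)
      rw [← hz]
      exact hgap
    · push Not at hcase
      have hpos : ∀ k, 0 < R1.sum k := by
        intro k
        have hne : (Finset.univ.erase k : Finset G).Nonempty := by
          rw [← Finset.card_pos, Finset.card_erase_of_mem (Finset.mem_univ _), Finset.card_univ]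
          omega
        have hnu : (Finset.univ.erase k : Finset G) ≠ Finset.univ := by
          intro h
          have := Finset.mem_univ k
          rw [← h] at this
          simp at this
        obtain ⟨k', hk', l, hl, hlt⟩ := hND _ hne hnu
        have hkk : k' = k := by
          by_contra h
          exact hk' (Finset.mem_erase.2 ⟨h, Finset.mem_univ _⟩)
        subst hkk
        have hl' : l ≠ k' := (Finset.mem_erase.1 hl).1
        have h1 := hcase k' l (Ne.symm hl') hlt
        have h3 : 0 ≤ β k' k' - β l k' := sub_nonneg.2 (hef k' l)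
        have h4 : 0 ≤ (x k').sum k' - (x l).sum k' := sub_nonneg.2 (hx k' l)
        have h5 : 0 < zetP (Fintype.card G) (Fintype.card G ^ 2 + 1) * R1.sum k' := by linarith
        exact (pos_iff_pos_of_mul_pos h5).1 (zetP_pos _ _)
      exact phaseBP hef hN1 hx hr hpos c js hcjs hc hND hcase
  have := key.frame (∑ k, x k)
  rw [add_comm R1] at this
  refine this.mono le_rfl ?_
  rintro M ⟨M₁, h, rfl⟩
  rwa [add_comm]

end H11.Cake
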