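import Mathlib

/-!
# Potentials for digraphs without negative cycles   (JOB PC-POT)

`potential`.  PROOF.  `cost : List V → ℝ`, `cost [] = 0`, `cost [v] = 0`,
`cost (v :: w :: t) = c v w + cost (w :: t)` (`pcost` below).
(1) Cycles: if `L ≠ []` is `Nodup`, a chain for `R` (`L.IsChain R`) and `R (last) (head)`, then
`0 ≤ pcost c L + c (last) (head)`: apply `hcyc` to `π = L.formPerm` (`List.formPerm`; off `L` it is
the identity, `R v v`, `c v v = 0`; `π L[i] = L[(i+1) % length]`: `List.formPerm_apply_getElem`), and
`∑ v, c v (π v) = ∑ over v ∈ L`.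
(2) `σ w = min` over all pairs: nodup chains `L ≠ []` with last element `w` (a finite set:
`fintypeNodupList` / `{L : List V // L.Nodup}` is finite; it contains `[w]` with cost `0`) of
`pcost c L`.  So `σ w ≤ 0`.  `σ w ≥ - card V * D` since a nodup list has at most `card V` elements and
each of its (at most `card V`) arcs costs `≥ -D` (`D ≥ 0` unless `V` is empty: `hcD v v`).
(3) `σ w ≤ σ v + c v w` if `R v w`: take an optimal `L` for `v`.  If `w ∉ L`: `L ++ [w]` is a nodup
chain with cost `σ v + c v w`.  If `w ∈ L`: write `L = L₁ ++ w :: L₂`; `L₁ ++ [w]` is a nodup chain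
ending in `w`, and `w :: L₂` is a nodup chain from `w` to `v`, so by (1)
`pcost L + c v w = pcost (L₁ ++ [w]) + (pcost (w :: L₂) + c v w) ≥ σ w`.
(Any other proof is fine, for example Bellman–Ford with walks of length `< card V`.)
-/

namespace H11.Cake

/-- Cost of a path given by the list of its vertices. -/
def pcost {V : Type} (c : V → V → ℝ) : List V → ℝ
  | [] => 0
  | [_] => 0
  | v :: w :: t => c v w + pcost c (w :: t)

/-- a simple cycle has nonnegative cost -/
private lemma pot_cycle {V : Type} [Fintype V] [DecidableEq V] (R : V → V → Prop) (c : V → V → ℝ)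
    (hR : ∀ v, R v v) (hc0 : ∀ v, c v v = 0)
    (hcyc : ∀ π : Equiv.Perm V, (∀ v, R v (π v)) → 0 ≤ ∑ v, c v (π v))
    (u : ℕ → V) (i m : ℕ) (hinj : ∀ x y, x < m + 1 → y < m + 1 → u (i + x) = u (i + y) → x = y)
    (hRu : ∀ x, x < m + 1 → R (u (i + x)) (u (i + x + 1))) (hcl : u (i + m + 1) = u i) :
    0 ≤ ∑ x ∈ Finset.range (m + 1), c (u (i + x)) (u (i + x + 1)) := by
  classical
  let g : Fin (m + 1) ↪ V := ⟨fun x => u (i + x.val), by
    intro x y hxy
    exact Fin.ext (hinj x.val y.val x.2 y.2 hxy)⟩
  have hg : ∀ x : Fin (m + 1), g x = u (i + x.val) := fun x => rfl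
  have hrot : ∀ x : Fin (m + 1), g (finRotate (m + 1) x) = u (i + x.val + 1) := by
    intro x
    rw [hg, coe_finRotate]
    split_ifs with h
    · subst h
      simp only [Fin.val_last, add_zero]
      exact hcl.symm
    · rfl
  let π : Equiv.Perm V := (finRotate (m + 1)).viaEmbedding g
  have h1 : ∀ x : Fin (m + 1), π (g x) = u (i + x.val + 1) := by
    intro x
    rw [← hrot x]
    exact Equiv.Perm.viaEmbedding_apply _ _ _
  have h2 : ∀ v, v ∉ Set.range g → π v = v := fun v hv =>
    Equiv.Perm.viaEmbedding_apply_of_notMem _ _ _ hv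
  have h3 := hcyc π (by
    intro v
    by_cases hv : v ∈ Set.range g
    · obtain ⟨x, rfl⟩ := hv
      rw [h1]
      exact hRu x.val x.2
    · rw [h2 v hv]
      exact hR v)
  have h4 : ∑ v, c v (π v) = ∑ v ∈ Finset.univ.map g, c v (π v) := by
    symm
    apply Finset.sum_subset (Finset.subset_univ _)
    intro v _ hv
    have hv' : v ∉ Set.range g := by
      rintro ⟨x, rfl⟩
      exact hv (Finset.mem_map_of_mem g (Finset.mem_univ x))
    rw [h2 v hv', hc0]
  rw [h4, Finset.sum_map] at h3
  rw [Finset.sum_range (fun x => c (u (i + x)) (u (i + x + 1)))]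
  refine h3.trans (le_of_eq (Finset.sum_congr rfl fun x _ => ?_))
  rw [h1]
  rfl

theorem potential {V : Type} [Fintype V] [DecidableEq V] (R : V → V → Prop) (c : V → V → ℝ)
    (D : ℝ) (hR : ∀ v, R v v) (hc0 : ∀ v, c v v = 0) (hcD : ∀ v w, R v w → |c v w| ≤ D)
    (hcyc : ∀ π : Equiv.Perm V, (∀ v, R v (π v)) → 0 ≤ ∑ v, c v (π v)) :
    ∃ σ : V → ℝ, (∀ v, -(Fintype.card V * D) ≤ σ v ∧ σ v ≤ 0) ∧
      ∀ v w, R v w → σ w ≤ σ v + c v w := by
  classical
  have hne : ∀ w, (Finset.univ.filter (fun v => R v w)).Nonempty := fun w =>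
    ⟨w, Finset.mem_filter.2 ⟨Finset.mem_univ w, hR w⟩⟩
  let f : ℕ → V → ℝ := fun k => Nat.rec (fun _ => (0 : ℝ))
    (fun _ F w => (Finset.univ.filter (fun v => R v w)).inf' (hne w) (fun v => F v + c v w)) k
  have f0 : ∀ w, f 0 w = 0 := fun w => rfl
  have fle : ∀ k v w, R v w → f (k + 1) w ≤ f k v + c v w := by
    intro k v w h
    exact Finset.inf'_le (fun v => f k v + c v w) (Finset.mem_filter.2 ⟨Finset.mem_univ v, h⟩)
  have fex : ∀ k w, ∃ v, R v w ∧ f (k + 1) w = f k v + c v w := by
    intro k w
    obtain ⟨v, hv, h⟩ := Finset.exists_mem_eq_inf' (hne w) (fun v => f k v + c v w)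
    exact ⟨v, (Finset.mem_filter.1 hv).2, h⟩
  clear_value f
  have fanti1 : ∀ k w, f (k + 1) w ≤ f k w := by
    intro k w
    have := fle k w w (hR w)
    rwa [hc0, add_zero] at this
  have fanti : ∀ w, Antitone (fun k => f k w) := fun w => antitone_nat_of_succ_le (fun k => fanti1 k w)
  have flow : ∀ k w, -(k * D) ≤ f k w := by
    intro k
    induction k with
    | zero => intro w; rw [f0]; simp
    | succ k ih =>
      intro w
      obtain ⟨v, hv, h⟩ := fex k w
      rw [h]
      have h1 := ih v
      have h2 := (abs_le.1 (hcD v w hv)).1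
      push_cast
      linarith
  -- strict decrease gives a long path
  have hpath : ∀ k w, f (k + 1) w < f k w → ∃ u : ℕ → V, u (k + 1) = w ∧ ∀ j ≤ k,
      R (u j) (u (j + 1)) ∧ f (j + 1) (u (j + 1)) = f j (u j) + c (u j) (u (j + 1)) ∧
      f (j + 1) (u (j + 1)) < f j (u (j + 1)) := by
    intro k
    induction k with
    | zero =>
      intro w hw
      obtain ⟨v, hv, h⟩ := fex 0 w
      refine ⟨fun j => if j = 0 then v else w, by simp, ?_⟩
      intro j hj
      obtain rfl : j = 0 := by omega
      simp only [if_true, zero_add, one_ne_zero, if_false]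
      exact ⟨hv, h, hw⟩
    | succ k ih =>
      intro w hw
      obtain ⟨v, hv, h⟩ := fex (k + 1) w
      have hs : f (k + 1) v < f k v := by
        by_contra hcon
        have h1 : f k v = f (k + 1) v := le_antisymm (not_lt.1 hcon) (fanti1 k v)
        have h2 := fle k v w hv
        rw [h1, ← h] at h2
        exact absurd hw (not_lt.2 h2)
      obtain ⟨u, hu1, hu2⟩ := ih v hs
      refine ⟨fun j => if j ≤ k + 1 then u j else w, by simp, ?_⟩
      intro j hj
      rcases Nat.lt_or_ge k j with hjk | hjk
      · obtain rfl : j = k + 1 := by omega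
        simp only [le_refl, if_true]
        rw [if_neg (by omega), hu1]
        exact ⟨hv, h, hw⟩
      · have h1 : j ≤ k + 1 := by omega
        have h2 : j + 1 ≤ k + 1 := by omega
        simp only [h1, h2, if_true]
        exact hu2 j hjk
  have hstab : ∀ w, f (Fintype.card V) w ≤ f (Fintype.card V + 1) w := by
    intro w
    by_contra hcon
    obtain ⟨u, -, hu⟩ := hpath (Fintype.card V) w (not_le.1 hcon)
    -- first repetition
    have hex : ∃ j, j ≤ Fintype.card V ∧ ∃ i < j, u i = u j := by
      by_contra hno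
      push Not at hno
      have hinj : Function.Injective (fun x : Fin (Fintype.card V + 1) => u x.val) := by
        intro x y hxy
        rcases lt_trichotomy x.val y.val with h | h | h
        · exact absurd hxy (hno y.val (by have := y.2; omega) x.val h)
        · exact Fin.ext h
        · exact absurd hxy.symm (hno x.val (by have := x.2; omega) y.val h)
      have := Fintype.card_le_of_injective _ hinj
      rw [Fintype.card_fin] at this
      omega
    obtain ⟨hj, i, hij, hui⟩ := Nat.find_spec hex
    have hmin := fun j (h : j < Nat.find hex) => Nat.find_min hex h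
    generalize Nat.find hex = j at hj hij hui hmin
    obtain ⟨m, rfl⟩ : ∃ m, j = i + m + 1 := ⟨j - i - 1, by omega⟩
    have hinj : ∀ x y, x < m + 1 → y < m + 1 → u (i + x) = u (i + y) → x = y := by
      intro x y hx hy hxy
      rcases lt_trichotomy x y with h | h | h
      · exact absurd ⟨by omega, i + x, by omega, hxy⟩ (hmin (i + y) (by omega))
      · exact h
      · exact absurd ⟨by omega, i + y, by omega, hxy.symm⟩ (hmin (i + x) (by omega))
    have h1 := pot_cycle R c hR hc0 hcyc u i m hinj
      (fun x hx => (hu (i + x) (by omega)).1) hui.symm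
    have h2 : ∑ x ∈ Finset.range (m + 1), c (u (i + x)) (u (i + x + 1)) =
        f (i + (m + 1)) (u (i + (m + 1))) - f (i + 0) (u (i + 0)) := by
      rw [← Finset.sum_range_sub (fun x => f (i + x) (u (i + x)))]
      apply Finset.sum_congr rfl
      intro x hx
      have hx' := Finset.mem_range.1 hx
      have h3 := (hu (i + x) (by omega)).2.1
      have h4 : i + (x + 1) = i + x + 1 := by ring
      simp only [h4]
      linarith
    have h5 := (hu (i + m) (by omega)).2.2
    have h6 : f (i + m) (u (i + m + 1)) ≤ f i (u (i + m + 1)) := fanti _ (by omega)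
    rw [← hui] at h6 h5
    rw [add_zero, show i + (m + 1) = i + m + 1 by ring, ← hui] at h2
    linarith
  refine ⟨f (Fintype.card V), fun v => ⟨flow _ v, ?_⟩, fun v w h => ?_⟩
  · have := fanti v (Nat.zero_le (Fintype.card V))
    simp only [f0] at this
    exact this
  · exact (hstab w).trans (fle _ v w h)


end H11.Cake
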