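import Pool.Agent.H11.Cake.Basic

/-!
# Rounding to a basic solution   (JOB PC-ROUND)

`round_basic`.  PROOF.  Strong induction on the number of fractional coordinates
(`x i ≠ 0 ∧ x i ≠ 1`).  If there are more than `card G` of them, the vectors `v i` (`i` fractional,
`i : {i // fractional}`) are linearly dependent in `G → ℝ` (`Module.finrank ℝ (G → ℝ) = card G`;
e.g. `Module.exists_nontrivial_relation_of_finrank_lt_card` or
`exists_nontrivial_relation_of_finrank_lt_card`): there is `w : ι → ℝ`, `w ≠ 0`, `w i = 0` unless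
`i` is fractional, `∑ w i • v i = 0`.  Move `x + t w`: for the fractional `i` with `w i ≠ 0` let
`t i = (1 - x i) / w i` if `w i > 0` and `t i = x i / (- w i)` if `w i < 0` (`t i > 0`); take `i0` with
`t i` minimal and `t = t i0`.  Then `x + t w` is in `[0,1]^ι`, the sum is unchanged, the coordinates
that were `0` or `1` stay, and `x i0 + t w i0 ∈ {0,1}`: fewer fractional coordinates.
(Alternatively: take, among all `y ∈ [0,1]^ι` with the right sum, one with the least number of
fractional coordinates.)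

`round_ms`: the multiset version.  Write `F = ↑l` for a list `l`, `ι = Fin l.length`,
`v i = l[i].1`, `x i = l[i].2`, `y` from `round_basic`; `A` = the `v i` with `y i = 1`, `C` = those with
`y i = 0`, `F'` = the pairs `(v i, y i)` for the others.
(`Multiset`s as `Finset.univ.val.map ..` and `Multiset.map_filter`/`Finset.filter` splitting.)
-/

namespace H11.Cake

open H85.Cake

theorem round_step {ι G : Type} [Fintype ι] [Fintype G] (v : ι → G → ℝ) (x : ι → ℝ)
    (hx : ∀ i, 0 ≤ x i ∧ x i ≤ 1) (hcard : Fintype.card G < {i | x i ≠ 0 ∧ x i ≠ 1}.ncard) :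
    ∃ y : ι → ℝ, (∀ i, 0 ≤ y i ∧ y i ≤ 1) ∧ ∑ i, y i • v i = ∑ i, x i • v i ∧
      {i | y i ≠ 0 ∧ y i ≠ 1}.ncard < {i | x i ≠ 0 ∧ x i ≠ 1}.ncard := by
  classical
  set t : Finset ι := Finset.univ.filter (fun i => x i ≠ 0 ∧ x i ≠ 1) with ht
  have htS : {i | x i ≠ 0 ∧ x i ≠ 1} = (t : Set ι) := by
    ext i
    simp [ht]
  rw [htS, Set.ncard_coe_finset] at hcard ⊢
  have hnl : ¬ LinearIndependent ℝ (fun i : t => v i) := by
    intro hli
    have h1 := hli.fintype_card_le_finrank
    rw [Module.finrank_fintype_fun_eq_card, Fintype.card_coe] at h1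
    omega
  rw [Fintype.not_linearIndependent_iff] at hnl
  obtain ⟨g, hg, ⟨i1, hi1⟩, hgi⟩ := hnl
  set w : ι → ℝ := fun i => if h : i ∈ t then g ⟨i, h⟩ else 0 with hw
  have hwt : ∀ i, i ∉ t → w i = 0 := fun i hi => dif_neg hi
  have hwsum : ∑ i, w i • v i = 0 := by
    rw [← hg, ← Finset.sum_subset (Finset.subset_univ t), ← Finset.sum_coe_sort t]
    · refine Finset.sum_congr rfl fun i _ => ?_
      simp only [hw]
      rw [dif_pos i.2]
    · intro i _ hi
      rw [hwt i hi, zero_smul]
  have hw1 : w i1 ≠ 0 := by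
    simp only [hw]
    rw [dif_pos hi1]
    exact hgi
  let τ : ι → ℝ := fun i => if 0 < w i then (1 - x i) / w i else x i / (- w i)
  obtain ⟨i0, hi0, hmin⟩ := Finset.exists_min_image (t.filter fun i => w i ≠ 0) τ
    ⟨i1, Finset.mem_filter.2 ⟨hi1, hw1⟩⟩
  obtain ⟨hi0t, hw0⟩ := Finset.mem_filter.1 hi0
  have hτ0 : 0 ≤ τ i0 := by
    simp only [τ]
    split_ifs with h
    · exact div_nonneg (by linarith [(hx i0).2]) h.le
    · exact div_nonneg (hx i0).1 (by linarith)
  refine ⟨fun i => x i + τ i0 * w i, ?_, ?_, ?_⟩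
  · intro i
    by_cases hi : i ∈ t ∧ w i ≠ 0
    · have h1 := hmin i (Finset.mem_filter.2 hi)
      rcases lt_or_gt_of_ne hi.2 with h | h
      · have h2 : τ i = x i / (- w i) := if_neg (not_lt.2 h.le)
        rw [h2] at h1
        rw [le_div_iff₀ (by linarith)] at h1
        have h3 : 0 ≤ τ i0 * (- w i) := mul_nonneg hτ0 (by linarith)
        refine ⟨by linarith, ?_⟩
        have := (hx i).2
        simp only
        linarith
      · have h2 : τ i = (1 - x i) / w i := if_pos h
        rw [h2] at h1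
        rw [le_div_iff₀ h] at h1
        have h3 : 0 ≤ τ i0 * w i := mul_nonneg hτ0 h.le
        have := (hx i).1
        constructor
        · simp only
          linarith
        · simp only
          linarith
    · have h1 : w i = 0 := by
        by_cases h2 : i ∈ t
        · by_contra h3
          exact hi ⟨h2, h3⟩
        · exact hwt i h2
      simp only
      rw [h1, mul_zero, add_zero]
      exact hx i
  · have h1 : ∀ i, (x i + τ i0 * w i) • v i = x i • v i + τ i0 • (w i • v i) := by
      intro i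
      rw [add_smul, mul_smul]
    rw [Finset.sum_congr rfl fun i _ => h1 i, Finset.sum_add_distrib, ← Finset.smul_sum, hwsum,
      smul_zero, add_zero]
  · have h1 : {i | x i + τ i0 * w i ≠ 0 ∧ x i + τ i0 * w i ≠ 1} ⊆ ((t.erase i0 : Finset ι) : Set ι) := by
      intro i hi
      obtain ⟨ha, hb⟩ := hi
      rw [Finset.coe_erase]
      refine ⟨?_, ?_⟩
      · by_contra h2
        have h3 : w i = 0 := hwt i h2
        rw [h3, mul_zero, add_zero] at ha hb
        exact h2 (by simp [ht, ha, hb])
      · rintro rfl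
        rcases lt_or_gt_of_ne hw0 with h | h
        · have h2 : τ i = x i / (- w i) := if_neg (not_lt.2 h.le)
          apply ha
          rw [h2]
          have : w i ≠ 0 := h.ne
          field_simp
          ring
        · have h2 : τ i = (1 - x i) / w i := if_pos h
          apply hb
          rw [h2]
          have : w i ≠ 0 := h.ne'
          field_simp
          ring
    refine lt_of_le_of_lt (Set.ncard_le_ncard h1 (Finset.finite_toSet _)) ?_
    rw [Set.ncard_coe_finset]
    exact Finset.card_erase_lt_of_mem hi0t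

theorem round_basic {ι G : Type} [Fintype ι] [Fintype G] (v : ι → G → ℝ) (x : ι → ℝ)
    (hx : ∀ i, 0 ≤ x i ∧ x i ≤ 1) :
    ∃ y : ι → ℝ, (∀ i, 0 ≤ y i ∧ y i ≤ 1) ∧ ∑ i, y i • v i = ∑ i, x i • v i ∧
      {i | y i ≠ 0 ∧ y i ≠ 1}.ncard ≤ Fintype.card G := by
  have key : ∀ n : ℕ, ∀ x : ι → ℝ, (∀ i, 0 ≤ x i ∧ x i ≤ 1) →
      {i | x i ≠ 0 ∧ x i ≠ 1}.ncard = n →
      ∃ y : ι → ℝ, (∀ i, 0 ≤ y i ∧ y i ≤ 1) ∧ ∑ i, y i • v i = ∑ i, x i • v i ∧
      {i | y i ≠ 0 ∧ y i ≠ 1}.ncard ≤ Fintype.card G := by
    intro n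
    induction n using Nat.strong_induction_on with
    | _ n ih =>
      intro x hx hn
      by_cases hc : {i | x i ≠ 0 ∧ x i ≠ 1}.ncard ≤ Fintype.card G
      · exact ⟨x, hx, rfl, hc⟩
      · push Not at hc
        obtain ⟨y, hy1, hy2, hy3⟩ := round_step v x hx hc
        obtain ⟨z, hz1, hz2, hz3⟩ := ih _ (by rw [← hn]; exact hy3) y hy1 rfl
        exact ⟨z, hz1, hz2.trans hy2, hz3⟩
  exact key _ x hx rfl

theorem round_ms {G : Type} [Fintype G] (F : Multiset ((G → ℝ) × ℝ))
    (hF : ∀ p ∈ F, 0 ≤ p.2 ∧ p.2 ≤ 1) :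
    ∃ (A C : Multiset (G → ℝ)) (F' : Multiset ((G → ℝ) × ℝ)),
      F.map Prod.fst = A + C + F'.map Prod.fst ∧ F'.card ≤ Fintype.card G ∧
      (∀ p ∈ F', 0 ≤ p.2 ∧ p.2 ≤ 1 ∧ p.1 ∈ F.map Prod.fst) ∧
      A.sum + (F'.map (fun p => p.2 • p.1)).sum = (F.map (fun p => p.2 • p.1)).sum := by
  classical
  induction F using Quotient.inductionOn with
  | h l =>
  set U : Multiset (Fin l.length) := (Finset.univ : Finset (Fin l.length)).val with hU
  have hl : (⟦l⟧ : Multiset ((G → ℝ) × ℝ)) = U.map (fun i => l.get i) := by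
    rw [hU, Fin.univ_val_map, List.ofFn_get]
    rfl
  obtain ⟨y, hy01, hysum, hycard⟩ := round_basic (fun i : Fin l.length => (l.get i).1)
    (fun i => (l.get i).2) (fun i => hF _ (by
      rw [hl]
      exact Multiset.mem_map_of_mem _ (Finset.mem_univ_val i)))
  rw [hl, Multiset.map_map, Multiset.map_map]
  set v : Fin l.length → G → ℝ := fun i => (l.get i).1 with hv
  set UA := U.filter (fun i => y i = 1) with hUA
  set UN := U.filter (fun i => ¬ y i = 1) with hUN
  set UC := UN.filter (fun i => y i = 0) with hUC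
  set UF := UN.filter (fun i => ¬ y i = 0) with hUF
  have h1 : UA + UN = U := Multiset.filter_add_not _ _
  have h2 : UC + UF = UN := Multiset.filter_add_not _ _
  have hUeq : U = UA + UC + UF := by rw [add_assoc, h2, h1]
  refine ⟨UA.map v, UC.map v, UF.map (fun i => (v i, y i)), ?_, ?_, ?_, ?_⟩
  · rw [Multiset.map_map]
    have : (U.map (Prod.fst ∘ fun i => l.get i)) = U.map v := rfl
    rw [this]
    have h3 : (UF.map (Prod.fst ∘ fun i => (v i, y i))) = UF.map v := rfl
    rw [h3]
    conv_lhs => rw [hUeq]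
    rw [Multiset.map_add, Multiset.map_add]
  · rw [Multiset.card_map]
    have h3 : UF = (Finset.univ.filter (fun i => ¬ y i = 1 ∧ ¬ y i = 0)).val := by
      rw [hUF, hUN, Multiset.filter_filter, Finset.filter_val]
      congr 1
      funext i
      exact propext and_comm
    rw [h3]
    have h4 : {i | y i ≠ 0 ∧ y i ≠ 1} =
        ((Finset.univ.filter (fun i => ¬ y i = 1 ∧ ¬ y i = 0) : Finset (Fin l.length)) :
          Set (Fin l.length)) := by
      ext i
      simp only [Set.mem_ofPred_eq, Finset.coe_filter, Finset.mem_univ, true_and]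
      exact and_comm
    rw [h4, Set.ncard_coe_finset] at hycard
    exact hycard
  · intro p hp
    obtain ⟨i, -, rfl⟩ := Multiset.mem_map.mp hp
    refine ⟨(hy01 i).1, (hy01 i).2, ?_⟩
    exact Multiset.mem_map.mpr ⟨i, Finset.mem_univ_val i, rfl⟩
  · rw [Multiset.map_map]
    have hs1 : (U.map ((fun p : (G → ℝ) × ℝ => p.2 • p.1) ∘ fun i => l.get i)).sum =
        (U.map (fun i => y i • v i)).sum := by
      have := hysum
      rw [Finset.sum_eq_multiset_sum, Finset.sum_eq_multiset_sum] at this
      exact this.symm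
    rw [hs1]
    have hA : UA.map v = UA.map (fun i => y i • v i) :=
      Multiset.map_congr rfl fun i hi => by
        rw [hUA, Multiset.mem_filter] at hi
        rw [hi.2, one_smul]
    have hC : (UC.map (fun i => y i • v i)).sum = 0 := by
      apply Multiset.sum_eq_zero
      intro z hz
      obtain ⟨i, hi, rfl⟩ := Multiset.mem_map.mp hz
      rw [hUC, Multiset.mem_filter] at hi
      rw [hi.2, zero_smul]
    have hF' : (UF.map ((fun p : (G → ℝ) × ℝ => p.2 • p.1) ∘ fun i => (v i, y i))) =
        UF.map (fun i => y i • v i) := rfl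
    rw [hF', hA]
    conv_rhs => rw [hUeq]
    rw [Multiset.map_add, Multiset.map_add, Multiset.sum_add, Multiset.sum_add, hC, add_zero]

end H11.Cake
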