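import Pool.Agent.H11.Cake.Basic

/-!
# Exact ties along a forest   (JOB PC-TIES)

PROOF.  Claim: for a finset `S` of processed bundles which is closed under parents (if `b ∈ S` and
`0 < d b` then `p b ∈ S`) and contains all `b` with `d b = 0`: in the position
`∑ b, (T b + W b)` with `(T b).sum + (W b).sum = (B b).sum`, everything nonnegative, `T b = 0` for
`b ∉ S` (so `W b` has the sum of `B b`) and the tie equations for `b ∈ S`, one can force the
conclusion in `(univ \ S).card` splits.  Induction on `(univ \ S).card`.  If `S ≠ univ` take `b ∉ S`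
with `d b` minimal: `0 < d b`, and `p b ∈ S` as `d (p b) < d b`.
`δ = a (p b) (l b) + (T (p b)).sum (l b) - a b (l b)`: `0 ≤ δ` by `hlo` and `0 ≤ (T (p b)).sum`, and
`δ ≤ (B b).sum (l b) = (W b).sum (l b)` by `hhi` and `(T (p b)).sum ≤ (B (p b)).sum`.  Apply
`takePart (l b) δ` (file `H85/Cake/CutEq.lean`) to `W b`, frame: all other atoms; `T' b = A`,
`W' b = B`; `S' = insert b S`.  The other tie equations do not involve `T b` except for bundles `b'`
with `p b' = b`, which are not in `S` (closed under parents).
Start: `S = {b | d b = 0}`, `T b = 0`, `W b = B b`.  At the end `S = univ`.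
-/

namespace H11.Cake

open H85.Cake

variable {G : Type}

theorem ties_aux [Fintype G] [DecidableEq G] (a : G → G → ℝ) (B : G → Multiset (G → ℝ))
    (d : G → ℕ) (p l : G → G) (hp : ∀ b, 0 < d b → d (p b) < d b)
    (hlo : ∀ b, 0 < d b → a b (l b) ≤ a (p b) (l b))
    (hhi : ∀ b, 0 < d b → a (p b) (l b) + (B (p b)).sum (l b) ≤ a b (l b) + (B b).sum (l b)) :
    ∀ (m : ℕ) (S : Finset G), (Finset.univ \ S).card = m → (∀ b ∈ S, 0 < d b → p b ∈ S) →
      (∀ b, d b = 0 → b ∈ S) → ∀ T W : G → Multiset (G → ℝ), (∀ b, NN (T b)) →
      (∀ b, NN (W b)) → (∀ b, (T b).sum + (W b).sum = (B b).sum) → (∀ b, b ∉ S → T b = 0) →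
      (∀ b ∈ S, 0 < d b → a b (l b) + (T b).sum (l b) = a (p b) (l b) + (T (p b)).sum (l b)) →
      Force (fun M' => ∃ T W : G → Multiset (G → ℝ), M' = ∑ b, (T b + W b) ∧
        (∀ b, (T b).sum + (W b).sum = (B b).sum) ∧
        ∀ b, 0 < d b → a b (l b) + (T b).sum (l b) = a (p b) (l b) + (T (p b)).sum (l b))
        m (∑ b, (T b + W b)) := by
  intro m
  induction m with
  | zero =>
    intro S hS _ _ T W _ _ hTW _ htie
    have hmem : ∀ b, b ∈ S := by
      intro b
      by_contra hb
      have h1 : b ∈ Finset.univ \ S := Finset.mem_sdiff.2 ⟨Finset.mem_univ b, hb⟩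
      rw [Finset.card_eq_zero.1 hS] at h1
      exact absurd h1 (Finset.notMem_empty b)
    exact Force.done ⟨T, W, rfl, hTW, fun b hb => htie b (hmem b) hb⟩
  | succ m ih =>
    intro S hS hcl h0 T W hT hW hTW hT0 htie
    have hne : (Finset.univ \ S).Nonempty := by
      rw [← Finset.card_pos]
      omega
    obtain ⟨b, hb, hmin⟩ := Finset.exists_min_image (Finset.univ \ S) d hne
    have hbS : b ∉ S := (Finset.mem_sdiff.1 hb).2
    have hdb : 0 < d b := Nat.pos_of_ne_zero fun h => hbS (h0 b h)
    have hpS : p b ∈ S := by
      by_contra h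
      have h1 := hmin (p b) (Finset.mem_sdiff.2 ⟨Finset.mem_univ _, h⟩)
      have h2 := hp b hdb
      omega
    have hpb : p b ≠ b := fun h => hbS (h ▸ hpS)
    have hWb : (W b).sum = (B b).sum := by
      have h1 := hTW b
      rw [hT0 b hbS] at h1
      simpa using h1
    have hTp : (T (p b)).sum (l b) ≤ (B (p b)).sum (l b) := by
      have h1 := congrFun (hTW (p b)) (l b)
      rw [Pi.add_apply] at h1
      have h2 := nonneg (hW (p b)) (l b)
      linarith
    have hTp0 := nonneg (hT (p b)) (l b)
    have h1 := ((takePart (l b) (a (p b) (l b) + (T (p b)).sum (l b) - a b (l b)) (hW b)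
      (by have := hlo b hdb; linarith)
      (by have := hhi b hdb; rw [hWb]; linarith)).inv (hW b)).frame
        (∑ b' ∈ Finset.univ.erase b, (T b' + W b'))
    have hM : W b + ∑ b' ∈ Finset.univ.erase b, (T b' + W b') = ∑ b', (T b' + W b') := by
      rw [← Finset.add_sum_erase Finset.univ _ (Finset.mem_univ b), hT0 b hbS, zero_add]
    rw [hM] at h1
    have h2 := h1.bind (Q := fun M' => ∃ T W : G → Multiset (G → ℝ), M' = ∑ b, (T b + W b) ∧
        (∀ b, (T b).sum + (W b).sum = (B b).sum) ∧
        ∀ b, 0 < d b → a b (l b) + (T b).sum (l b) = a (p b) (l b) + (T (p b)).sum (l b))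
      (N' := m) (by
        rintro M' ⟨M₁, ⟨⟨A, C, rfl, hA⟩, hNN, hsum⟩, rfl⟩
        have hAC := nn_add.1 hNN
        have hS' : (Finset.univ \ insert b S).card = m := by
          have h4 : Finset.univ \ insert b S = (Finset.univ \ S).erase b := by
            ext x
            simp only [Finset.mem_sdiff, Finset.mem_insert, Finset.mem_erase, Finset.mem_univ,
              true_and, not_or]
          rw [h4, Finset.card_erase_of_mem hb, hS]
          rfl
        have hpos : A + C + ∑ b' ∈ Finset.univ.erase b, (T b' + W b') =
            ∑ b', (Function.update T b A b' + Function.update W b C b') := by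
          rw [← Finset.add_sum_erase Finset.univ
            (fun b' => Function.update T b A b' + Function.update W b C b') (Finset.mem_univ b)]
          simp only [Function.update_self]
          congr 1
          refine Finset.sum_congr rfl fun b' hb' => ?_
          have hne' := Finset.ne_of_mem_erase hb'
          rw [Function.update_of_ne hne', Function.update_of_ne hne']
        rw [hpos]
        refine ih (insert b S) hS' ?_ ?_ (Function.update T b A) (Function.update W b C)
          ?_ ?_ ?_ ?_ ?_
        · intro b' hb' hd'
          rcases Finset.mem_insert.1 hb' with h | h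
          · subst h
            exact Finset.mem_insert_of_mem hpS
          · exact Finset.mem_insert_of_mem (hcl b' h hd')
        · intro b' hd'
          exact Finset.mem_insert_of_mem (h0 b' hd')
        · intro b'
          by_cases h : b' = b
          · subst h
            rw [Function.update_self]
            exact hAC.1
          · rw [Function.update_of_ne h]
            exact hT b'
        · intro b'
          by_cases h : b' = b
          · subst h
            rw [Function.update_self]
            exact hAC.2
          · rw [Function.update_of_ne h]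
            exact hW b'
        · intro b'
          by_cases h : b' = b
          · subst h
            rw [Function.update_self, Function.update_self, ← Multiset.sum_add, hsum, hWb]
          · rw [Function.update_of_ne h, Function.update_of_ne h]
            exact hTW b'
        · intro b' hb'
          rw [Finset.mem_insert, not_or] at hb'
          rw [Function.update_of_ne hb'.1]
          exact hT0 b' hb'.2
        · intro b' hb' hd'
          rcases Finset.mem_insert.1 hb' with h | h
          · subst h
            rw [Function.update_self, Function.update_of_ne hpb, hA]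
            ring
          · have hb1 : b' ≠ b := fun h5 => hbS (h5 ▸ h)
            have hb2 : p b' ≠ b := fun h5 => hbS (h5 ▸ hcl b' h hd')
            rw [Function.update_of_ne hb1, Function.update_of_ne hb2]
            exact htie b' h hd')
    exact h2.mono (by omega) (fun _ h => h)

theorem ties [Fintype G] [DecidableEq G] (a : G → G → ℝ) (B : G → Multiset (G → ℝ))
    (hB : ∀ b, NN (B b)) (d : G → ℕ) (p l : G → G) (hp : ∀ b, 0 < d b → d (p b) < d b)
    (hlo : ∀ b, 0 < d b → a b (l b) ≤ a (p b) (l b))
    (hhi : ∀ b, 0 < d b → a (p b) (l b) + (B (p b)).sum (l b) ≤ a b (l b) + (B b).sum (l b)) :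
    Force (fun M' => ∃ T W : G → Multiset (G → ℝ), M' = ∑ b, (T b + W b) ∧
      (∀ b, (T b).sum + (W b).sum = (B b).sum) ∧
      ∀ b, 0 < d b → a b (l b) + (T b).sum (l b) = a (p b) (l b) + (T (p b)).sum (l b))
      (Fintype.card G) (∑ b, B b) := by
  have h := ties_aux a B d p l hp hlo hhi (Finset.univ \ Finset.univ.filter (fun b => d b = 0)).card
    (Finset.univ.filter (fun b => d b = 0)) rfl
    (fun b hb hd => by
      rw [Finset.mem_filter] at hb
      omega)
    (fun b hb => Finset.mem_filter.2 ⟨Finset.mem_univ b, hb⟩) (fun _ => 0) B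
    (fun b v hv => absurd hv (Multiset.notMem_zero v)) hB (fun b => by simp) (fun b _ => rfl)
    (fun b hb hd => by
      rw [Finset.mem_filter] at hb
      omega)
  simp only [zero_add] at h
  exact h.mono ((Finset.card_le_card Finset.sdiff_subset).trans_eq Finset.card_univ)
    (fun _ h => h)

end H11.Cake
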